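import Mathlib

/-! The discrete recursion. -/

namespace CPS92

/-- Compare `PJ.real_rate`.
(1) Claim `a k ≤ 16 / √(k h)` for all `k ≥ 1` with `√(k h) ≤ 4 (n - 1)`, strong induction on `k`:
trivial if `k h ≤ 1024`.  Otherwise `k' = k / 2` (natural division), `s = k' h ≥ (k h - h) / 2`,
`A = ⌈√s / 4⌉`, so `√s / 4 ≤ A ≤ 0.31 √s` and `A + 1 ≤ n`;
`a k ≤ a (2 k') ≤ (A ^ 2 / s) a k' + A / s + 1 / A ≤ (0.0961 * 16 + 0.31 + 4) / √s ≤ 16 / √(k h)`.
(2) If `√(k h) > 4 (n - 1)` and `n ≥ 2`: let `k₀ ≤ k` be the largest index with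
`√(k₀ h) ≤ 4 (n - 1)`; `k₀ h ≥ 16 (n - 1) ^ 2 - h`, so `a k ≤ a k₀ ≤ 16 / (3.9 (n - 1)) ≤ 64 / n`. -/
theorem disc_rate (a : ℕ → ℝ) (h : ℝ) (n : ℕ) (hn : 2 ≤ n) (h0 : 0 < h) (hh : h ≤ 1 / 2)
    (ha : Antitone a) (ha0 : ∀ k, 0 ≤ a k) (ha1 : ∀ k, a k ≤ 1 / 2)
    (hrec : ∀ A k : ℕ, 2 ≤ A → A + 1 ≤ n →
      k * h * (a (2 * k) - 1 / (A : ℝ)) ≤ (A : ℝ) ^ 2 * a k + A) (k : ℕ) (hk : 0 < k) :
    a k ≤ 16 / Real.sqrt (k * h) + 64 / n := by
  have hn' : (2 : ℝ) ≤ n := by exact_mod_cast hn
  have key : ∀ k : ℕ, 0 < k → Real.sqrt (k * h) ≤ 4 * ((n : ℝ) - 1) →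
      a k ≤ 16 / Real.sqrt (k * h) := by
    intro k
    induction k using Nat.strong_induction_on with
    | _ k ih =>
      intro hk hkn
      have hk0 : (0 : ℝ) < k := by exact_mod_cast hk
      have hkh : 0 < (k : ℝ) * h := mul_pos hk0 h0
      set y := Real.sqrt (k * h) with hy
      have hy0 : 0 < y := Real.sqrt_pos.2 hkh
      have hy2 : y ^ 2 = k * h := Real.sq_sqrt hkh.le
      by_cases hc : (k : ℝ) * h ≤ 1024
      · have hx : y ≤ 32 := by
          rw [hy, Real.sqrt_le_left (by norm_num)]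
          linarith
        refine (ha1 k).trans ?_
        rw [le_div_iff₀ hy0]
        linarith
      · rw [not_le] at hc
        have hy32 : 32 < y := by
          rw [hy]
          apply Real.lt_sqrt_of_sq_lt
          linarith
        have hkpos : 2048 < (k : ℝ) := by
          by_contra hcon
          rw [not_lt] at hcon
          have h1 : (k : ℝ) * h ≤ 2048 * (1 / 2) :=
            mul_le_mul hcon hh h0.le (by norm_num)
          linarith
        have hkpos' : 2048 < k := by exact_mod_cast hkpos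
        have e1 : 2 * (k / 2) ≤ k := by omega
        have e2 : k ≤ 2 * (k / 2) + 1 := by omega
        have e3 : k / 2 < k := by omega
        have e4 : 0 < k / 2 := by omega
        generalize k / 2 = k' at e1 e2 e3 e4
        have e1r : 2 * (k' : ℝ) ≤ k := by exact_mod_cast e1
        have e2r : (k : ℝ) ≤ 2 * k' + 1 := by exact_mod_cast e2
        have hk'0 : (0 : ℝ) < k' := by exact_mod_cast e4
        have hk'h : 0 < (k' : ℝ) * h := mul_pos hk'0 h0
        have f1 : (k' : ℝ) * h ≤ (k * h) / 2 := by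
          have := mul_le_mul_of_nonneg_right e1r h0.le
          linarith
        have f2 : 0.4997 * (k * h) ≤ (k' : ℝ) * h := by
          have := mul_le_mul_of_nonneg_right e2r h0.le
          linarith
        have hIH := ih k' e3 e4
        set x := Real.sqrt (k' * h) with hx
        have hx0 : 0 < x := Real.sqrt_pos.2 hk'h
        have hx2 : x ^ 2 = k' * h := Real.sq_sqrt hk'h.le
        have hx1 : (22.6 : ℝ) ≤ x := by
          rw [hx]
          apply Real.le_sqrt_of_sq_le
          norm_num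
          linarith
        have hxy : x ≤ y := by
          rw [hx, hy]
          apply Real.sqrt_le_sqrt
          linarith
        have hak' : a k' ≤ 16 / x := hIH (hxy.trans hkn)
        have hxn : x ≤ 2.83 * ((n : ℝ) - 1) := by
          rw [hx, Real.sqrt_le_left (by linarith)]
          have h1 : y ^ 2 ≤ (4 * ((n : ℝ) - 1)) ^ 2 := pow_le_pow_left₀ hy0.le hkn 2
          have h2 : (0 : ℝ) ≤ ((n : ℝ) - 1) ^ 2 := sq_nonneg _
          rw [mul_pow] at h1 ⊢
          norm_num at h1 ⊢
          linarith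
        obtain ⟨A, hA1, hA2⟩ : ∃ A : ℕ, x / 4 ≤ A ∧ (A : ℝ) < x / 4 + 1 :=
          ⟨⌈x / 4⌉₊, Nat.le_ceil _, Nat.ceil_lt_add_one (by positivity)⟩
        have hA3 : 2 ≤ A := by
          have : (2 : ℝ) < (A : ℝ) := by linarith
          exact_mod_cast this.le
        have hA5 : A + 1 ≤ n := by
          have : (A : ℝ) + 1 ≤ n := by linarith
          exact_mod_cast this
        have hA0 : (0 : ℝ) < (A : ℝ) := by linarith
        have hA4 : (A : ℝ) ≤ 0.31 * x := by linarith
        have hr := hrec A k' hA3 hA5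
        rw [← hx2] at hr
        have hinv : 1 / (A : ℝ) ≤ 4 / x := by
          rw [div_le_div_iff₀ hA0 hx0]
          linarith
        have hNs : (A : ℝ) ^ 2 * a k' ≤ (0.31 * x) ^ 2 * (16 / x) :=
          mul_le_mul (pow_le_pow_left₀ hA0.le hA4 2) hak' (ha0 k') (by positivity)
        have h3 : (0.31 * x) ^ 2 * (16 / x) = 0.31 ^ 2 * 16 * x := by
          field_simp
        have h5 : x ^ 2 * (1 / (A : ℝ)) ≤ x ^ 2 * (4 / x) :=
          mul_le_mul_of_nonneg_left hinv (by positivity)
        have h6 : x ^ 2 * (4 / x) = 4 * x := by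
          field_simp
        have h7 : x ^ 2 * a (2 * k') ≤ 5.85 * x := by
          rw [h6] at h5
          rw [h3] at hNs
          rw [mul_sub] at hr
          norm_num at hNs hr h5 ⊢
          linarith
        have h8 : x * a (2 * k') ≤ 5.85 := by
          have : x * (x * a (2 * k')) ≤ x * 5.85 := by
            linarith [h7, show x ^ 2 * a (2 * k') = x * (x * a (2 * k')) by ring]
          exact le_of_mul_le_mul_left this hx0
        have hst : y ≤ 1.4147 * x := by
          rw [hy, Real.sqrt_le_left (by positivity), mul_pow, hx2]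
          norm_num
          linarith
        have hak : a k ≤ a (2 * k') := ha e1
        rw [le_div_iff₀ hy0]
        calc a k * y ≤ a (2 * k') * (1.4147 * x) :=
              mul_le_mul hak hst hy0.le (ha0 _)
          _ = 1.4147 * (x * a (2 * k')) := by ring
          _ ≤ 1.4147 * 5.85 := by linarith
          _ ≤ 16 := by norm_num
  have hk0 : (0 : ℝ) < k := by exact_mod_cast hk
  have hn0 : (0 : ℝ) < n := by linarith
  by_cases hc : Real.sqrt (k * h) ≤ 4 * ((n : ℝ) - 1)
  · have h1 := key k hk hc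
    have h2 : 0 ≤ 64 / (n : ℝ) := by positivity
    linarith
  · rw [not_le] at hc
    have hkh : 16 * ((n : ℝ) - 1) ^ 2 < k * h := by
      have h1 : (4 * ((n : ℝ) - 1)) ^ 2 < k * h :=
        (Real.lt_sqrt (by linarith)).1 hc
      rw [mul_pow] at h1
      norm_num at h1
      exact h1
    set m : ℝ := (n : ℝ) - 1 with hm
    have hm1 : 1 ≤ m := by linarith
    have hmsq : 1 ≤ m ^ 2 := one_le_pow₀ hm1
    set k₀ := ⌊16 * m ^ 2 / h⌋₊ with hk₀
    have g1 : (k₀ : ℝ) ≤ 16 * m ^ 2 / h := Nat.floor_le (by positivity)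
    have g2 : 16 * m ^ 2 / h < k₀ + 1 := Nat.lt_floor_add_one _
    rw [le_div_iff₀ h0] at g1
    rw [div_lt_iff₀ h0] at g2
    have g3 : m ^ 2 ≤ k₀ * h := by
      have : (k₀ + 1 : ℝ) * h = k₀ * h + h := by ring
      linarith
    have g4 : 0 < k₀ := by
      rcases Nat.eq_zero_or_pos k₀ with h1 | h1
      · rw [h1] at g3
        push_cast at g3
        linarith
      · exact h1
    have g5 : k₀ ≤ k := by
      have h1 : (k₀ : ℝ) * h < k * h := lt_of_le_of_lt g1 hkh
      have h2 : (k₀ : ℝ) < k := lt_of_mul_lt_mul_right h1 h0.le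
      exact_mod_cast h2.le
    have g6 : Real.sqrt (k₀ * h) ≤ 4 * m := by
      rw [Real.sqrt_le_left (by linarith), mul_pow]
      norm_num
      exact g1
    have g7 : m ≤ Real.sqrt (k₀ * h) := Real.le_sqrt_of_sq_le g3
    have h1 := key k₀ g4 g6
    have h2 : 16 / Real.sqrt (k₀ * h) ≤ 16 / m :=
      div_le_div_of_nonneg_left (by norm_num) (by linarith) g7
    have h3 : 16 / m ≤ 64 / (n : ℝ) := by
      rw [div_le_div_iff₀ (by linarith) hn0]
      linarith
    have h4 : 0 ≤ 16 / Real.sqrt (k * h) := by positivity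
    have h5 := ha g5
    linarith

end CPS92
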