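import Pool.Agent.LibCPS92.QC
import Pool.Agent.LibCPS92.QD

/-! The quenched bound. -/

namespace CPS92

open CPS84 Finset
open scoped Classical

variable {n : ℕ} [NeZero n] {h : ℝ}

/-- `disc_rate` with `a k = T^k M / (2 n)` -/
theorem quenched (hn : 2 ≤ n) (h0 : 0 < h) (hh : h * (2 * n) ≤ 1) (ξ : ZMod n → ZMod 4) (k : ℕ)
    (hk : 0 < k) :
    ((tstp (fun _ => cyc 4) h)^[k] tM) ξ ≤ 32 * n / Real.sqrt (k * h) + 128 := by
  have hn2 : (2 : ℝ) ≤ n := by exact_mod_cast hn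
  have hnp : (0 : ℝ) < n := by linarith
  set T : ℕ → ℝ := fun j => ((tstp (fun _ => cyc 4) h)^[j] tM) ξ with hT
  have hT0 : ∀ j, 0 ≤ T j := by
    intro j
    have h1 := iter_mono (u := fun _ => cyc 4) h0.le hh (f := fun _ : ZMod n → ZMod 4 => (0 : ℝ))
      (g := tM) tM_nonneg j ξ
    rw [iter_const] at h1
    exact h1
  have hT1 : ∀ j, T j ≤ n := by
    intro j
    have h1 := iter_mono (u := fun _ => cyc 4) h0.le hh (f := tM)
      (g := fun _ : ZMod n → ZMod 4 => (n : ℝ)) tM_le j ξ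
    rw [iter_const] at h1
    exact h1
  have hanti : Antitone T := iter_tM_anti hn h0.le hh ξ
  have key := disc_rate (fun j => T j / (2 * n)) h n hn h0 ?_ ?_ ?_ ?_ ?_ k hk
  · have key' : T k / (2 * n) ≤ 16 / Real.sqrt (k * h) + 64 / n := key
    rw [div_le_iff₀ (by positivity)] at key'
    refine key'.trans (le_of_eq ?_)
    field_simp
    ring
  · nlinarith
  · intro i j hij
    exact div_le_div_of_nonneg_right (hanti hij) (by positivity)
  · intro j
    exact div_nonneg (hT0 j) (by positivity)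
  · intro j
    show T j / (2 * n) ≤ 1 / 2
    rw [div_le_iff₀ (by positivity)]
    have := hT1 j
    linarith
  · intro A j hA hAn
    have h1 := iter_rec hn h0.le hh ξ A j hA hAn
    have h2 : (j : ℝ) * h * (T (2 * j) / 2 - n / (A : ℝ)) ≤
      (A : ℝ) ^ 2 * (T j / 2) + n * A := h1
    show (j : ℝ) * h * (T (2 * j) / (2 * n) - 1 / (A : ℝ)) ≤
      (A : ℝ) ^ 2 * (T j / (2 * n)) + A
    have h3 := div_le_div_of_nonneg_right h2 hnp.le
    have e1 : (j : ℝ) * h * (T (2 * j) / 2 - n / (A : ℝ)) / n =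
        (j : ℝ) * h * (T (2 * j) / (2 * n) - 1 / (A : ℝ)) := by
      have hA0 : (A : ℝ) ≠ 0 := by
        have : (2 : ℝ) ≤ A := by exact_mod_cast hA
        intro h
        linarith
      field_simp
    have e2 : ((A : ℝ) ^ 2 * (T j / 2) + n * A) / n = (A : ℝ) ^ 2 * (T j / (2 * n)) + A := by
      field_simp
    rw [e1, e2] at h3
    exact h3

/-- `T^(2k) (M^2) = T^k (T^k (M^2)) ≤ T^k (M T^k M) ≤ B T^k M ≤ B^2` -/
theorem quenched_sq (hn : 2 ≤ n) (h0 : 0 < h) (hh : h * (2 * n) ≤ 1) (ξ : ZMod n → ZMod 4) (k : ℕ)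
    (hk : 0 < k) :
    ((tstp (fun _ => cyc 4) h)^[2 * k] (fun ζ => tM ζ ^ 2)) ξ ≤
      (32 * n / Real.sqrt (k * h) + 128) ^ 2 := by
  have hnp : (0 : ℝ) ≤ n := Nat.cast_nonneg n
  set B : ℝ := 32 * n / Real.sqrt (k * h) + 128 with hB
  have hB0 : 0 ≤ B := by positivity
  have h1 : ∀ ζ : ZMod n → ZMod 4,
      ((tstp (fun _ => cyc 4) h)^[k] (fun ζ => tM ζ ^ 2)) ζ ≤ B * tM ζ + 0 * tM ζ := by
    intro ζ
    have h2 := iter_tM_sq hn h0.le hh k ζ
    have h3 := quenched hn h0 hh ζ k hk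
    have h4 := mul_le_mul_of_nonneg_left h3 (tM_nonneg ζ)
    rw [zero_mul, add_zero, mul_comm B]
    exact h2.trans h4
  have h2 := iter_mono (u := fun _ => cyc 4) h0.le hh h1 k ξ
  rw [← Function.iterate_add_apply, iter_lin] at h2
  have h3 := quenched hn h0 hh ξ k hk
  have h4 : k + k = 2 * k := by ring
  rw [h4] at h2
  refine h2.trans ?_
  have h5 : B * ((tstp (fun _ => cyc 4) h)^[k] tM) ξ ≤ B * B := mul_le_mul_of_nonneg_left h3 hB0
  calc B * ((tstp (fun _ => cyc 4) h)^[k] tM) ξ + 0 * ((tstp (fun _ => cyc 4) h)^[k] tM) ξ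
      = B * ((tstp (fun _ => cyc 4) h)^[k] tM) ξ := by ring
    _ ≤ B * B := h5
    _ = B ^ 2 := (sq B).symm

end CPS92
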