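import Pool.Agent.LibCPS92.PI

/-! The bound for the density of the moving walls. -/

namespace CPS92

open CPS84 Finset
open scoped Classical

/-- For `t ≤ 256` trivial.  For `t > 256` put `s = t / 2 > 128`, `A = ⌈√s / 4⌉ ≤ 0.3385 √s`; then
`N t ≤ (A ^ 2 / s) N s + A / s + 1 / A ≤ (0.1146 * 8 + 0.3385 + 4) / √s ≤ 8 / √t` (strong induction
on `⌈t⌉` or on the number of halvings). -/
theorem real_rate (N : ℝ → ℝ) (h0 : ∀ t, 0 ≤ t → 0 ≤ N t) (h1 : ∀ t, 0 ≤ t → N t ≤ 1 / 2)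
    (h : ∀ (A : ℕ) (t : ℝ), 2 ≤ A → 0 < t → t * (N (2 * t) - 1 / (A : ℝ)) ≤ (A : ℝ) ^ 2 * N t + A)
    (t : ℝ) (ht : 0 < t) : N t ≤ 8 / Real.sqrt t := by
  have small : ∀ t : ℝ, 0 < t → t ≤ 256 → N t ≤ 8 / Real.sqrt t := by
    intro t ht ht2
    have hx : Real.sqrt t ≤ 16 := by
      rw [Real.sqrt_le_left (by norm_num)]
      linarith
    have hx0 : 0 < Real.sqrt t := Real.sqrt_pos.2 ht
    have h2 : 1 / 2 ≤ 8 / Real.sqrt t := by
      rw [le_div_iff₀ hx0]
      linarith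
    exact (h1 t ht.le).trans h2
  have key : ∀ n : ℕ, ∀ t : ℝ, 0 < t → t ≤ 256 * 2 ^ n → N t ≤ 8 / Real.sqrt t := by
    intro n
    induction n with
    | zero =>
      intro t ht ht2
      exact small t ht (by simpa using ht2)
    | succ n ih =>
      intro t ht ht2
      by_cases hc : t ≤ 256
      · exact small t ht hc
      rw [not_le] at hc
      have hs0 : 0 < t / 2 := by linarith
      have hs := ih (t / 2) hs0 (by rw [pow_succ] at ht2; linarith)
      have hsN := h0 (t / 2) hs0.le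
      set x := Real.sqrt (t / 2) with hx
      have hx2 : x ^ 2 = t / 2 := Real.sq_sqrt hs0.le
      have hx0 : 0 < x := Real.sqrt_pos.2 hs0
      have hx1 : (11.31 : ℝ) ≤ x := by
        rw [hx]
        apply Real.le_sqrt_of_sq_le
        norm_num
        linarith
      obtain ⟨A, hA1, hA2⟩ : ∃ A : ℕ, x / 4 ≤ A ∧ (A : ℝ) < x / 4 + 1 :=
        ⟨⌈x / 4⌉₊, Nat.le_ceil _, Nat.ceil_lt_add_one (by positivity)⟩
      have hA3 : 2 ≤ A := by
        have : (2 : ℝ) < (A : ℝ) := by linarith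
        exact_mod_cast this.le
      have hA0 : (0 : ℝ) < (A : ℝ) := by linarith
      have hA4 : (A : ℝ) ≤ 0.3385 * x := by linarith
      have hh := h A (t / 2) hA3 hs0
      rw [mul_div_cancel₀ t (two_ne_zero), ← hx2] at hh
      have hinv : 1 / (A : ℝ) ≤ 4 / x := by
        rw [div_le_div_iff₀ hA0 hx0]
        linarith
      have hNs : (A : ℝ) ^ 2 * N (x ^ 2) ≤ (0.3385 * x) ^ 2 * (8 / x) := by
        rw [hx2]
        apply mul_le_mul (pow_le_pow_left₀ hA0.le hA4 2) hs hsN (by positivity)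
      have h3 : (0.3385 * x) ^ 2 * (8 / x) = 0.3385 ^ 2 * 8 * x := by
        field_simp
      have h4 : x ^ 2 * N t ≤ x ^ 2 * (4 / x) + 0.3385 ^ 2 * 8 * x + 0.3385 * x := by
        have h5 : x ^ 2 * (1 / (A : ℝ)) ≤ x ^ 2 * (4 / x) :=
          mul_le_mul_of_nonneg_left hinv (by positivity)
        rw [mul_sub] at hh
        linarith
      have h6 : x ^ 2 * (4 / x) = 4 * x := by
        field_simp
      have h7 : x ^ 2 * N t ≤ 5.256 * x := by
        rw [h6] at h4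
        norm_num at h4 ⊢
        linarith
      have h8 : x * N t ≤ 5.256 := by
        have : x * (x * N t) ≤ x * 5.256 := by linarith [h7, show x ^ 2 * N t = x * (x * N t) by ring]
        exact le_of_mul_le_mul_left this hx0
      have hst : Real.sqrt t ≤ 1.4143 * x := by
        rw [Real.sqrt_le_left (by positivity), mul_pow, hx2]
        norm_num
        linarith
      have hst0 : 0 < Real.sqrt t := Real.sqrt_pos.2 ht
      rw [le_div_iff₀ hst0]
      have hNt := h0 t ht.le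
      calc N t * Real.sqrt t ≤ N t * (1.4143 * x) := mul_le_mul_of_nonneg_left hst hNt
        _ = 1.4143 * (x * N t) := by ring
        _ ≤ 1.4143 * 5.256 := by linarith
        _ ≤ 8 := by norm_num
  obtain ⟨n, hn⟩ : ∃ n : ℕ, t ≤ 256 * 2 ^ n := by
    refine ⟨⌈t⌉₊, ?_⟩
    have h2 : t ≤ (⌈t⌉₊ : ℝ) := Nat.le_ceil t
    have h3 : (⌈t⌉₊ : ℝ) ≤ 2 ^ ⌈t⌉₊ := by exact_mod_cast Nat.lt_two_pow_self.le
    have h4 : (0 : ℝ) ≤ 2 ^ ⌈t⌉₊ := by positivity
    linarith
  exact key n t ht hn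

/-- `exp_gen_PhiM`, `Sol.le_of_gen_le` on `[t, 2 t]`, `CPS84.N1_anti` -/
theorem mobile_bound {m : ℝ → ((ℤ → ZMod 4) → ℝ) → ℝ} (hm : Sol (cyc 4) m) (h0 : Unif (m 0))
    (t : ℝ) (ht : 0 < t) : m t (fun η => ind (EN 1 η)) ≤ 8 / Real.sqrt t := by
  have hinv : ∀ s, 0 ≤ s → Inv (m s) := fun s hs => inv_of_unif hm h0 s hs
  refine real_rate (fun t => m t (fun η => ind (EN 1 η)))
    (fun s hs => (hinv s hs).exp.nonneg (dep_EN (κ := 4) 1 le_rfl) (fun _ => ind_nonneg _))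
    (fun s hs => EN1_le_half (hinv s hs)) (fun A s hA hs => ?_) t ht
  have h2 := hm.le_of_gen_le (dep_PhiM A hA) s (2 * s)
    (-(m (2 * s) (fun η => ind (EN 1 η)) - 1 / (A : ℝ))) hs.le (by linarith)
    (fun r hr hr' => by
      have h3 := exp_gen_PhiM (hinv r (hs.le.trans hr)) A hA
      have h4 : m (2 * s) (fun η => ind (EN 1 η)) ≤ m r (fun η => ind (EN 1 η)) :=
        N1_anti (by norm_num) hm h0 r (2 * s) (hs.le.trans hr) hr'
      linarith)
  have h3 := PhiM_le (hinv s hs.le) A hA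
  have h4 := PhiM_nonneg (hinv (2 * s) (by linarith)) A hA
  have h5 : -(m (2 * s) (fun η => ind (EN 1 η)) - 1 / (A : ℝ)) * (2 * s - s) =
      -(s * (m (2 * s) (fun η => ind (EN 1 η)) - 1 / (A : ℝ))) := by ring
  rw [h5] at h2
  show s * (m (2 * s) (fun η => ind (EN 1 η)) - 1 / (A : ℝ)) ≤
    (A : ℝ) ^ 2 * m s (fun η => ind (EN 1 η)) + A
  linarith

end CPS92
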