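import Pool.Agent.LibCPS92.PDefs

/-! The generator on `RL k`. -/

namespace CPS92

open CPS84 Finset
open scoped Classical

private theorem PC_four (K : Finset (ℤ × Bool)) (δ : ℤ × Bool → ℝ) (c1 c2 c3 c4 : ℤ × Bool)
    (h1 : c1 ∈ K) (h2 : c2 ∈ K) (h3 : c3 ∈ K) (h4 : c4 ∈ K) (n12 : c1 ≠ c2) (n13 : c1 ≠ c3)
    (n14 : c1 ≠ c4) (n23 : c2 ≠ c3) (n24 : c2 ≠ c4) (n34 : c3 ≠ c4) {a1 a2 a3 a4 : ℝ}
    (d1 : a1 ≤ δ c1) (d2 : a2 ≤ δ c2) (d3 : a3 ≤ δ c3) (d4 : a4 ≤ δ c4)
    (d0 : ∀ c ∈ K, c ≠ c1 → c ≠ c2 → c ≠ c3 → c ≠ c4 → 0 ≤ δ c) :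
    a1 + a2 + a3 + a4 ≤ ∑ c ∈ K, δ c := by
  have hsub : ({c1, c2, c3, c4} : Finset (ℤ × Bool)) ⊆ K := by
    intro c hc
    simp only [mem_insert, mem_singleton] at hc
    rcases hc with h | h | h | h <;> rw [h] <;> assumption
  have e : ∑ c ∈ ({c1, c2, c3, c4} : Finset (ℤ × Bool)), δ c = δ c1 + (δ c2 + (δ c3 + δ c4)) := by
    rw [sum_insert (by simp [n12, n13, n14]), sum_insert (by simp [n23, n24]),
      sum_insert (by simp [n34]), sum_singleton]
  have h := Finset.sum_le_sum_of_subset_of_nonneg (f := δ) hsub (by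
    intro c hc hc'
    simp only [mem_insert, mem_singleton, not_or] at hc'
    exact d0 c hc hc'.1 hc'.2.1 hc'.2.2.1 hc'.2.2.2)
  rw [e] at h
  linarith

private theorem PC_noeff {c : ℤ × Bool} {η : ℤ → ZMod 4} (h : η c.1 ≠ η (nb c) - 1) :
    act (cyc 4) c η = η := by
  unfold act cyc
  rw [if_neg h, Function.update_eq_self]

private theorem PC_eff {c : ℤ × Bool} {η : ℤ → ZMod 4} (h : η c.1 = η (nb c) - 1) :
    act (cyc 4) c η c.1 = η (nb c) := by
  rw [act_same]
  unfold cyc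
  rw [if_pos h]

private theorem PC_mem {k : ℕ} {y : ℤ} {b : Bool} (h0 : 0 ≤ y) (h1 : y ≤ k + 1) :
    (y, b) ∈ clk (Icc 0 ((k : ℤ) + 1)) := by
  unfold clk
  rw [mem_product]
  exact ⟨mem_Icc.mpr ⟨h0, h1⟩, mem_univ _⟩

private theorem z4_1 : ∀ a : ZMod 4, ¬ (a + 1 = a - 1) := by decide
private theorem z4_2 : ∀ a : ZMod 4, ¬ (a = a - 1) := by decide
private theorem z4_3 : ∀ a : ZMod 4, ¬ (a + 1 = a + 2) := by decide
private theorem z4_4 : ∀ a : ZMod 4, ¬ (a = a + 1) := by decide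

/-- the mirror image (`i ↦ k + 1 - i`) of `RR (k - 1) η ∧ η (k + 1) = η k + 2` -/
def SLL (k : ℕ) (η : ℤ → ZMod 4) : Prop :=
  η 0 = η 1 + 2 ∧ η 2 = η 1 + 1 ∧ (∀ i : ℤ, 2 ≤ i → i ≤ k → η i = η 2) ∧ η (k + 1) = η k + 1

/-- on a configuration with the pattern only four clocks can have an effect -/
private theorem PC_loss (k : ℕ) (hk : 1 ≤ k) {η : ℤ → ZMod 4} (h : RL k η) :
    (-1 : ℝ) + -1 + (- ind (η (-1) = η 0 + 1)) + (- ind (η (k + 2) = η (k + 1) + 1)) ≤
      ∑ c ∈ clk (Icc 0 ((k : ℤ) + 1)), (ind (RL k (act (cyc 4) c η)) - ind (RL k η)) := by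
  obtain ⟨⟨h0, h1⟩, h2⟩ := h
  have hkk : η k = η 1 := h1 k (by omega) le_rfl
  rw [ind_true (show RL k η from ⟨⟨h0, h1⟩, h2⟩)]
  have hge : ∀ c, (-1 : ℝ) ≤ ind (RL k (act (cyc 4) c η)) - 1 := fun c => by
    have := ind_nonneg (RL k (act (cyc 4) c η)); linarith
  have hno : ∀ c : ℤ × Bool, η c.1 ≠ η (nb c) - 1 → 0 ≤ ind (RL k (act (cyc 4) c η)) - 1 := by
    intro c hc
    rw [PC_noeff hc, ind_true (show RL k η from ⟨⟨h0, h1⟩, h2⟩)]
    norm_num
  refine PC_four _ _ ((1 : ℤ), false) ((k : ℤ), true) ((0 : ℤ), false) ((k : ℤ) + 1, true)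
    (PC_mem (by norm_num) (by omega)) (PC_mem (by omega) (by omega)) (PC_mem le_rfl (by omega))
    (PC_mem (by omega) le_rfl) ?_ ?_ ?_ ?_ ?_ ?_ (hge _) (hge _) ?_ ?_ ?_
  · intro h; have := congrArg Prod.snd h; simp at this
  · intro h; have := congrArg Prod.fst h; simp at this
  · intro h; have := congrArg Prod.snd h; simp at this
  · intro h; have := congrArg Prod.snd h; simp at this
  · intro h; have := congrArg Prod.fst h; simp at this
  · intro h; have := congrArg Prod.snd h; simp at this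
  · by_cases h3 : η (-1) = η 0 + 1
    · rw [ind_true h3]; exact hge _
    · rw [ind_false h3, neg_zero]
      apply hno
      intro h4
      apply h3
      have h5 : nb ((0 : ℤ), false) = -1 := by simp [nb]
      rw [h5] at h4
      show η (-1) = η 0 + 1
      rw [show η 0 = η (-1) - 1 from h4]; ring
  · by_cases h3 : η (k + 2) = η (k + 1) + 1
    · rw [ind_true h3]; exact hge _
    · rw [ind_false h3, neg_zero]
      apply hno
      intro h4
      apply h3
      have h5 : nb ((k : ℤ) + 1, true) = k + 2 := by simp only [nb, if_true]; ring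
      rw [h5] at h4
      rw [show η ((k : ℤ) + 1) = η (k + 2) - 1 from h4]; ring
  · rintro ⟨y, b⟩ hc n1 n2 n3 n4
    apply hno
    unfold clk at hc
    rw [mem_product, mem_Icc] at hc
    obtain ⟨⟨hy0, hy1⟩, -⟩ := hc
    show η y ≠ η (nb (y, b)) - 1
    cases b with
    | false =>
      have e : nb (y, false) = y - 1 := by simp [nb]
      rw [e]
      have m1 : y ≠ 1 := fun h => n1 (by rw [h])
      have m3 : y ≠ 0 := fun h => n3 (by rw [h])
      rcases lt_or_eq_of_le (show y ≤ k + 1 from hy1) with m' | m'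
      · rw [h1 y (by omega) (by omega), h1 (y - 1) (by omega) (by omega)]
        exact z4_2 _
      · have e2 : y - 1 = k := by rw [m']; ring
        rw [e2, m', h2]
        exact z4_1 _
    | true =>
      have e : nb (y, true) = y + 1 := by simp [nb]
      rw [e]
      have m2 : y ≠ k := fun h => n2 (by rw [h])
      have m4 : y ≠ k + 1 := fun h => n4 (by rw [h])
      rcases lt_trichotomy y 0 with m | m | m
      · omega
      · rw [m, h0]
        have : (0 : ℤ) + 1 = 1 := by norm_num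
        rw [this]
        exact z4_1 _
      · rw [h1 y (by omega) (by omega), h1 (y + 1) (by omega) (by omega)]
        exact z4_2 _

/-- the four gains -/
private theorem PC_gain (k : ℕ) (hk : 1 ≤ k) {η : ℤ → ZMod 4} (h : ¬ RL k η) :
    ind (RL (k + 1) (sh (-1) η)) + ind (RL (k + 1) η) +
      ind (2 ≤ k ∧ RR (k - 1) η ∧ η (k + 1) = η k + 2) + ind (2 ≤ k ∧ SLL k η) ≤
      ∑ c ∈ clk (Icc 0 ((k : ℤ) + 1)), (ind (RL k (act (cyc 4) c η)) - ind (RL k η)) := by
  rw [ind_false h]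
  have hge : ∀ c, (0 : ℝ) ≤ ind (RL k (act (cyc 4) c η)) - 0 := fun c => by
    have := ind_nonneg (RL k (act (cyc 4) c η)); linarith
  refine PC_four _ _ ((0 : ℤ), false) ((k : ℤ) + 1, true) ((k : ℤ), false) ((1 : ℤ), true)
    (PC_mem le_rfl (by omega)) (PC_mem (by omega) le_rfl) (PC_mem (by omega) (by omega))
    (PC_mem (by norm_num) (by omega)) ?_ ?_ ?_ ?_ ?_ ?_ ?_ ?_ ?_ ?_ (fun c _ _ _ _ _ => hge c)
  · intro h; have := congrArg Prod.snd h; simp at this
  · intro h; have := congrArg Prod.fst h; simp at this; omega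
  · intro h; have := congrArg Prod.snd h; simp at this
  · intro h; have := congrArg Prod.snd h; simp at this
  · intro h; have := congrArg Prod.fst h; simp at this; omega
  · intro h; have := congrArg Prod.snd h; simp at this
  · rw [sub_zero]
    apply ind_mono
    rintro ⟨⟨a, b⟩, c⟩
    have a' : η (-1) = η 0 + 1 := by simpa [sh] using a
    have b' : ∀ i : ℤ, 0 ≤ i → i ≤ k → η i = η 0 := by
      intro i hi1 hi2
      have := b (i + 1) (by omega) (by push_cast; omega)
      simpa [sh] using this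
    have c' : η (k + 1) = η k + 1 := by
      have c2 : η ((((k + 1 : ℕ) : ℤ) + 1) + -1) = η (((k + 1 : ℕ) : ℤ) + -1) + 1 := c
      have e1 : (((k + 1 : ℕ) : ℤ) + 1) + -1 = k + 1 := by push_cast; ring
      have e2 : ((k + 1 : ℕ) : ℤ) + -1 = k := by push_cast; ring
      rwa [e1, e2] at c2
    have e0 : act (cyc 4) ((0 : ℤ), false) η 0 = η (-1) := by
      have e5 : nb ((0 : ℤ), false) = -1 := by simp [nb]
      have := PC_eff (c := ((0 : ℤ), false)) (η := η) (by rw [e5, a']; simp)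
      rwa [e5] at this
    have en : ∀ i : ℤ, i ≠ 0 → act (cyc 4) ((0 : ℤ), false) η i = η i := fun i hi => act_of_ne hi η
    refine ⟨⟨?_, ?_⟩, ?_⟩
    · rw [e0, en 1 (by norm_num), a', b' 1 (by norm_num) (by omega)]
    · intro i hi1 hi2
      rw [en i (by omega), en 1 (by norm_num), b' i (by omega) hi2, b' 1 (by norm_num) (by omega)]
    · rw [en (k + 1) (by omega), en k (by omega), c']
  · rw [sub_zero]
    apply ind_mono
    rintro ⟨⟨a, b⟩, c⟩
    have c' : η (k + 2) = η (k + 1) + 1 := by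
      have c2 : η (((k + 1 : ℕ) : ℤ) + 1) = η ((k + 1 : ℕ) : ℤ) + 1 := c
      have e1 : ((k + 1 : ℕ) : ℤ) + 1 = k + 2 := by push_cast; ring
      have e2 : ((k + 1 : ℕ) : ℤ) = k + 1 := by push_cast; ring
      rwa [e1, e2] at c2
    have b' : ∀ i : ℤ, 1 ≤ i → i ≤ k + 1 → η i = η 1 := fun i hi1 hi2 =>
      b i hi1 (by push_cast; omega)
    have e5 : nb ((k : ℤ) + 1, true) = k + 2 := by simp only [nb, if_true]; ring
    have e0 : act (cyc 4) ((k : ℤ) + 1, true) η (k + 1) = η (k + 2) := by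
      have := PC_eff (c := ((k : ℤ) + 1, true)) (η := η) (by rw [e5, c']; simp)
      rwa [e5] at this
    have en : ∀ i : ℤ, i ≠ k + 1 → act (cyc 4) ((k : ℤ) + 1, true) η i = η i :=
      fun i hi => act_of_ne hi η
    refine ⟨⟨?_, ?_⟩, ?_⟩
    · rw [en 0 (by omega), en 1 (by omega), a]
    · intro i hi1 hi2
      rw [en i (by omega), en 1 (by omega), b' i hi1 (by omega)]
    · rw [e0, en k (by omega), c', b' (k + 1) (by omega) le_rfl, b' k (by omega) (by omega)]
  · rw [sub_zero]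
    apply ind_mono
    rintro ⟨hk2, ⟨⟨a, b⟩, c⟩, d⟩
    have ek : ((k - 1 : ℕ) : ℤ) = k - 1 := by push_cast [Nat.cast_sub hk]; ring
    rw [ek] at b c
    have c' : η k = η (k - 1) - 1 := by
      have : (k : ℤ) - 1 + 1 = k := by ring
      rwa [this] at c
    have e5 : nb ((k : ℤ), false) = k - 1 := by simp [nb]
    have e0 : act (cyc 4) ((k : ℤ), false) η k = η (k - 1) := by
      have := PC_eff (c := ((k : ℤ), false)) (η := η) (by rw [e5]; exact c')
      rwa [e5] at this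
    have en : ∀ i : ℤ, i ≠ k → act (cyc 4) ((k : ℤ), false) η i = η i := fun i hi => act_of_ne hi η
    refine ⟨⟨?_, ?_⟩, ?_⟩
    · rw [en 0 (by omega), en 1 (by omega), a]
    · intro i hi1 hi2
      rw [en 1 (by omega)]
      rcases lt_or_eq_of_le hi2 with m | m
      · rw [en i (by omega), b i hi1 (by omega)]
      · rw [m, e0, b (k - 1) (by omega) le_rfl]
    · rw [en (k + 1) (by omega), e0, d, c']
      ring
  · rw [sub_zero]
    apply ind_mono
    rintro ⟨hk2, a, b, c, d⟩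
    have e5 : nb ((1 : ℤ), true) = 2 := by simp [nb]
    have e0 : act (cyc 4) ((1 : ℤ), true) η 1 = η 2 := by
      have := PC_eff (c := ((1 : ℤ), true)) (η := η) (by rw [e5, b]; simp)
      rwa [e5] at this
    have en : ∀ i : ℤ, i ≠ 1 → act (cyc 4) ((1 : ℤ), true) η i = η i := fun i hi => act_of_ne hi η
    refine ⟨⟨?_, ?_⟩, ?_⟩
    · rw [en 0 (by omega), e0, a, b]
      ring
    · intro i hi1 hi2
      rw [e0]
      rcases lt_or_eq_of_le hi1 with m | m
      · rw [en i (by omega), c i (by omega) hi2]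
      · rw [← m, e0]
    · rw [en (k + 1) (by omega), en k (by omega), d]

/-- Losses of `RL k`: `(1, false)`, `(k, true)` (the walls jump), `(0, false)` if
`η (-1) = η 0 + 1`, `(k + 1, true)` if `η (k + 2) = η (k + 1) + 1`.
Gains: `(0, false)` from `RL (k + 1) (sh (-1) η)`, `(k + 1, true)` from `RL (k + 1) η`; for
`k ≥ 2`: `(k, false)` from `RR (k - 1) η ∧ η (k + 1) = η k + 2` (the right wall hits a blocker),
`(1, true)` from `SLL k η`.  For `k = 1` the clocks `(1, false)`, `(1, true)` are the two losses. -/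
theorem gen_RL (k : ℕ) (hk : 1 ≤ k) (η : ℤ → ZMod 4) :
    ind (RL (k + 1) (sh (-1) η)) + ind (RL (k + 1) η) - 2 * ind (RL k η) +
      (if 2 ≤ k then ind (RR (k - 1) η ∧ η (k + 1) = η k + 2) + ind (SLL k η) else 0)
      - ind (RL k η ∧ η (-1) = η 0 + 1) - ind (RL k η ∧ η (k + 2) = η (k + 1) + 1) ≤
    gen (cyc 4) (clk (Icc 0 ((k : ℤ) + 1))) (fun η => ind (RL k η)) η := by
  have e : (if 2 ≤ k then ind (RR (k - 1) η ∧ η (k + 1) = η k + 2) + ind (SLL k η) else 0) =
      ind (2 ≤ k ∧ RR (k - 1) η ∧ η (k + 1) = η k + 2) + ind (2 ≤ k ∧ SLL k η) := by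
    by_cases h : 2 ≤ k
    · rw [if_pos h]
      congr 1
      · congr 1
        exact propext ⟨fun h' => ⟨h, h'⟩, fun h' => h'.2⟩
      · congr 1
        exact propext ⟨fun h' => ⟨h, h'⟩, fun h' => h'.2⟩
    · rw [if_neg h, ind_false fun h' => h h'.1, ind_false fun h' => h h'.1]
      norm_num
  rw [e]
  unfold gen
  by_cases h : RL k η
  · refine le_trans (le_of_eq ?_) (PC_loss k hk h)
    have h1 : ¬ RL (k + 1) (sh (-1) η) := by
      rintro ⟨⟨a, b⟩, c⟩
      have := b 2 (by norm_num) (by push_cast; omega)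
      have b' : η 1 = η 0 := by simpa [sh] using this
      rw [h.1.1] at b'
      exact z4_4 _ b'
    have h1' : ¬ RL (k + 1) η := by
      rintro ⟨⟨a, b⟩, c⟩
      have b' : η (k + 1) = η 1 := b (k + 1) (by omega) (by push_cast; exact le_rfl)
      rw [h.2, h.1.2 k (by omega) le_rfl] at b'
      exact z4_4 _ b'.symm
    have h2 : ¬ (2 ≤ k ∧ RR (k - 1) η ∧ η (k + 1) = η k + 2) := by
      rintro ⟨hk2, ⟨-, c⟩, -⟩
      have ek : ((k - 1 : ℕ) : ℤ) = k - 1 := by push_cast [Nat.cast_sub hk]; ring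
      rw [ek] at c
      have e1 : (k : ℤ) - 1 + 1 = k := by ring
      rw [e1, h.1.2 k (by omega) le_rfl, h.1.2 (k - 1) (by omega) (by omega)] at c
      exact z4_2 _ c
    have h2' : ¬ (2 ≤ k ∧ SLL k η) := by
      rintro ⟨-, a, -⟩
      rw [h.1.1] at a
      exact z4_3 _ a
    have h3 : ∀ p : Prop, ind (RL k η ∧ p) = ind p := fun p => by
      congr 1
      exact propext ⟨fun h' => h'.2, fun h' => ⟨h, h'⟩⟩
    rw [ind_false h1, ind_false h1', ind_false h2, ind_false h2', ind_true h, h3, h3]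
    ring
  · refine le_trans (le_of_eq ?_) (PC_gain k hk h)
    have h3 : ∀ p : Prop, ind (RL k η ∧ p) = 0 := fun p => ind_false fun h' => h h'.1
    rw [h3, h3, ind_false h]
    ring

end CPS92
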