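import Pool.Agent.LibCPS92.PDefs

/-! The generator on `RS k`, and on the moving walls. -/

namespace CPS92

open CPS84 Finset
open scoped Classical

private theorem pd_act_eq (c : ℤ × Bool) (η : ℤ → ZMod 4) (h : η c.1 ≠ η (nb c) - 1) :
    act (cyc 4) c η = η := by
  unfold act cyc
  rw [if_neg h]
  exact Function.update_eq_self _ _

private theorem pd_nonneg (p q : Prop) (h : q → p) : 0 ≤ ind p - ind q :=
  sub_nonneg.2 (ind_mono h)

private theorem pd_z1 : ∀ a : ZMod 4, a ≠ a - 1 := by decide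

private theorem pd_z2 : ∀ a : ZMod 4, a + 1 ≠ a - 1 := by decide

private theorem pd_z3 : ∀ a : ZMod 4, a ≠ a + 2 - 1 := by decide

private theorem pd_z4 : ∀ a : ZMod 4, a + 2 ≠ a - 1 := by decide

private theorem pd_z5 : ∀ a : ZMod 4, a + 1 ≠ a := by decide

/-- for `RS k` only the clocks `(0, false)`, `(1, false)`, `(k + 1, true)` can have an effect -/
private theorem pd_noeff (k : ℕ) (hk : 1 ≤ k) (η : ℤ → ZMod 4) (h : RS k η) (c : ℤ × Bool)
    (hc : 0 ≤ c.1 ∧ c.1 ≤ k + 1) (h0 : c ≠ (0, false)) (h1 : c ≠ (1, false))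
    (h2 : c = ((k : ℤ) + 1, true) → ¬ η (k + 2) = η (k + 1) + 1) : η c.1 ≠ η (nb c) - 1 := by
  obtain ⟨⟨ha, hi⟩, hb⟩ := h
  obtain ⟨i, b⟩ := c
  simp only at hc
  have hk1 : η (k : ℤ) = η 1 := hi k (by exact_mod_cast hk) le_rfl
  rw [hk1] at hb
  cases b with
  | false =>
    have hn : nb (i, false) = i - 1 := by simp [nb]
    rw [hn]
    change η i ≠ η (i - 1) - 1
    have hi0 : i ≠ 0 := fun e => h0 (by rw [e])
    have hi1 : i ≠ 1 := fun e => h1 (by rw [e])
    have e1 : η (i - 1) = η 1 := hi (i - 1) (by omega) (by omega)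
    rw [e1]
    rcases eq_or_ne i ((k : ℤ) + 1) with e | e
    · rw [e, hb]
      exact pd_z4 _
    · rw [hi i (by omega) (by omega)]
      exact pd_z1 _
  | true =>
    have hn : nb (i, true) = i + 1 := by simp [nb]
    rw [hn]
    change η i ≠ η (i + 1) - 1
    rcases eq_or_ne i ((k : ℤ) + 1) with e | e
    · have h3 := h2 (by rw [e])
      rw [e]
      intro h4
      apply h3
      have e2 : (k : ℤ) + 1 + 1 = k + 2 := by ring
      rw [e2] at h4
      rw [h4]
      ring
    · rcases eq_or_ne i 0 with e0 | e0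
      · rw [e0, zero_add, ha]
        exact pd_z2 _
      · have e1 : η i = η 1 := hi i (by omega) (by omega)
        rw [e1]
        rcases eq_or_ne i (k : ℤ) with e2 | e2
        · rw [e2, hb]
          exact pd_z3 _
        · rw [hi (i + 1) (by omega) (by omega)]
          exact pd_z1 _

private theorem pd_0 (k : ℕ) (hk : 1 ≤ k) (η : ℤ → ZMod 4) :
    ind (RS (k + 1) (sh (-1) η)) - ind (RS k η ∧ η (-1) = η 0 + 1) ≤
      ind (RS k (act (cyc 4) (0, false) η)) - ind (RS k η) := by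
  have hn : nb ((0 : ℤ), false) = -1 := by simp [nb]
  have hiff : RS (k + 1) (sh (-1) η) → η (-1) = η 0 + 1 ∧ (∀ i : ℤ, 0 ≤ i → i ≤ k → η i = η 0) ∧
      η (k + 1) = η k + 2 := by
    rintro ⟨⟨h1, h2⟩, h3⟩
    have a0 : (0 : ℤ) + -1 = -1 := by norm_num
    have a1 : (1 : ℤ) + -1 = 0 := by norm_num
    refine ⟨?_, ?_, ?_⟩
    · have : η (0 + -1) = η (1 + -1) + 1 := h1
      rwa [a0, a1] at this
    · intro i hi0 hik
      have : η (i + 1 + -1) = η (1 + -1) := h2 (i + 1) (by omega) (by push_cast; omega)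
      rw [a1] at this
      have a2 : i + 1 + -1 = i := by ring
      rwa [a2] at this
    · have : η (((k + 1 : ℕ) : ℤ) + 1 + -1) = η (((k + 1 : ℕ) : ℤ) + -1) + 2 := h3
      have a2 : ((k + 1 : ℕ) : ℤ) + 1 + -1 = k + 1 := by push_cast; ring
      have a3 : ((k + 1 : ℕ) : ℤ) + -1 = k := by push_cast; ring
      rwa [a2, a3] at this
  by_cases h : RS k η
  · have h1 : ¬ RS (k + 1) (sh (-1) η) := by
      intro h2
      have h3 := (hiff h2).2.1 1 (by norm_num) (by exact_mod_cast hk)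
      have h4 := h.1.1
      rw [h3] at h4
      exact pd_z5 _ h4.symm
    rw [ind_false h1, ind_true h]
    by_cases h2 : η (-1) = η 0 + 1
    · rw [ind_true (⟨h, h2⟩ : RS k η ∧ η (-1) = η 0 + 1)]
      have := ind_nonneg (RS k (act (cyc 4) (0, false) η))
      linarith
    · have h3 : act (cyc 4) (0, false) η = η := by
        apply pd_act_eq
        rw [hn]
        intro h4
        apply h2
        change η 0 = η (-1) - 1 at h4
        rw [h4]
        ring
      rw [h3, ind_true h, ind_false (fun h4 : RS k η ∧ η (-1) = η 0 + 1 => h2 h4.2)]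
      norm_num
  · rw [ind_false h, ind_false (fun h4 : RS k η ∧ η (-1) = η 0 + 1 => h h4.1), sub_zero, sub_zero]
    apply ind_mono
    intro h1
    obtain ⟨h2, h3, h4⟩ := hiff h1
    have e0 : act (cyc 4) (0, false) η 0 = η (-1) := by
      have := act_same (u := cyc 4) ((0 : ℤ), false) η
      rw [hn] at this
      refine this.trans ?_
      unfold cyc
      exact if_pos (by rw [h2]; ring)
    have ei : ∀ i : ℤ, i ≠ 0 → act (cyc 4) (0, false) η i = η i := fun i hi =>
      act_of_ne hi η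
    have hk1 : (1 : ℤ) ≤ k := by exact_mod_cast hk
    refine ⟨⟨?_, ?_⟩, ?_⟩
    · rw [e0, ei 1 (by norm_num), h3 1 (by norm_num) hk1, h2]
    · intro i hi1 hik
      rw [ei i (by omega), ei 1 (by norm_num), h3 i (by omega) hik, h3 1 (by norm_num) hk1]
    · rw [ei _ (by omega), ei _ (by omega), h4]

/-- Losses of `RS k`: `(1, false)`, `(0, false)` if `η (-1) = η 0 + 1`, `(k + 1, true)` if
`η (k + 2) = η (k + 1) + 1`.  Gain: `(0, false)` from `RS (k + 1) (sh (-1) η)`. -/
theorem gen_RS (k : ℕ) (hk : 1 ≤ k) (η : ℤ → ZMod 4) :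
    ind (RS (k + 1) (sh (-1) η)) - ind (RS k η) - ind (RS k η ∧ η (-1) = η 0 + 1)
      - ind (RS k η ∧ η (k + 2) = η (k + 1) + 1) ≤
    gen (cyc 4) (clk (Icc 0 ((k : ℤ) + 1))) (fun η => ind (RS k η)) η := by
  set A : ℝ := ind (RS (k + 1) (sh (-1) η)) - ind (RS k η ∧ η (-1) = η 0 + 1) with hA
  set B : ℝ := - ind (RS k η) with hB
  set C : ℝ := - ind (RS k η ∧ η (k + 2) = η (k + 1) + 1) with hC
  have hm0 : ((0 : ℤ), false) ∈ clk (Icc 0 ((k : ℤ) + 1)) := by
    rw [mem_clk, mem_Icc]; constructor <;> simp <;> omega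
  have hm1 : ((1 : ℤ), false) ∈ clk (Icc 0 ((k : ℤ) + 1)) := by
    rw [mem_clk, mem_Icc]; constructor <;> simp
  have hm2 : ((k : ℤ) + 1, true) ∈ clk (Icc 0 ((k : ℤ) + 1)) := by
    rw [mem_clk, mem_Icc]; constructor <;> simp <;> omega
  have hsum : ∑ c ∈ clk (Icc 0 ((k : ℤ) + 1)), ((if c = (0, false) then A else 0) +
      (if c = (1, false) then B else 0) + (if c = ((k : ℤ) + 1, true) then C else 0)) =
      A + B + C := by
    rw [sum_add_distrib, sum_add_distrib, sum_ite_eq', sum_ite_eq', sum_ite_eq', if_pos hm0,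
      if_pos hm1, if_pos hm2]
  have hlow : ind (RS (k + 1) (sh (-1) η)) - ind (RS k η) - ind (RS k η ∧ η (-1) = η 0 + 1)
      - ind (RS k η ∧ η (k + 2) = η (k + 1) + 1) = A + B + C := by
    rw [hA, hB, hC]; ring
  rw [hlow, ← hsum]
  unfold gen
  refine sum_le_sum fun c hc => ?_
  rw [mem_clk, mem_Icc] at hc
  by_cases h0 : c = (0, false)
  · have h1 : c ≠ (1, false) := by rw [h0]; simp
    have h2 : c ≠ ((k : ℤ) + 1, true) := by rw [h0]; simp
    rw [if_pos h0, if_neg h1, if_neg h2, add_zero, add_zero, h0]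
    exact pd_0 k hk η
  · rw [if_neg h0, zero_add]
    by_cases h1 : c = (1, false)
    · have h2 : c ≠ ((k : ℤ) + 1, true) := by rw [h1]; simp
      rw [if_pos h1, if_neg h2, add_zero, hB]
      have := ind_nonneg (RS k (act (cyc 4) c η))
      change - ind (RS k η) ≤ ind (RS k (act (cyc 4) c η)) - ind (RS k η)
      linarith
    · rw [if_neg h1, zero_add]
      by_cases h3 : c = ((k : ℤ) + 1, true) ∧ RS k η ∧ η (k + 2) = η (k + 1) + 1
      · rw [if_pos h3.1, hC, ind_true h3.2]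
        change -1 ≤ ind (RS k (act (cyc 4) c η)) - ind (RS k η)
        have e1 := ind_nonneg (RS k (act (cyc 4) c η))
        have e2 := ind_le_one (RS k η)
        linarith
      · have h4 : (if c = ((k : ℤ) + 1, true) then C else 0) ≤ 0 := by
          split_ifs
          · rw [hC]
            exact neg_nonpos.2 (ind_nonneg _)
          · exact le_refl _
        refine h4.trans ?_
        apply pd_nonneg
        intro h5
        have h6 := pd_noeff k hk η h5 c hc h0 h1 (fun e1 e2 => h3 ⟨e1, h5, e2⟩)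
        rw [pd_act_eq c η h6]
        exact h5

private theorem pd_sum_clk01 (F : ℤ × Bool → ℝ) :
    ∑ c ∈ clk (Icc (0 : ℤ) 1), F c =
      F (0, true) + F (0, false) + (F (1, true) + F (1, false)) := by
  have h : Icc (0 : ℤ) 1 = {0, 1} := by decide
  rw [clk, h, Finset.sum_product, Finset.sum_pair (by norm_num)]
  simp

private theorem pd_ind_cast (p : Prop) [Decidable p] :
    ind p = ((if p then 1 else 0 : ℤ) : ℝ) := by
  unfold ind
  by_cases h : p <;> simp [h]

private theorem pd_key : ∀ a b c d : ZMod 4,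
    ((if (cyc 4 c b = c + 1 ∨ c = cyc 4 c b + 1) then 1 else 0 : ℤ) -
        (if (b = c + 1 ∨ c = b + 1) then 1 else 0 : ℤ)) +
      ((if (cyc 4 a b = c + 1 ∨ c = cyc 4 a b + 1) then 1 else 0 : ℤ) -
        (if (b = c + 1 ∨ c = b + 1) then 1 else 0 : ℤ)) +
      (((if (b = cyc 4 d c + 1 ∨ cyc 4 d c = b + 1) then 1 else 0 : ℤ) -
        (if (b = c + 1 ∨ c = b + 1) then 1 else 0 : ℤ)) +
      ((if (b = cyc 4 b c + 1 ∨ cyc 4 b c = b + 1) then 1 else 0 : ℤ) -
        (if (b = c + 1 ∨ c = b + 1) then 1 else 0 : ℤ))) =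
      - (if (b = c + 1 ∨ c = b + 1) then 1 else 0 : ℤ) + (if a = b + 1 then 1 else 0 : ℤ) +
        (if d = c + 1 then 1 else 0 : ℤ) -
        2 * (if a = b + 1 ∧ (b = c + 1 ∨ c = b + 1) then 1 else 0 : ℤ) -
        2 * (if d = c + 1 ∧ (b = c + 1 ∨ c = b + 1) then 1 else 0 : ℤ) := by
  decide +kernel

/-- The four clocks of the sites `0, 1`, reduce to `ZMod 4` (colours of `-1, 0, 1, 2`) and
`decide`: compare `LibCPS84.NbA.gen_EM`. -/
theorem gen_EMv (η : ℤ → ZMod 4) :
    gen (cyc 4) (clk (Icc 0 1)) (fun η => ind (EMv η)) η =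
      - ind (EMv η) + ind (η (-1) = η 0 + 1) + ind (η 2 = η 1 + 1)
      - 2 * ind (η (-1) = η 0 + 1 ∧ EMv η) - 2 * ind (η 2 = η 1 + 1 ∧ EMv η) := by
  have e1 : act (cyc 4) (0, true) η 0 = cyc 4 (η 1) (η 0) := act_same (0, true) η
  have e2 : act (cyc 4) (0, true) η 1 = η 1 := act_of_ne (by norm_num) η
  have e3 : act (cyc 4) (0, false) η 0 = cyc 4 (η (-1)) (η 0) := act_same (0, false) η
  have e4 : act (cyc 4) (0, false) η 1 = η 1 := act_of_ne (by norm_num) η
  have e5 : act (cyc 4) (1, true) η 1 = cyc 4 (η 2) (η 1) := act_same (1, true) η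
  have e6 : act (cyc 4) (1, true) η 0 = η 0 := act_of_ne (by norm_num) η
  have e7 : act (cyc 4) (1, false) η 1 = cyc 4 (η 0) (η 1) := act_same (1, false) η
  have e8 : act (cyc 4) (1, false) η 0 = η 0 := act_of_ne (by norm_num) η
  unfold gen
  rw [pd_sum_clk01]
  simp only [EMv, e1, e2, e3, e4, e5, e6, e7, e8]
  have key := pd_key (η (-1)) (η 0) (η 1) (η 2)
  simp only [pd_ind_cast]
  exact_mod_cast key

end CPS92
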