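import Pool.Agent.LibCPS84.MvA

/-! # Four colours: the density of the moving walls.  Patterns.

`EN k η` (from `LibCPS84.CycDefs`): the wall at the edge `(0, 1)` moves to the right
(`η 0 = η 1 + 1`) and the sites `1, ..., k` have the same colour.  `RR`, `RL`, `RS`: the next wall
to the right is at the edge `(k, k + 1)` and moves to the right, moves to the left, is a blocker. -/

namespace CPS92

open CPS84 Finset
open scoped Classical

def RR (k : ℕ) (η : ℤ → ZMod 4) : Prop := EN k η ∧ η (k + 1) = η k - 1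

def RL (k : ℕ) (η : ℤ → ZMod 4) : Prop := EN k η ∧ η (k + 1) = η k + 1

def RS (k : ℕ) (η : ℤ → ZMod 4) : Prop := EN k η ∧ η (k + 1) = η k + 2

/-- moving wall at the edge `(0, 1)` -/
def EMv (η : ℤ → ZMod 4) : Prop := η 0 = η 1 + 1 ∨ η 1 = η 0 + 1

theorem ind_nonneg (p : Prop) : 0 ≤ ind p := by
  unfold ind
  split_ifs <;> norm_num

theorem ind_le_one (p : Prop) : ind p ≤ 1 := by
  unfold ind
  split_ifs <;> norm_num

theorem ind_mono {p q : Prop} (h : p → q) : ind p ≤ ind q := by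
  unfold ind
  by_cases hp : p
  · rw [if_pos hp, if_pos (h hp)]
  · rw [if_neg hp]
    split_ifs <;> norm_num

theorem ind_true {p : Prop} (h : p) : ind p = 1 := by
  unfold ind
  rw [if_pos h]

theorem ind_false {p : Prop} (h : ¬ p) : ind p = 0 := by
  unfold ind
  rw [if_neg h]

/-- every pattern built from `EN k` and the colours of `-1, ..., k + 2` is local -/
theorem dep_pat (k : ℕ) (P : (ℤ → ZMod 4) → Prop)
    (h : ∀ η ζ : ℤ → ZMod 4, (∀ i ∈ Icc (-1 : ℤ) (k + 2), η i = ζ i) → (P η ↔ P ζ)) :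
    Dep (fun η : ℤ → ZMod 4 => ind (P η)) (Icc (-1 : ℤ) (k + 2)) := by
  intro η ζ hi
  show ind (P η) = ind (P ζ)
  rw [propext (h η ζ hi)]

private theorem dp_aux (k : ℕ) (c : ZMod 4) {η ζ : ℤ → ZMod 4}
    (h : ∀ i ∈ Icc (0 : ℤ) ((k : ℤ) + 1), η i = ζ i) :
    (EN k η ∧ η (k + 1) = η k + c) → (EN k ζ ∧ ζ (k + 1) = ζ k + c) := by
  have h0 : η 0 = ζ 0 := h 0 (mem_Icc.mpr ⟨le_rfl, by omega⟩)
  have h1 : η 1 = ζ 1 := h 1 (mem_Icc.mpr ⟨by norm_num, by omega⟩)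
  have h2 : η k = ζ k := h k (mem_Icc.mpr ⟨by omega, by omega⟩)
  have h3 : η (k + 1) = ζ (k + 1) := h (k + 1) (mem_Icc.mpr ⟨by omega, le_rfl⟩)
  rintro ⟨⟨a, b⟩, c⟩
  refine ⟨⟨by rw [← h0, ← h1]; exact a, fun i hi1 hi2 => ?_⟩, by rw [← h2, ← h3]; exact c⟩
  rw [← h i (mem_Icc.mpr ⟨by omega, by omega⟩), ← h1]
  exact b i hi1 hi2

private theorem dp_aux2 (k : ℕ) (c : ZMod 4) :
    Dep (fun η : ℤ → ZMod 4 => ind (EN k η ∧ η (k + 1) = η k + c)) (Icc 0 ((k : ℤ) + 1)) := by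
  intro η ζ h
  show ind (EN k η ∧ η (k + 1) = η k + c) = ind (EN k ζ ∧ ζ (k + 1) = ζ k + c)
  rw [propext ⟨dp_aux k c h, dp_aux k c fun i hi => (h i hi).symm⟩]

theorem dep_RR (k : ℕ) : Dep (fun η : ℤ → ZMod 4 => ind (RR k η)) (Icc 0 ((k : ℤ) + 1)) := by
  have h := dp_aux2 k (-1)
  simp only [← sub_eq_add_neg] at h
  exact h

theorem dep_RL (k : ℕ) : Dep (fun η : ℤ → ZMod 4 => ind (RL k η)) (Icc 0 ((k : ℤ) + 1)) :=
  dp_aux2 k 1

theorem dep_RS (k : ℕ) : Dep (fun η : ℤ → ZMod 4 => ind (RS k η)) (Icc 0 ((k : ℤ) + 1)) :=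
  dp_aux2 k 2

theorem dep_EMv : Dep (fun η : ℤ → ZMod 4 => ind (EMv η)) (Icc 0 1) := by
  intro η ζ h
  have h0 : η 0 = ζ 0 := h 0 (mem_Icc.mpr ⟨le_rfl, by norm_num⟩)
  have h1 : η 1 = ζ 1 := h 1 (mem_Icc.mpr ⟨by norm_num, by norm_num⟩)
  show ind (EMv η) = ind (EMv ζ)
  unfold EMv
  rw [h0, h1]

private theorem z4 (a b : ZMod 4) : (b = a ∧ b ≠ a - 1 ∧ b ≠ a + 1 ∧ b ≠ a + 2) ∨
    (b ≠ a ∧ b = a - 1 ∧ b ≠ a + 1 ∧ b ≠ a + 2) ∨ (b ≠ a ∧ b ≠ a - 1 ∧ b = a + 1 ∧ b ≠ a + 2) ∨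
    (b ≠ a ∧ b ≠ a - 1 ∧ b ≠ a + 1 ∧ b = a + 2) := by
  revert a b
  decide

/-- the next wall -/
theorem EN_split (k : ℕ) (hk : 1 ≤ k) (η : ℤ → ZMod 4) :
    ind (EN k η) = ind (EN (k + 1) η) + ind (RR k η) + ind (RL k η) + ind (RS k η) := by
  by_cases h : EN k η
  · have hkk : η k = η 1 := h.2 k (by omega) le_rfl
    have e : EN (k + 1) η ↔ η (k + 1) = η k := by
      constructor
      · intro h'
        rw [hkk]
        exact h'.2 (k + 1) (by omega) (by push_cast; exact le_rfl)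
      · intro h'
        refine ⟨h.1, fun i hi1 hi2 => ?_⟩
        push_cast at hi2
        rcases lt_or_eq_of_le hi2 with h3 | h3
        · exact h.2 i hi1 (by omega)
        · rw [h3, h', hkk]
    rw [ind_true h]
    rcases z4 (η k) (η (k + 1)) with ⟨a, b, c, d⟩ | ⟨a, b, c, d⟩ | ⟨a, b, c, d⟩ | ⟨a, b, c, d⟩
    · rw [ind_true (e.mpr a), ind_false (fun h' : RR k η => b h'.2),
        ind_false (fun h' : RL k η => c h'.2), ind_false (fun h' : RS k η => d h'.2)]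
      norm_num
    · rw [ind_false (fun h' => a (e.mp h')), ind_true (show RR k η from ⟨h, b⟩),
        ind_false (fun h' : RL k η => c h'.2), ind_false (fun h' : RS k η => d h'.2)]
      norm_num
    · rw [ind_false (fun h' => a (e.mp h')), ind_false (fun h' : RR k η => b h'.2),
        ind_true (show RL k η from ⟨h, c⟩), ind_false (fun h' : RS k η => d h'.2)]
      norm_num
    · rw [ind_false (fun h' => a (e.mp h')), ind_false (fun h' : RR k η => b h'.2),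
        ind_false (fun h' : RL k η => c h'.2), ind_true (show RS k η from ⟨h, d⟩)]
      norm_num
  · have h2 : ¬ EN (k + 1) η := by
      intro h'
      refine h ⟨h'.1, fun i hi1 hi2 => h'.2 i hi1 (by push_cast; omega)⟩
    rw [ind_false h, ind_false h2, ind_false (fun h' : RR k η => h h'.1),
      ind_false (fun h' : RL k η => h h'.1), ind_false (fun h' : RS k η => h h'.1)]
    norm_num

end CPS92
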