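import Pool.Agent.LibCPS92.PB
import Pool.Agent.LibCPS92.PC
import Pool.Agent.LibCPS92.PD

/-! Expectations for invariant functionals. -/

namespace CPS92

open CPS84 Finset
open scoped Classical

variable {E : ((ℤ → ZMod 4) → ℝ) → ℝ}

private theorem PE_iff {p q : Prop} (h : ind p = ind q) : p ↔ q := by
  unfold ind at h
  by_cases hp : p
  · by_cases hq : q
    · exact ⟨fun _ => hq, fun _ => hp⟩
    · rw [if_pos hp, if_neg hq] at h
      norm_num at h
  · by_cases hq : q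
    · rw [if_neg hp, if_pos hq] at h
      norm_num at h
    · exact ⟨fun h => absurd h hp, fun h => absurd h hq⟩

private theorem PE_fat (k : ℕ) : fat (Icc (0 : ℤ) ((k : ℤ) + 1)) ⊆ Icc (-1) ((k : ℤ) + 2) := by
  intro i hi
  simp only [fat, Finset.mem_union, Finset.mem_image, clk, Finset.mem_product, Finset.mem_univ,
    and_true, Finset.mem_Icc] at hi ⊢
  rcases hi with h | ⟨c, h, rfl⟩
  · omega
  · unfold nb
    split_ifs <;> omega

private theorem PE_and {P Q : (ℤ → ZMod 4) → Prop} {Λ Λ' Λ'' : Finset ℤ}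
    (hP : Dep (fun η => ind (P η)) Λ) (hQ : Dep (fun η => ind (Q η)) Λ') (h : Λ ⊆ Λ'')
    (h' : Λ' ⊆ Λ'') : Dep (fun η => ind (P η ∧ Q η)) Λ'' :=
  dep_ind _ fun η ζ hh => and_congr (PE_iff (hP η ζ fun i hi => hh i (h hi)))
    (PE_iff (hQ η ζ fun i hi => hh i (h' hi)))

private theorem PE_pt (a b : ℤ) (c : ZMod 4) :
    Dep (fun η : ℤ → ZMod 4 => ind (η a = η b + c)) {a, b} :=
  dep_ind _ fun η ζ h => by rw [h a (by simp), h b (by simp)]

private theorem PE_pt' (a b : ℤ) (c : ZMod 4) :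
    Dep (fun η : ℤ → ZMod 4 => ind (η a = η b - c)) {a, b} :=
  dep_ind _ fun η ζ h => by rw [h a (by simp), h b (by simp)]

private theorem PE_sub {a b c d : ℤ} (h1 : c ≤ a) (h2 : a ≤ d) (h3 : c ≤ b) (h4 : b ≤ d) :
    ({a, b} : Finset ℤ) ⊆ Icc c d := by
  intro i hi
  rw [mem_insert, mem_singleton] at hi
  rw [mem_Icc]
  rcases hi with rfl | rfl <;> constructor <;> assumption

private theorem PE_icc {a b c d : ℤ} (h1 : c ≤ a) (h2 : b ≤ d) : Icc a b ⊆ Icc c d :=
  Finset.Icc_subset_Icc h1 h2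

private theorem PE_shsub (k : ℕ) : (Icc (0 : ℤ) ((k : ℤ) + 1 + 1)).image (fun i => i + -1) ⊆
    Icc (-1) ((k : ℤ) + 2) := by
  intro i hi
  rw [mem_image] at hi
  obtain ⟨a, ha, rfl⟩ := hi
  rw [mem_Icc] at ha ⊢
  omega

/-- `gen_RR`, shift invariance -/
theorem exp_gen_RR (hE : Inv E) (k : ℕ) (hk : 1 ≤ k) :
    E (fun η => ind (RR (k + 1) η)) +
      (if 2 ≤ k then E (fun η => ind (RR (k - 1) η))
        - E (fun η => ind (RR (k - 1) η ∧ η (k + 1) = η k - 1))
        - E (fun η => ind (RR (k - 1) η ∧ η (k + 1) = η k + 1))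
        - E (fun η => ind (RR (k - 1) η ∧ η (k + 1) = η k + 2)) else 0)
      - 2 * E (fun η => ind (RR k η)) - E (fun η => ind (RR k η ∧ η (-1) = η 0 + 1))
      - E (fun η => ind (RR k η ∧ η (k + 2) = η (k + 1) + 1)) ≤
    E (gen (cyc 4) (clk (Icc 0 ((k : ℤ) + 1))) (fun η => ind (RR k η))) := by
  have hgd : Dep (gen (cyc 4) (clk (Icc 0 ((k : ℤ) + 1))) (fun η => ind (RR k η)))
      (Icc (-1) ((k : ℤ) + 2)) := (dep_gen (dep_RR k)).mono (PE_fat k)
  have da : Dep (fun η : ℤ → ZMod 4 => ind (RR (k + 1) (sh (-1) η))) (Icc (-1) ((k : ℤ) + 2)) := by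
    refine (dep_sh (dep_RR (k + 1)) (-1)).mono ?_
    have := PE_shsub k
    push_cast
    exact this
  have ea : E (fun η => ind (RR (k + 1) (sh (-1) η))) = E (fun η => ind (RR (k + 1) η)) :=
    hE.shift (-1) (dep_RR (k + 1))
  have df : Dep (fun η : ℤ → ZMod 4 => ind (RR k η)) (Icc (-1) ((k : ℤ) + 2)) :=
    (dep_RR k).mono (PE_icc (by omega) (by omega))
  have dg : Dep (fun η : ℤ → ZMod 4 => ind (RR k η ∧ η (-1) = η 0 + 1))
      (Icc (-1) ((k : ℤ) + 2)) :=
    PE_and (dep_RR k) (PE_pt _ _ _) (PE_icc (by omega) (by omega))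
      (PE_sub (by omega) (by omega) (by omega) (by omega))
  have dh : Dep (fun η : ℤ → ZMod 4 => ind (RR k η ∧ η (k + 2) = η (k + 1) + 1))
      (Icc (-1) ((k : ℤ) + 2)) :=
    PE_and (dep_RR k) (PE_pt _ _ _) (PE_icc (by omega) (by omega))
      (PE_sub (by omega) (by omega) (by omega) (by omega))
  by_cases h2 : 2 ≤ k
  · rw [if_pos h2]
    have hcast : (((k - 1 : ℕ) : ℕ) : ℤ) = (k : ℤ) - 1 := by
      rw [Nat.cast_sub hk]
      norm_num
    have hsub : Icc (0 : ℤ) (((k - 1 : ℕ) : ℤ) + 1) ⊆ Icc (-1) ((k : ℤ) + 2) := by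
      rw [hcast]
      exact PE_icc (by omega) (by omega)
    have db : Dep (fun η : ℤ → ZMod 4 => ind (RR (k - 1) η)) (Icc (-1) ((k : ℤ) + 2)) :=
      (dep_RR (k - 1)).mono hsub
    have dc : Dep (fun η : ℤ → ZMod 4 => ind (RR (k - 1) η ∧ η (k + 1) = η k - 1))
        (Icc (-1) ((k : ℤ) + 2)) :=
      PE_and (dep_RR (k - 1)) (PE_pt' _ _ _) hsub
        (PE_sub (by omega) (by omega) (by omega) (by omega))
    have dd : Dep (fun η : ℤ → ZMod 4 => ind (RR (k - 1) η ∧ η (k + 1) = η k + 1))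
        (Icc (-1) ((k : ℤ) + 2)) :=
      PE_and (dep_RR (k - 1)) (PE_pt _ _ _) hsub
        (PE_sub (by omega) (by omega) (by omega) (by omega))
    have de : Dep (fun η : ℤ → ZMod 4 => ind (RR (k - 1) η ∧ η (k + 1) = η k + 2))
        (Icc (-1) ((k : ℤ) + 2)) :=
      PE_and (dep_RR (k - 1)) (PE_pt _ _ _) hsub
        (PE_sub (by omega) (by omega) (by omega) (by omega))
    have d1 := db.sub dc
    have d2 := d1.sub dd
    have d3 := d2.sub de
    have d4 := da.add d3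
    have d5 := d4.sub (df.const_mul 2)
    have d6 := d5.sub dg
    have d7 := d6.sub dh
    have hle := hE.exp.mono _ _ _ d7 hgd (fun η => by
      have := gen_RR k hk η
      rw [if_pos h2] at this
      exact this)
    rw [hE.exp.sub d6 dh, hE.exp.sub d5 dg, hE.exp.sub d4 (df.const_mul 2),
      hE.exp.add _ _ _ da d3, hE.exp.sub d2 de, hE.exp.sub d1 dd, hE.exp.sub db dc,
      hE.exp.smul _ _ _ df, ea] at hle
    exact hle
  · rw [if_neg h2]
    have d5 := da.sub (df.const_mul 2)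
    have d6 := d5.sub dg
    have d7 := d6.sub dh
    have hle := hE.exp.mono _ _ _ d7 hgd (fun η => by
      have := gen_RR k hk η
      rw [if_neg h2, add_zero] at this
      exact this)
    rw [hE.exp.sub d6 dh, hE.exp.sub d5 dg, hE.exp.sub da (df.const_mul 2),
      hE.exp.smul _ _ _ df, ea] at hle
    linarith

private theorem PE_SLL (k : ℕ) (hk : 2 ≤ k) (η : ℤ → ZMod 4) :
    SLL k (sym id (-1) ((k : ℤ) + 1) η) ↔ RR (k - 1) η ∧ η (k + 1) = η k + 2 := by
  have hcast : (((k - 1 : ℕ) : ℕ) : ℤ) = (k : ℤ) - 1 := by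
    rw [Nat.cast_sub (by omega)]
    norm_num
  unfold SLL RR EN sym
  simp only [id, hcast]
  have e0 : (-1 : ℤ) * 0 + ((k : ℤ) + 1) = k + 1 := by ring
  have e1 : (-1 : ℤ) * 1 + ((k : ℤ) + 1) = k := by ring
  have e2 : (-1 : ℤ) * 2 + ((k : ℤ) + 1) = k - 1 := by ring
  have e3 : (-1 : ℤ) * (k + 1) + ((k : ℤ) + 1) = 0 := by ring
  have e4 : (-1 : ℤ) * k + ((k : ℤ) + 1) = 1 := by ring
  have e5 : (k : ℤ) - 1 + 1 = k := by ring
  rw [e0, e1, e2, e3, e4, e5]
  constructor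
  · rintro ⟨h1, h2, h3, h4⟩
    have h5 : ∀ j : ℤ, 1 ≤ j → j ≤ (k : ℤ) - 1 → η j = η (k - 1) := by
      intro j hj1 hj2
      have := h3 (k + 1 - j) (by omega) (by omega)
      rw [show (-1 : ℤ) * (k + 1 - j) + ((k : ℤ) + 1) = j by ring] at this
      exact this
    refine ⟨⟨⟨h4, fun i hi1 hi2 => ?_⟩, ?_⟩, h1⟩
    · rw [h5 i hi1 hi2, h5 1 le_rfl (by omega)]
    · rw [h2]
      ring
  · rintro ⟨⟨⟨h4, h3⟩, h2⟩, h1⟩
    refine ⟨h1, ?_, fun i hi1 hi2 => ?_, h4⟩
    · rw [h2]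
      ring
    · rw [h3 _ (by omega) (by omega), h3 ((k : ℤ) - 1) (by omega) le_rfl]

/-- `gen_RL`, shift invariance, and the reflection `i ↦ k + 1 - i` (`Inv.inv (-1) (k + 1)`) for
`SLL k` -/
theorem exp_gen_RL (hE : Inv E) (k : ℕ) (hk : 1 ≤ k) :
    2 * E (fun η => ind (RL (k + 1) η)) - 2 * E (fun η => ind (RL k η)) +
      (if 2 ≤ k then 2 * E (fun η => ind (RR (k - 1) η ∧ η (k + 1) = η k + 2)) else 0)
      - E (fun η => ind (RL k η ∧ η (-1) = η 0 + 1))
      - E (fun η => ind (RL k η ∧ η (k + 2) = η (k + 1) + 1)) ≤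
    E (gen (cyc 4) (clk (Icc 0 ((k : ℤ) + 1))) (fun η => ind (RL k η))) := by
  have hgd : Dep (gen (cyc 4) (clk (Icc 0 ((k : ℤ) + 1))) (fun η => ind (RL k η)))
      (Icc (-1) ((k : ℤ) + 2)) := (dep_gen (dep_RL k)).mono (PE_fat k)
  have da : Dep (fun η : ℤ → ZMod 4 => ind (RL (k + 1) (sh (-1) η))) (Icc (-1) ((k : ℤ) + 2)) := by
    refine (dep_sh (dep_RL (k + 1)) (-1)).mono ?_
    have := PE_shsub k
    push_cast
    exact this
  have ea : E (fun η => ind (RL (k + 1) (sh (-1) η))) = E (fun η => ind (RL (k + 1) η)) :=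
    hE.shift (-1) (dep_RL (k + 1))
  have da' : Dep (fun η : ℤ → ZMod 4 => ind (RL (k + 1) η)) (Icc (-1) ((k : ℤ) + 2)) := by
    refine (dep_RL (k + 1)).mono (PE_icc (by omega) ?_)
    push_cast
    omega
  have df : Dep (fun η : ℤ → ZMod 4 => ind (RL k η)) (Icc (-1) ((k : ℤ) + 2)) :=
    (dep_RL k).mono (PE_icc (by omega) (by omega))
  have dg : Dep (fun η : ℤ → ZMod 4 => ind (RL k η ∧ η (-1) = η 0 + 1))
      (Icc (-1) ((k : ℤ) + 2)) :=
    PE_and (dep_RL k) (PE_pt _ _ _) (PE_icc (by omega) (by omega))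
      (PE_sub (by omega) (by omega) (by omega) (by omega))
  have dh : Dep (fun η : ℤ → ZMod 4 => ind (RL k η ∧ η (k + 2) = η (k + 1) + 1))
      (Icc (-1) ((k : ℤ) + 2)) :=
    PE_and (dep_RL k) (PE_pt _ _ _) (PE_icc (by omega) (by omega))
      (PE_sub (by omega) (by omega) (by omega) (by omega))
  by_cases h2 : 2 ≤ k
  · rw [if_pos h2]
    have hcast : (((k - 1 : ℕ) : ℕ) : ℤ) = (k : ℤ) - 1 := by
      rw [Nat.cast_sub hk]
      norm_num
    have hsub : Icc (0 : ℤ) (((k - 1 : ℕ) : ℤ) + 1) ⊆ Icc 0 ((k : ℤ) + 1) := by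
      rw [hcast]
      exact PE_icc (by omega) (by omega)
    have db0 : Dep (fun η : ℤ → ZMod 4 => ind (RR (k - 1) η ∧ η (k + 1) = η k + 2))
        (Icc 0 ((k : ℤ) + 1)) :=
      PE_and (dep_RR (k - 1)) (PE_pt _ _ _) hsub
        (PE_sub (by omega) (by omega) (by omega) (by omega))
    have db := db0.mono (PE_icc (c := -1) (d := (k : ℤ) + 2) (by omega) (by omega))
    have dS0 : Dep (fun η : ℤ → ZMod 4 => ind (SLL k η)) (Icc 0 ((k : ℤ) + 1)) := by
      refine dep_ind _ fun η ζ h => ?_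
      have h' : ∀ i : ℤ, 0 ≤ i → i ≤ (k : ℤ) + 1 → η i = ζ i := fun i h1 h2 =>
        h i (mem_Icc.2 ⟨h1, h2⟩)
      unfold SLL
      rw [h' 0 (by omega) (by omega), h' 1 (by omega) (by omega), h' 2 (by omega) (by omega),
        h' (k + 1) (by omega) (by omega), h' k (by omega) (by omega)]
      refine and_congr Iff.rfl (and_congr Iff.rfl (and_congr ?_ Iff.rfl))
      refine forall_congr' fun i => forall_congr' fun hi1 => forall_congr' fun hi2 => ?_
      rw [h' i (by omega) (by omega)]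
    have dS := dS0.mono (PE_icc (c := -1) (d := (k : ℤ) + 2) (by omega) (by omega))
    have eS : E (fun η => ind (SLL k η)) =
        E (fun η => ind (RR (k - 1) η ∧ η (k + 1) = η k + 2)) := by
      rw [← hE.inv (-1) ((k : ℤ) + 1) (Or.inr rfl) _ _ dS0]
      congr 1
      funext η
      rw [propext (PE_SLL k h2 η)]
    have d1 := da.add da'
    have d2 := d1.sub (df.const_mul 2)
    have d3 := db.add dS
    have d4 := d2.add d3
    have d6 := d4.sub dg
    have d7 := d6.sub dh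
    have hle := hE.exp.mono _ _ _ d7 hgd (fun η => by
      have := gen_RL k hk η
      rw [if_pos h2] at this
      exact this)
    rw [hE.exp.sub d6 dh, hE.exp.sub d4 dg, hE.exp.add _ _ _ d2 d3,
      hE.exp.sub d1 (df.const_mul 2), hE.exp.add _ _ _ da da', hE.exp.add _ _ _ db dS,
      hE.exp.smul _ _ _ df, ea, eS] at hle
    linarith
  · rw [if_neg h2]
    have d1 := da.add da'
    have d2 := d1.sub (df.const_mul 2)
    have d6 := d2.sub dg
    have d7 := d6.sub dh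
    have hle := hE.exp.mono _ _ _ d7 hgd (fun η => by
      have := gen_RL k hk η
      rw [if_neg h2, add_zero] at this
      exact this)
    rw [hE.exp.sub d6 dh, hE.exp.sub d2 dg, hE.exp.sub d1 (df.const_mul 2),
      hE.exp.add _ _ _ da da', hE.exp.smul _ _ _ df, ea] at hle
    linarith

theorem exp_gen_RS (hE : Inv E) (k : ℕ) (hk : 1 ≤ k) :
    E (fun η => ind (RS (k + 1) η)) - E (fun η => ind (RS k η))
      - E (fun η => ind (RS k η ∧ η (-1) = η 0 + 1))
      - E (fun η => ind (RS k η ∧ η (k + 2) = η (k + 1) + 1)) ≤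
    E (gen (cyc 4) (clk (Icc 0 ((k : ℤ) + 1))) (fun η => ind (RS k η))) := by
  have hgd : Dep (gen (cyc 4) (clk (Icc 0 ((k : ℤ) + 1))) (fun η => ind (RS k η)))
      (Icc (-1) ((k : ℤ) + 2)) := (dep_gen (dep_RS k)).mono (PE_fat k)
  have da : Dep (fun η : ℤ → ZMod 4 => ind (RS (k + 1) (sh (-1) η))) (Icc (-1) ((k : ℤ) + 2)) := by
    refine (dep_sh (dep_RS (k + 1)) (-1)).mono ?_
    have := PE_shsub k
    push_cast
    exact this
  have ea : E (fun η => ind (RS (k + 1) (sh (-1) η))) = E (fun η => ind (RS (k + 1) η)) :=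
    hE.shift (-1) (dep_RS (k + 1))
  have df : Dep (fun η : ℤ → ZMod 4 => ind (RS k η)) (Icc (-1) ((k : ℤ) + 2)) :=
    (dep_RS k).mono (PE_icc (by omega) (by omega))
  have dg : Dep (fun η : ℤ → ZMod 4 => ind (RS k η ∧ η (-1) = η 0 + 1))
      (Icc (-1) ((k : ℤ) + 2)) :=
    PE_and (dep_RS k) (PE_pt _ _ _) (PE_icc (by omega) (by omega))
      (PE_sub (by omega) (by omega) (by omega) (by omega))
  have dh : Dep (fun η : ℤ → ZMod 4 => ind (RS k η ∧ η (k + 2) = η (k + 1) + 1))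
      (Icc (-1) ((k : ℤ) + 2)) :=
    PE_and (dep_RS k) (PE_pt _ _ _) (PE_icc (by omega) (by omega))
      (PE_sub (by omega) (by omega) (by omega) (by omega))
  have d5 := da.sub df
  have d6 := d5.sub dg
  have d7 := d6.sub dh
  have hle := hE.exp.mono _ _ _ d7 hgd (fun η => gen_RS k hk η)
  rw [hE.exp.sub d6 dh, hE.exp.sub d5 dg, hE.exp.sub da df, ea] at hle
  exact hle

private theorem PE_EN1 (η : ℤ → ZMod 4) : EN 1 η ↔ η 0 = η 1 + 1 := by
  unfold EN
  constructor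
  · exact fun h => h.1
  · intro h
    refine ⟨h, fun i h1 h2 => ?_⟩
    have : i = 1 := by
      push_cast at h2
      omega
    rw [this]

private theorem PE_RR1 (η : ℤ → ZMod 4) : RR 1 η ↔ η 0 = η 1 + 1 ∧ η 2 = η 1 - 1 := by
  unfold RR
  rw [PE_EN1]
  norm_num

private theorem PE_RL1 (η : ℤ → ZMod 4) : RL 1 η ↔ η 0 = η 1 + 1 ∧ η 2 = η 1 + 1 := by
  unfold RL
  rw [PE_EN1]
  norm_num

private theorem PE_add {p q r : Prop} (h : p ↔ q ∨ r) (h' : ¬ (q ∧ r)) :
    ind p = ind q + ind r := by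
  unfold ind
  by_cases hq : q
  · have hr : ¬ r := fun hr => h' ⟨hq, hr⟩
    rw [if_pos (h.2 (Or.inl hq)), if_pos hq, if_neg hr, add_zero]
  · by_cases hr : r
    · rw [if_pos (h.2 (Or.inr hr)), if_neg hq, if_pos hr, zero_add]
    · rw [if_neg (fun hp => (h.1 hp).elim hq hr), if_neg hq, if_neg hr, add_zero]

/-- `gen_EMv`: the one-point terms cancel (`E EMv = 2 E (EN 1)`, `CPS84.mov_eq`), the patterns
`η (-1) = η 0 + 1 ∧ EMv η` and `η 2 = η 1 + 1 ∧ EMv η` are (up to shift and reflection) the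
disjoint unions of `RR 1` and `RL 1` -/
theorem exp_gen_EMv (hE : Inv E) :
    E (gen (cyc 4) (clk (Icc 0 1)) (fun η => ind (EMv η))) =
      -4 * (E (fun η => ind (RR 1 η)) + E (fun η => ind (RL 1 η))) := by
  have d0 : Dep (fun η : ℤ → ZMod 4 => ind (EMv η)) (Icc (-1) 2) :=
    dep_EMv.mono (PE_icc (by norm_num) (by norm_num))
  have dC : Dep (fun η : ℤ → ZMod 4 => ind (η (-1) = η 0 + 1)) (Icc (-1) 2) :=
    (PE_pt _ _ _).mono (PE_sub (by norm_num) (by norm_num) (by norm_num) (by norm_num))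
  have dD : Dep (fun η : ℤ → ZMod 4 => ind (η 2 = η 1 + 1)) (Icc (-1) 2) :=
    (PE_pt _ _ _).mono (PE_sub (by norm_num) (by norm_num) (by norm_num) (by norm_num))
  have dF : Dep (fun η : ℤ → ZMod 4 => ind (η (-1) = η 0 + 1 ∧ EMv η)) (Icc (-1) 2) :=
    PE_and dC d0 (Finset.Subset.refl _) (Finset.Subset.refl _)
  have dG : Dep (fun η : ℤ → ZMod 4 => ind (η 2 = η 1 + 1 ∧ EMv η)) (Icc (-1) 2) :=
    PE_and dD d0 (Finset.Subset.refl _) (Finset.Subset.refl _)
  have eM : E (fun η => ind (EMv η)) = 2 * E (fun η => ind (EN 1 η)) :=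
    mov_eq (by norm_num) hE
  have eC : E (fun η => ind (η (-1) = η 0 + 1)) = E (fun η => ind (EN 1 η)) := by
    rw [← hE.shift (-1) (dep_EN (κ := 4) 1 le_rfl)]
    congr 1
    funext η
    rw [propext (PE_EN1 (sh (-1) η))]
    simp [sh]
  have eD : E (fun η => ind (η 2 = η 1 + 1)) = E (fun η => ind (EN 1 η)) := by
    rw [← hE.inv (-1) 2 (Or.inr rfl) _ _ (dep_EN (κ := 4) 1 le_rfl)]
    congr 1
    funext η
    rw [propext (PE_EN1 (sym id (-1) 2 η))]
    simp [sym]
  have dRR : Dep (fun η : ℤ → ZMod 4 => ind (RR 1 η)) (Icc 0 2) := by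
    have := dep_RR 1
    norm_num at this
    exact this
  have dRL : Dep (fun η : ℤ → ZMod 4 => ind (RL 1 η)) (Icc 0 2) := by
    have := dep_RL 1
    norm_num at this
    exact this
  have eF : E (fun η => ind (η (-1) = η 0 + 1 ∧ EMv η)) =
      E (fun η => ind (RR 1 η)) + E (fun η => ind (RL 1 η)) := by
    rw [← hE.exp.add _ _ _ dRR dRL, ← hE.shift (-1) (dRR.add dRL)]
    congr 1
    funext η
    rw [propext (PE_RR1 (sh (-1) η)), propext (PE_RL1 (sh (-1) η))]
    apply PE_add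
    · unfold EMv sh
      norm_num
      generalize η (-1) = a
      generalize η 0 = b
      generalize η 1 = c
      revert a b c
      decide
    · unfold sh
      norm_num
      generalize η (-1) = a
      generalize η 0 = b
      generalize η 1 = c
      revert a b c
      decide
  have eG : E (fun η => ind (η 2 = η 1 + 1 ∧ EMv η)) =
      E (fun η => ind (RR 1 η)) + E (fun η => ind (RL 1 η)) := by
    rw [← hE.exp.add _ _ _ dRR dRL, ← hE.inv (-1) 2 (Or.inr rfl) _ _ (dRR.add dRL)]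
    congr 1
    funext η
    rw [propext (PE_RR1 (sym id (-1) 2 η)), propext (PE_RL1 (sym id (-1) 2 η))]
    apply PE_add
    · unfold EMv sym
      norm_num
      generalize η 2 = a
      generalize η 1 = b
      generalize η 0 = c
      revert a b c
      decide
    · unfold sym
      norm_num
      generalize η 2 = a
      generalize η 1 = b
      generalize η 0 = c
      revert a b c
      decide
  have hgen : gen (cyc 4) (clk (Icc 0 1)) (fun η => ind (EMv η)) = fun η =>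
      ((((-1) * ind (EMv η) + ind (η (-1) = η 0 + 1)) + ind (η 2 = η 1 + 1))
      - 2 * ind (η (-1) = η 0 + 1 ∧ EMv η)) - 2 * ind (η 2 = η 1 + 1 ∧ EMv η) := by
    funext η
    rw [gen_EMv η]
    ring
  have d1 := d0.const_mul (-1)
  have d2 := d1.add dC
  have d3 := d2.add dD
  have d4 := d3.sub (dF.const_mul 2)
  rw [hgen, hE.exp.sub d4 (dG.const_mul 2), hE.exp.sub d3 (dF.const_mul 2),
    hE.exp.add _ _ _ d2 dD, hE.exp.add _ _ _ d1 dC, hE.exp.smul _ _ _ d0, hE.exp.smul _ _ _ dF,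
    hE.exp.smul _ _ _ dG, eM, eC, eD, eF, eG]
  ring

/-- `CPS84.exp_EW`, `EN_split 1`, `EE = RL 1` -/
theorem exp_gen_EW4 (hE : Inv E) :
    E (gen (cyc 4) (clk (Icc 0 1)) (fun η => ind (EW η))) =
      -2 * (E (fun η => ind (RR 1 η)) + E (fun η => ind (RL 1 η)) + E (fun η => ind (RS 1 η)))
        - 2 * E (fun η => ind (RL 1 η)) := by
  rw [exp_EW (by norm_num) hE]
  have dRR : Dep (fun η : ℤ → ZMod 4 => ind (RR 1 η)) (Icc 0 2) := by
    have := dep_RR 1
    norm_num at this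
    exact this
  have dRL : Dep (fun η : ℤ → ZMod 4 => ind (RL 1 η)) (Icc 0 2) := by
    have := dep_RL 1
    norm_num at this
    exact this
  have dRS : Dep (fun η : ℤ → ZMod 4 => ind (RS 1 η)) (Icc 0 2) := by
    have := dep_RS 1
    norm_num at this
    exact this
  have dN2 : Dep (fun η : ℤ → ZMod 4 => ind (EN (1 + 1) η)) (Icc 0 2) := by
    have := dep_EN (κ := 4) (1 + 1) (by norm_num)
    norm_num at this
    exact this
  have eE : E (fun η => ind (EE η)) = E (fun η => ind (RL 1 η)) := by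
    congr 1
    funext η
    rw [propext (PE_RL1 η)]
    rfl
  have eN : E (fun η => ind (EN 1 η)) = E (fun η => ind (EN 2 η)) + E (fun η => ind (RR 1 η)) +
      E (fun η => ind (RL 1 η)) + E (fun η => ind (RS 1 η)) := by
    have h1 : (fun η : ℤ → ZMod 4 => ind (EN 1 η)) = fun η => ((ind (EN (1 + 1) η) +
        ind (RR 1 η)) + ind (RL 1 η)) + ind (RS 1 η) := by
      funext η
      exact EN_split 1 le_rfl η
    have d1 := dN2.add dRR
    have d2 := d1.add dRL
    rw [h1, hE.exp.add _ _ _ d2 dRS, hE.exp.add _ _ _ d1 dRL, hE.exp.add _ _ _ dN2 dRR]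
  rw [eE, eN]
  ring

end CPS92
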