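import Pool.Agent.LibCPS92.PDefs

/-! Sums over the distance: the shifted patterns are disjoint, because the distance to the
previous (next) wall is determined. -/

namespace CPS92

open CPS84 Finset
open scoped Classical

variable {E : ((ℤ → ZMod 4) → ℝ) → ℝ}

private theorem pg_z1 : ∀ a : ZMod 4, a ≠ a - 1 := by decide

private theorem pg_z2 : ∀ a : ZMod 4, a ≠ a + 1 := by decide

private theorem pg_z3 : ∀ a : ZMod 4, a ≠ a + 2 := by decide

/-- exclusive events inside `Q` -/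
private theorem pg_excl (s : Finset ℕ) (P : ℕ → Prop) (Q : Prop) (hQ : ∀ k ∈ s, P k → Q)
    (hd : ∀ k ∈ s, ∀ l ∈ s, k < l → P k → P l → False) : ∑ k ∈ s, ind (P k) ≤ ind Q := by
  by_cases h : ∃ k ∈ s, P k
  · obtain ⟨k, hk, hPk⟩ := h
    rw [ind_true (hQ k hk hPk), sum_eq_single k]
    · exact ind_le_one _
    · intro l hl hlk
      apply ind_false
      intro hPl
      rcases lt_or_gt_of_ne hlk with h1 | h1
      · exact hd l hl k hk h1 hPl hPk
      · exact hd k hk l hl h1 hPk hPl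
    · intro h1
      exact absurd hk h1
  · push Not at h
    rw [sum_eq_zero fun k hk => ind_false (h k hk)]
    exact ind_nonneg _

private theorem pg_dep (k : ℕ) (P : (ℤ → ZMod 4) → Prop)
    (h : ∀ η ζ : ℤ → ZMod 4, (∀ i ∈ Icc (-1 : ℤ) (k + 2), η i = ζ i) → (P η ↔ P ζ)) :
    Dep (fun η : ℤ → ZMod 4 => ind (P η)) (Icc (-1 : ℤ) (k + 2)) := dep_pat k P h

private theorem pg_EN (k : ℕ) (hk : 1 ≤ k) (η ζ : ℤ → ZMod 4)
    (h : ∀ i ∈ Icc (-1 : ℤ) (k + 2), η i = ζ i) : EN k η ↔ EN k ζ := by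
  have hk1 : (1 : ℤ) ≤ k := by exact_mod_cast hk
  have h0 : η 0 = ζ 0 := h 0 (mem_Icc.mpr ⟨by norm_num, by omega⟩)
  have h1 : η 1 = ζ 1 := h 1 (mem_Icc.mpr ⟨by norm_num, by omega⟩)
  unfold EN
  rw [h0, h1]
  refine and_congr Iff.rfl (forall_congr' fun i => ?_)
  constructor
  · intro H a b
    rw [← h i (mem_Icc.mpr ⟨by omega, by omega⟩)]
    exact H a b
  · intro H a b
    rw [h i (mem_Icc.mpr ⟨by omega, by omega⟩)]
    exact H a b

/-- the patterns with the previous wall adjacent -/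
private theorem pg_depA (k : ℕ) (hk : 1 ≤ k) (x : ZMod 4) (P : (ℤ → ZMod 4) → Prop)
    (hP : ∀ η, P η ↔ (EN k η ∧ η (k + 1) = η k + x) ∧ η (-1) = η 0 + 1) :
    Dep (fun η : ℤ → ZMod 4 => ind (P η)) (Icc (-1 : ℤ) (k + 2)) := by
  apply pg_dep
  intro η ζ h
  have hk1 : (1 : ℤ) ≤ k := by exact_mod_cast hk
  have h0 : η 0 = ζ 0 := h 0 (mem_Icc.mpr ⟨by norm_num, by omega⟩)
  have hm : η (-1) = ζ (-1) := h (-1) (mem_Icc.mpr ⟨by norm_num, by omega⟩)
  have hkk : η k = ζ k := h k (mem_Icc.mpr ⟨by omega, by omega⟩)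
  have hk2 : η (k + 1) = ζ (k + 1) := h (k + 1) (mem_Icc.mpr ⟨by omega, by omega⟩)
  rw [hP, hP, pg_EN k hk η ζ h, h0, hm, hkk, hk2]

/-- the patterns with the next but one wall adjacent -/
private theorem pg_depB (k : ℕ) (hk : 1 ≤ k) (x y : ZMod 4) (P : (ℤ → ZMod 4) → Prop)
    (hP : ∀ η, P η ↔ (EN k η ∧ η (k + 1) = η k + x) ∧ η (k + 2) = η (k + 1) + y) :
    Dep (fun η : ℤ → ZMod 4 => ind (P η)) (Icc (-1 : ℤ) (k + 2)) := by
  apply pg_dep
  intro η ζ h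
  have hk1 : (1 : ℤ) ≤ k := by exact_mod_cast hk
  have hkk : η k = ζ k := h k (mem_Icc.mpr ⟨by omega, by omega⟩)
  have hk2 : η (k + 1) = ζ (k + 1) := h (k + 1) (mem_Icc.mpr ⟨by omega, by omega⟩)
  have hk3 : η (k + 2) = ζ (k + 2) := h (k + 2) (mem_Icc.mpr ⟨by omega, by omega⟩)
  rw [hP, hP, pg_EN k hk η ζ h, hkk, hk2, hk3]

/-- pointwise: given walls at the edges `(-1, 0)`, `(0, 1)`, the next wall is unique; shift -/
theorem sum_ace (hE : Inv E) (A : ℕ) :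
    ∑ k ∈ Icc 1 A, (E (fun η => ind (RR k η ∧ η (-1) = η 0 + 1)) +
      E (fun η => ind (RL k η ∧ η (-1) = η 0 + 1)) +
      E (fun η => ind (RS k η ∧ η (-1) = η 0 + 1))) ≤ E (fun η => ind (RR 1 η)) := by
  -- one function for each distance
  set F : ℕ → (ℤ → ZMod 4) → ℝ := fun k η => ind (RR k η ∧ η (-1) = η 0 + 1) +
    ind (RL k η ∧ η (-1) = η 0 + 1) + ind (RS k η ∧ η (-1) = η 0 + 1) with hF
  have hd1 : ∀ k, 1 ≤ k → Dep (fun η : ℤ → ZMod 4 => ind (RR k η ∧ η (-1) = η 0 + 1))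
      (Icc (-1 : ℤ) (k + 2)) := fun k hk =>
    pg_depA k hk (-1) (fun η => RR k η ∧ η (-1) = η 0 + 1)
      (fun η => by unfold RR; rw [sub_eq_add_neg])
  have hd2 : ∀ k, 1 ≤ k → Dep (fun η : ℤ → ZMod 4 => ind (RL k η ∧ η (-1) = η 0 + 1))
      (Icc (-1 : ℤ) (k + 2)) := fun k hk =>
    pg_depA k hk 1 (fun η => RL k η ∧ η (-1) = η 0 + 1) (fun η => by unfold RL; rfl)
  have hd3 : ∀ k, 1 ≤ k → Dep (fun η : ℤ → ZMod 4 => ind (RS k η ∧ η (-1) = η 0 + 1))
      (Icc (-1 : ℤ) (k + 2)) := fun k hk =>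
    pg_depA k hk 2 (fun η => RS k η ∧ η (-1) = η 0 + 1) (fun η => by unfold RS; rfl)
  have hEF : ∀ k ∈ Icc 1 A, E (fun η => ind (RR k η ∧ η (-1) = η 0 + 1)) +
      E (fun η => ind (RL k η ∧ η (-1) = η 0 + 1)) +
      E (fun η => ind (RS k η ∧ η (-1) = η 0 + 1)) = E (F k) := by
    intro k hk
    have hk1 := (mem_Icc.1 hk).1
    have h1 := hE.exp.add _ _ _ (hd1 k hk1) (hd2 k hk1)
    have h2 := hE.exp.add _ _ _ ((hd1 k hk1).add (hd2 k hk1)) (hd3 k hk1)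
    rw [← h1, ← h2]
  rw [sum_congr rfl hEF]
  have hFd : ∀ k ∈ Icc 1 A, Dep (F k) (Icc (-1 : ℤ) (A + 2)) := by
    intro k hk
    have hk1 := mem_Icc.1 hk
    refine (((hd1 k hk1.1).add (hd2 k hk1.1)).add (hd3 k hk1.1)).mono ?_
    exact Icc_subset_Icc_right (by have := hk1.2; omega)
  rw [← hE.exp.sum (Icc 1 A) F hFd]
  have hRR : Dep (fun η : ℤ → ZMod 4 => ind (RR 1 η)) (Icc 0 (((1 : ℕ) : ℤ) + 1)) := dep_RR 1
  rw [← hE.shift (-1) hRR]
  have hsd := dep_sh hRR (-1)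
  have himg : ((Icc 0 (((1 : ℕ) : ℤ) + 1)).image (fun i => i + (-1))) ⊆ Icc (-1 : ℤ) (A + 2) := by
    intro i hi
    rw [mem_image] at hi
    obtain ⟨l, hl, rfl⟩ := hi
    rw [mem_Icc] at hl ⊢
    push_cast at hl
    constructor <;> omega
  refine hE.exp.mono _ _ (Icc (-1 : ℤ) (A + 2)) (Dep.sum (Icc 1 A) F hFd) (hsd.mono himg) ?_
  intro η
  -- pointwise
  have hpt : ∀ k ∈ Icc 1 A, F k η = ind ((EN k η ∧ η (k + 1) ≠ η k) ∧ η (-1) = η 0 + 1) := by
    intro k hk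
    have hk1 := (mem_Icc.1 hk).1
    simp only [hF]
    by_cases hm : η (-1) = η 0 + 1
    · have e : ∀ p : Prop, ind (p ∧ η (-1) = η 0 + 1) = ind p := by
        intro p
        by_cases hp : p
        · rw [ind_true hp, ind_true ⟨hp, hm⟩]
        · rw [ind_false hp, ind_false (fun h => hp h.1)]
      rw [e, e, e, e]
      have h1 := EN_split k hk1 η
      have hk2 : (1 : ℤ) ≤ k := by exact_mod_cast hk1
      by_cases hEN : EN k η
      · rw [ind_true hEN] at h1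
        by_cases hkk : η (k + 1) = η k
        · have h2 : EN (k + 1) η := by
            refine ⟨hEN.1, fun i hi1 hi2 => ?_⟩
            rcases eq_or_ne i ((k : ℤ) + 1) with e2 | e2
            · rw [e2, hkk]
              exact hEN.2 k hk2 le_rfl
            · exact hEN.2 i hi1 (by push_cast at hi2; omega)
          rw [ind_true h2] at h1
          rw [ind_false (fun h : EN k η ∧ η (k + 1) ≠ η k => h.2 hkk)]
          linarith
        · have h2 : ¬ EN (k + 1) η := by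
            intro h
            apply hkk
            rw [h.2 (k + 1) (by omega) (by push_cast; omega), h.2 k hk2 (by push_cast; omega)]
          rw [ind_false h2] at h1
          rw [ind_true (⟨hEN, hkk⟩ : EN k η ∧ η (k + 1) ≠ η k)]
          linarith
      · rw [ind_false (fun h : RR k η => hEN h.1), ind_false (fun h : RL k η => hEN h.1),
          ind_false (fun h : RS k η => hEN h.1),
          ind_false (fun h : EN k η ∧ η (k + 1) ≠ η k => hEN h.1)]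
        norm_num
    · rw [ind_false (fun h : RR k η ∧ η (-1) = η 0 + 1 => hm h.2),
        ind_false (fun h : RL k η ∧ η (-1) = η 0 + 1 => hm h.2),
        ind_false (fun h : RS k η ∧ η (-1) = η 0 + 1 => hm h.2),
        ind_false (fun h : (EN k η ∧ η (k + 1) ≠ η k) ∧ η (-1) = η 0 + 1 => hm h.2)]
      norm_num
  change ∑ k ∈ Icc 1 A, F k η ≤ ind (RR 1 (sh (-1) η))
  rw [sum_congr rfl hpt]
  apply pg_excl
  · rintro k hk ⟨⟨h1, -⟩, h3⟩
    have a0 : (0 : ℤ) + -1 = -1 := by norm_num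
    have a1 : (1 : ℤ) + -1 = 0 := by norm_num
    have a2 : ((1 : ℕ) : ℤ) + 1 + -1 = 1 := by norm_num
    refine ⟨⟨?_, ?_⟩, ?_⟩
    · change η (0 + -1) = η (1 + -1) + 1
      rw [a0, a1]
      exact h3
    · intro i hi1 hi2
      have : i = 1 := by push_cast at hi2; omega
      rw [this]
    · change η (((1 : ℕ) : ℤ) + 1 + -1) = η (((1 : ℕ) : ℤ) + -1) - 1
      have a3 : ((1 : ℕ) : ℤ) + -1 = 0 := by norm_num
      rw [a2, a3, h1.1]
      ring
  · rintro k hk l hl hkl ⟨⟨h1, h2⟩, -⟩ ⟨⟨h3, -⟩, -⟩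
    apply h2
    have hk1 := (mem_Icc.1 hk).1
    rw [h3.2 (k + 1) (by omega) (by omega), h3.2 k (by omega) (by omega)]

/-- shift by the distance: walls at `(0, 1)` and the previous wall at `(-k, -k + 1)` -/
private theorem pg_shift (hE : Inv E) (A : ℕ) (y : ZMod 4) (P : ℕ → (ℤ → ZMod 4) → Prop)
    (hP : ∀ k η, P k η ↔ (EN k η ∧ η (k + 1) = η k + (-1)) ∧ η (k + 2) = η (k + 1) + y)
    (Q : (ℤ → ZMod 4) → Prop) (hQd : Dep (fun η => ind (Q η)) (Icc 0 (((1 : ℕ) : ℤ) + 1)))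
    (hQ : ∀ η : ℤ → ZMod 4, η 0 = η 1 + 1 → η 2 = η 1 + y → Q η) :
    ∑ k ∈ Icc 1 A, E (fun η => ind (P k η)) ≤ E (fun η => ind (Q η)) := by
  have hd : ∀ k, 1 ≤ k → Dep (fun η : ℤ → ZMod 4 => ind (P k η)) (Icc (-1 : ℤ) (k + 2)) :=
    fun k hk => pg_depB k hk (-1) y (P k) (hP k)
  have hsh : ∀ k ∈ Icc 1 A, E (fun η => ind (P k η)) = E (fun η => ind (P k (sh (-(k : ℤ)) η))) := by
    intro k hk
    exact (hE.shift (-(k : ℤ)) (hd k (mem_Icc.1 hk).1)).symm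
  rw [sum_congr rfl hsh]
  have hFd : ∀ k ∈ Icc 1 A, Dep (fun η : ℤ → ZMod 4 => ind (P k (sh (-(k : ℤ)) η)))
      (Icc (-(A : ℤ) - 1) (A + 2)) := by
    intro k hk
    have hk1 := mem_Icc.1 hk
    refine (dep_sh (hd k hk1.1) (-(k : ℤ))).mono ?_
    intro i hi
    rw [mem_image] at hi
    obtain ⟨l, hl, rfl⟩ := hi
    rw [mem_Icc] at hl ⊢
    have := hk1.2
    constructor <;> omega
  rw [← hE.exp.sum (Icc 1 A) (fun k η => ind (P k (sh (-(k : ℤ)) η))) hFd]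
  refine hE.exp.mono _ _ (Icc (-(A : ℤ) - 1) (A + 2)) (Dep.sum (Icc 1 A) _ hFd) (hQd.mono ?_) ?_
  · intro i hi
    rw [mem_Icc] at hi ⊢
    push_cast at hi
    constructor <;> omega
  · intro η
    have hiff : ∀ k : ℕ, 1 ≤ k → P k (sh (-(k : ℤ)) η) → (η (-(k : ℤ)) = η 0 + 1 ∧
        (∀ i : ℤ, 1 - (k : ℤ) ≤ i → i ≤ 0 → η i = η 0)) ∧ η 1 = η 0 - 1 ∧ η 2 = η 1 + y := by
      intro k hk h
      obtain ⟨⟨⟨h1, h2⟩, h3⟩, h4⟩ := (hP k _).1 h
      have hk1 : (1 : ℤ) ≤ k := by exact_mod_cast hk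
      have b0 : (0 : ℤ) + -(k : ℤ) = -(k : ℤ) := by ring
      have b1 : (k : ℤ) + -(k : ℤ) = 0 := by ring
      have b2 : (k : ℤ) + 1 + -(k : ℤ) = 1 := by ring
      have b3 : (k : ℤ) + 2 + -(k : ℤ) = 2 := by ring
      change η (0 + -(k : ℤ)) = η (1 + -(k : ℤ)) + 1 at h1
      change η ((k : ℤ) + 1 + -(k : ℤ)) = η ((k : ℤ) + -(k : ℤ)) + (-1) at h3
      change η ((k : ℤ) + 2 + -(k : ℤ)) = η ((k : ℤ) + 1 + -(k : ℤ)) + y at h4
      have h5 : ∀ i : ℤ, 1 ≤ i → i ≤ k → η (i + -(k : ℤ)) = η (1 + -(k : ℤ)) := h2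
      have h6 := h5 k hk1 le_rfl
      rw [b0] at h1
      rw [b1, b2] at h3
      rw [b2, b3] at h4
      rw [b1] at h6
      refine ⟨⟨?_, ?_⟩, ?_, h4⟩
      · rw [h1, h6]
      · intro i hi1 hi2
        have h7 := h5 (i + k) (by omega) (by omega)
        have b4 : i + (k : ℤ) + -(k : ℤ) = i := by ring
        rw [b4] at h7
        rw [h7, h6]
      · rw [h3]
        ring
    apply pg_excl
    · intro k hk h
      have h1 := hiff k (mem_Icc.1 hk).1 h
      refine hQ η ?_ h1.2.2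
      rw [h1.2.1]
      ring
    · intro k hk l hl hkl h1 h2
      have h3 := (hiff k (mem_Icc.1 hk).1 h1).1.1
      have h4 := (hiff l (mem_Icc.1 hl).1 h2).1.2 (-(k : ℤ)) (by omega) (by omega)
      rw [h4] at h3
      exact pg_z2 _ h3

/-- shift `RR k ∧ ...` by `k`: walls at `(0, 1)`, `(1, 2)`, previous wall at `(-k, -k + 1)` -/
theorem sum_y (hE : Inv E) (A : ℕ) :
    ∑ k ∈ Icc 1 A, E (fun η => ind (RR k η ∧ η (k + 2) = η (k + 1) - 1)) ≤
      E (fun η => ind (RR 1 η)) := by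
  refine pg_shift hE A (-1) (fun k η => RR k η ∧ η (k + 2) = η (k + 1) - 1)
    (fun k η => by unfold RR; rw [sub_eq_add_neg, sub_eq_add_neg]) (RR 1) (dep_RR 1) ?_
  intro η h0 h2
  refine ⟨⟨h0, fun i hi1 hi2 => ?_⟩, ?_⟩
  · have : i = 1 := by push_cast at hi2; omega
    rw [this]
  · have a2 : ((1 : ℕ) : ℤ) + 1 = 2 := by norm_num
    have a1 : ((1 : ℕ) : ℤ) = 1 := by norm_num
    rw [a2, a1, h2]
    ring

theorem sum_b (hE : Inv E) (A : ℕ) :
    ∑ k ∈ Icc 1 A, E (fun η => ind (RR k η ∧ η (k + 2) = η (k + 1) + 1)) ≤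
      E (fun η => ind (RL 1 η)) := by
  refine pg_shift hE A 1 (fun k η => RR k η ∧ η (k + 2) = η (k + 1) + 1)
    (fun k η => by unfold RR; rw [sub_eq_add_neg]) (RL 1) (dep_RL 1) ?_
  intro η h0 h2
  refine ⟨⟨h0, fun i hi1 hi2 => ?_⟩, ?_⟩
  · have : i = 1 := by push_cast at hi2; omega
    rw [this]
  · have a2 : ((1 : ℕ) : ℤ) + 1 = 2 := by norm_num
    have a1 : ((1 : ℕ) : ℤ) = 1 := by norm_num
    rw [a2, a1, h2]

/-- disjoint reflected patterns -/
private theorem PGb_sum (hE : Inv E) (A : ℕ) (P : ℕ → (ℤ → ZMod 4) → Prop)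
    (Q : (ℤ → ZMod 4) → Prop)
    (hP : ∀ k, Dep (fun η : ℤ → ZMod 4 => ind (P k η)) (Icc (-1 : ℤ) (k + 2)))
    (hQ : Dep (fun η : ℤ → ZMod 4 => ind (Q η)) (Icc (0 : ℤ) 2))
    (hEN : ∀ k η, P k η → EN k η)
    (hPQ : ∀ k : ℕ, 1 ≤ k → ∀ ζ, P k (sym id (-1) (k + 2) ζ) → Q ζ) :
    ∑ k ∈ Icc 1 A, E (fun η => ind (P k η)) ≤ E (fun η => ind (Q η)) := by
  have h1 : ∀ k : ℕ, E (fun η => ind (P k η)) =
      E (fun ζ => ind (P k (sym id (-1) (k + 2) ζ))) := fun k =>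
    (hE.inv (-1) (k + 2) (Or.inr rfl) (fun η => ind (P k η)) _ (hP k)).symm
  have hd : ∀ k ∈ Icc 1 A, Dep (fun ζ : ℤ → ZMod 4 => ind (P k (sym id (-1) (k + 2) ζ)))
      (Icc (-1 : ℤ) (A + 3)) := by
    intro k hk
    rw [mem_Icc] at hk
    apply (dep_sym (hP k) id (-1) (k + 2)).mono
    intro i hi
    rw [mem_image] at hi
    obtain ⟨l, hl, rfl⟩ := hi
    rw [mem_Icc] at hl ⊢
    have : (k : ℤ) ≤ A := by exact_mod_cast hk.2
    constructor <;> omega
  have hQ' : Dep (fun η : ℤ → ZMod 4 => ind (Q η)) (Icc (-1 : ℤ) (A + 3)) := by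
    apply hQ.mono
    intro i hi
    rw [mem_Icc] at hi ⊢
    constructor <;> omega
  rw [sum_congr rfl (fun k _ => h1 k), ← hE.exp.sum _ _ hd]
  refine hE.exp.mono _ _ _ (Dep.sum _ _ hd) hQ' (fun ζ => ?_)
  have key : ∀ k k' : ℕ, 1 ≤ k → k < k' → P k (sym id (-1) (k + 2) ζ) →
      ¬ P k' (sym id (-1) (k' + 2) ζ) := by
    intro k k' hk hkk hp hp'
    obtain ⟨e1, -⟩ := hEN k _ hp
    obtain ⟨-, e2⟩ := hEN k' _ hp'
    have hkk' : (k : ℤ) < k' := by exact_mod_cast hkk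
    have hk1 : (1 : ℤ) ≤ k := by exact_mod_cast hk
    have e3 := e2 (k' - k) (by omega) (by omega)
    have e4 := e2 (k' - k + 1) (by omega) (by omega)
    simp only [sym, id] at e1 e3 e4
    rw [show (-1 * (k' - k : ℤ) + (k' + 2)) = k + 2 by ring] at e3
    rw [show (-1 * (k' - k + 1 : ℤ) + (k' + 2)) = k + 1 by ring] at e4
    rw [show (-1 * (0 : ℤ) + (k + 2)) = k + 2 by ring,
      show (-1 * (1 : ℤ) + (k + 2)) = k + 1 by ring, e3, e4] at e1
    exact one_ne_zero_zmod (κ := 4) (by norm_num) (left_eq_add.1 e1)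
  by_cases hex : ∃ k ∈ Icc 1 A, P k (sym id (-1) (k + 2) ζ)
  · obtain ⟨k, hk, hpk⟩ := hex
    have hk1 := (mem_Icc.1 hk).1
    rw [sum_eq_single k]
    · exact ind_mono (hPQ k hk1 ζ)
    · intro k' hk' hne
      have hk1' := (mem_Icc.1 hk').1
      apply ind_false
      intro hpk'
      rcases lt_or_gt_of_ne hne with h | h
      · exact key k' k hk1' h hpk' hpk
      · exact key k k' hk1 h hpk hpk'
    · intro h
      exact absurd hk h
  · push Not at hex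
    rw [sum_eq_zero (fun k hk => ind_false (hex k hk))]
    exact ind_nonneg _

private theorem PGb_EN_dep (k : ℕ) {η ζ : ℤ → ZMod 4} (h : ∀ i ∈ Icc (-1 : ℤ) (k + 2), η i = ζ i) :
    EN k η ↔ EN k ζ := by
  have h0 : η 0 = ζ 0 := h 0 (by rw [mem_Icc]; constructor <;> omega)
  have h1 : η 1 = ζ 1 := h 1 (by rw [mem_Icc]; constructor <;> omega)
  unfold EN
  rw [h0, h1]
  have h2 : (∀ i : ℤ, 1 ≤ i → i ≤ k → η i = ζ 1) ↔ ∀ i : ℤ, 1 ≤ i → i ≤ k → ζ i = ζ 1 := by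
    constructor
    · intro hh i hi1 hi2
      rw [← h i (by rw [mem_Icc]; constructor <;> omega)]
      exact hh i hi1 hi2
    · intro hh i hi1 hi2
      rw [h i (by rw [mem_Icc]; constructor <;> omega)]
      exact hh i hi1 hi2
  rw [h2]

/-- two adjacent left-moving walls: the reflection of `RR 1` -/
theorem sum_d (hE : Inv E) (A : ℕ) :
    ∑ k ∈ Icc 1 A, E (fun η => ind (RL k η ∧ η (k + 2) = η (k + 1) + 1)) ≤
      E (fun η => ind (RR 1 η)) := by
  apply PGb_sum hE A (fun k η => RL k η ∧ η (k + 2) = η (k + 1) + 1) (RR 1)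
  · intro k
    apply dep_pat k (fun η => RL k η ∧ η (k + 2) = η (k + 1) + 1)
    intro η ζ h
    unfold RL
    rw [PGb_EN_dep k h, h (k + 1) (by rw [mem_Icc]; constructor <;> omega),
      h (k + 2) (by rw [mem_Icc]; constructor <;> omega),
      h k (by rw [mem_Icc]; constructor <;> omega)]
  · exact (dep_RR 1).mono (by intro i hi; rw [mem_Icc] at hi ⊢; push_cast at hi; omega)
  · intro k η h
    exact h.1.1
  · intro k hk ζ h
    obtain ⟨⟨⟨e0, e1⟩, e2⟩, e3⟩ := h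
    simp only [sym, id] at e0 e1 e2 e3
    rw [show (-1 * (k + 2 : ℤ) + (k + 2)) = 0 by ring,
      show (-1 * (k + 1 : ℤ) + (k + 2)) = 1 by ring] at e3
    rw [show (-1 * (k : ℤ) + (k + 2)) = 2 by ring,
      show (-1 * (k + 1 : ℤ) + (k + 2)) = 1 by ring] at e2
    refine ⟨⟨e3, fun i h1 h2 => ?_⟩, ?_⟩
    · have : i = 1 := by push_cast at h2; omega
      rw [this]
    · push_cast
      rw [e2]
      ring

/-- blocker followed by a left-moving wall: the reflection of `RS 1` -/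
theorem sum_f (hE : Inv E) (A : ℕ) :
    ∑ k ∈ Icc 1 A, E (fun η => ind (RS k η ∧ η (k + 2) = η (k + 1) + 1)) ≤
      E (fun η => ind (RS 1 η)) := by
  apply PGb_sum hE A (fun k η => RS k η ∧ η (k + 2) = η (k + 1) + 1) (RS 1)
  · intro k
    apply dep_pat k (fun η => RS k η ∧ η (k + 2) = η (k + 1) + 1)
    intro η ζ h
    unfold RS
    rw [PGb_EN_dep k h, h (k + 1) (by rw [mem_Icc]; constructor <;> omega),
      h (k + 2) (by rw [mem_Icc]; constructor <;> omega),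
      h k (by rw [mem_Icc]; constructor <;> omega)]
  · exact (dep_RS 1).mono (by intro i hi; rw [mem_Icc] at hi ⊢; push_cast at hi; omega)
  · intro k η h
    exact h.1.1
  · intro k hk ζ h
    obtain ⟨⟨⟨e0, e1⟩, e2⟩, e3⟩ := h
    simp only [sym, id] at e0 e1 e2 e3
    rw [show (-1 * (k + 2 : ℤ) + (k + 2)) = 0 by ring,
      show (-1 * (k + 1 : ℤ) + (k + 2)) = 1 by ring] at e3
    rw [show (-1 * (k : ℤ) + (k + 2)) = 2 by ring,
      show (-1 * (k + 1 : ℤ) + (k + 2)) = 1 by ring] at e2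
    refine ⟨⟨e3, fun i h1 h2 => ?_⟩, ?_⟩
    · have : i = 1 := by push_cast at h2; omega
      rw [this]
    · push_cast
      rw [e2]
      have h4 : (2 + 2 : ZMod 4) = 0 := by decide
      rw [add_assoc, h4, add_zero]

end CPS92
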