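import Mathlib

/-! The real inequality (summation by parts). -/

namespace CPS92

open Finset

private theorem up_sum (w q : ℕ → ℝ) (n : ℕ) :
    ∑ k ∈ Icc 1 n, w k * q (k + 1) =
      ∑ k ∈ Icc 1 n, w (k - 1) * q k - w 0 * q 1 + w n * q (n + 1) := by
  induction n with
  | zero => simp
  | succ n ih =>
    rw [Finset.sum_Icc_succ_top (by omega), Finset.sum_Icc_succ_top (by omega), ih]
    simp only [Nat.add_sub_cancel]
    ring

private theorem down_sum (w q : ℕ → ℝ) (m : ℕ) :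
    ∑ k ∈ Icc 1 (m + 1), w k * (if 2 ≤ k then q (k - 1) else 0) =
      ∑ k ∈ Icc 1 m, w (k + 1) * q k := by
  induction m with
  | zero => simp
  | succ n ih =>
    rw [Finset.sum_Icc_succ_top (by omega), ih, Finset.sum_Icc_succ_top (by omega : 1 ≤ n + 1)]
    have h2 : 2 ≤ n + 1 + 1 := by omega
    rw [if_pos h2]
    simp only [Nat.add_sub_cancel]

private theorem le_sum_of (w q : ℕ → ℝ) (n : ℕ) (hw : ∀ k ∈ Icc 1 n, w k ≤ 1)
    (hq : ∀ k, 0 ≤ q k) : ∑ k ∈ Icc 1 n, w k * q k ≤ ∑ k ∈ Icc 1 n, q k := by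
  apply Finset.sum_le_sum
  intro k hk
  nlinarith [hw k hk, hq k]

/-- `w k = (1 - k/A)^2`, `v k = 1 - k/A`.
`∑ w_k (p (k+1) + [2 ≤ k] p (k-1) - 2 p k) = ∑ p_k (w (k-1) + w (k+1) - 2 w k) - w 0 p 1 + w (A-1) p A`
`≥ (2/A²) ∑ p_k - p 1`;  `∑ w_k (r (k+1) - r k) ≥ (3/A²) ∑ r_k - r 1`;
`∑ v_k (s (k+1) - s k) ≥ (1/A) ∑ s_k - s 1`.
In `Y k = y k + b k + x k` the part `x` cancels against the part `2 x` of `hr`. -/
theorem alg92 (A : ℕ) (hA : 2 ≤ A) (p r s a b c d e f x y gp gr gs : ℕ → ℝ) (gm gw : ℝ)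
    (hp0 : ∀ k, 0 ≤ p k) (hr0 : ∀ k, 0 ≤ r k) (hs0 : ∀ k, 0 ≤ s k) (ha0 : ∀ k, 0 ≤ a k)
    (hb0 : ∀ k, 0 ≤ b k) (hc0 : ∀ k, 0 ≤ c k) (hd0 : ∀ k, 0 ≤ d k) (he0 : ∀ k, 0 ≤ e k)
    (hf0 : ∀ k, 0 ≤ f k) (hx0 : ∀ k, 0 ≤ x k) (hy0 : ∀ k, 0 ≤ y k)
    (hace : ∑ k ∈ Icc 1 (A - 1), (a k + c k + e k) ≤ p 1)
    (hy : ∑ k ∈ Icc 1 (A - 1), y k ≤ p 1) (hb : ∑ k ∈ Icc 1 (A - 1), b k ≤ r 1)
    (hd : ∑ k ∈ Icc 1 (A - 1), d k ≤ p 1) (hf : ∑ k ∈ Icc 1 (A - 1), f k ≤ s 1)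
    (hgp : ∀ k, 1 ≤ k → p (k + 1) +
      (if 2 ≤ k then p (k - 1) - y (k - 1) - b (k - 1) - x (k - 1) else 0) - 2 * p k - a k - b k ≤ gp k)
    (hgr : ∀ k, 1 ≤ k → 2 * r (k + 1) - 2 * r k + (if 2 ≤ k then 2 * x (k - 1) else 0)
      - c k - d k ≤ gr k)
    (hgs : ∀ k, 1 ≤ k → s (k + 1) - s k - e k - f k ≤ gs k)
    (hgm : gm = -4 * (p 1 + r 1)) (hgw : gw = -2 * (p 1 + r 1 + s 1) - 2 * r 1) :
    (A : ℝ) ^ 2 / 4 * (2 * gm - ∑ k ∈ Icc 1 (A - 1), (1 - (k : ℝ) / A) ^ 2 * (2 * gp k + gr k)) +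
      A * (gw - ∑ k ∈ Icc 1 (A - 1), (1 - (k : ℝ) / A) * gs k) ≤
      -∑ k ∈ Icc 1 (A - 1), (p k + r k + s k) := by
  obtain ⟨m, rfl⟩ : ∃ m, A = m + 2 := ⟨A - 2, by omega⟩
  have hA1 : m + 2 - 1 = m + 1 := by omega
  rw [hA1] at hace hy hb hd hf ⊢
  have hAr : (((m + 2 : ℕ) : ℝ)) = (m : ℝ) + 2 := by push_cast; ring
  have hApos : (0 : ℝ) < ((m + 2 : ℕ) : ℝ) := by rw [hAr]; positivity
  set A : ℝ := ((m + 2 : ℕ) : ℝ) with hA'
  set w : ℕ → ℝ := fun k => (1 - (k : ℝ) / A) ^ 2 with hw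
  set v : ℕ → ℝ := fun k => 1 - (k : ℝ) / A with hv
  have hvr : ∀ k ∈ Icc 1 (m + 1), 0 ≤ v k ∧ v k ≤ 1 := by
    intro k hk
    have hk2 : (k : ℝ) ≤ A := by
      rw [hA']
      exact_mod_cast (by have := (Finset.mem_Icc.1 hk).2; omega : k ≤ m + 2)
    have h1 : (k : ℝ) / A ≤ 1 := (div_le_one hApos).2 hk2
    have h2 : 0 ≤ (k : ℝ) / A := by positivity
    exact ⟨by simp only [hv]; linarith, by simp only [hv]; linarith⟩
  have hwr : ∀ k ∈ Icc 1 (m + 1), 0 ≤ w k ∧ w k ≤ 1 := by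
    intro k hk
    have := hvr k hk
    have e : w k = v k ^ 2 := rfl
    rw [e]
    exact ⟨sq_nonneg _, by nlinarith⟩
  have hwA : w (m + 2) = 0 := by
    simp only [hw]
    rw [← hA', div_self hApos.ne']
    simp
  have hvA : v (m + 2) = 0 := by
    simp only [hv]
    rw [← hA', div_self hApos.ne']
    simp
  have hw0 : w 0 = 1 := by simp [hw]
  have hv0 : v 0 = 1 := by simp [hv]
  -- second difference of w
  have hw2 : ∀ k, 1 ≤ k → w (k - 1) + w (k + 1) - 2 * w k = 2 / A ^ 2 := by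
    intro k hk
    obtain ⟨j, rfl⟩ : ∃ j, k = j + 1 := ⟨k - 1, by omega⟩
    simp only [hw, Nat.add_sub_cancel]
    push_cast
    field_simp
    ring
  have hw1 : ∀ k ∈ Icc 1 (m + 1), 3 / A ^ 2 ≤ w (k - 1) - w k := by
    intro k hk
    have hk' := Finset.mem_Icc.1 hk
    obtain ⟨j, rfl⟩ : ∃ j, k = j + 1 := ⟨k - 1, by omega⟩
    have hj : (j : ℝ) ≤ m := by exact_mod_cast (by omega : j ≤ m)
    have e : w (j + 1 - 1) - w (j + 1) = (2 * A - 2 * (j + 1) + 1) / A ^ 2 := by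
      simp only [hw, Nat.add_sub_cancel]
      push_cast
      field_simp
      ring
    rw [e]
    apply div_le_div_of_nonneg_right _ (by positivity)
    rw [hAr]
    linarith
  have hv1 : ∀ k, 1 ≤ k → v (k - 1) - v k = 1 / A := by
    intro k hk
    obtain ⟨j, rfl⟩ : ∃ j, k = j + 1 := ⟨k - 1, by omega⟩
    simp only [hv, Nat.add_sub_cancel]
    push_cast
    field_simp
    ring
  have hdown : ∀ q : ℕ → ℝ, ∑ k ∈ Icc 1 (m + 1), w k * (if 2 ≤ k then q (k - 1) else 0) =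
      ∑ k ∈ Icc 1 (m + 1), w (k + 1) * q k := by
    intro q
    rw [down_sum, Finset.sum_Icc_succ_top (by omega : 1 ≤ m + 1), hwA]
    ring
  -- the sum for p
  have hP : 2 / A ^ 2 * ∑ k ∈ Icc 1 (m + 1), p k - p 1 ≤
      ∑ k ∈ Icc 1 (m + 1), w k * (p (k + 1) + (if 2 ≤ k then p (k - 1) else 0) - 2 * p k) := by
    have e : ∑ k ∈ Icc 1 (m + 1), w k * (p (k + 1) + (if 2 ≤ k then p (k - 1) else 0) - 2 * p k) =
        ∑ k ∈ Icc 1 (m + 1), w k * p (k + 1) +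
        ∑ k ∈ Icc 1 (m + 1), w k * (if 2 ≤ k then p (k - 1) else 0) -
        ∑ k ∈ Icc 1 (m + 1), 2 * (w k * p k) := by
      rw [← Finset.sum_add_distrib, ← Finset.sum_sub_distrib]
      apply Finset.sum_congr rfl
      intro k _
      ring
    rw [e, up_sum w p, hdown p, hw0, Finset.mul_sum]
    have e2 : ∑ k ∈ Icc 1 (m + 1), 2 / A ^ 2 * p k =
        ∑ k ∈ Icc 1 (m + 1), w (k - 1) * p k + ∑ k ∈ Icc 1 (m + 1), w (k + 1) * p k -
          ∑ k ∈ Icc 1 (m + 1), 2 * (w k * p k) := by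
      rw [← Finset.sum_add_distrib, ← Finset.sum_sub_distrib]
      apply Finset.sum_congr rfl
      intro k hk
      rw [← hw2 k (Finset.mem_Icc.1 hk).1]
      ring
    have h3 : 0 ≤ w (m + 1) * p (m + 1 + 1) :=
      mul_nonneg (hwr (m + 1) (Finset.mem_Icc.2 ⟨by omega, le_refl _⟩)).1 (hp0 _)
    rw [e2]
    linarith
  have hR : 3 / A ^ 2 * ∑ k ∈ Icc 1 (m + 1), r k - r 1 ≤
      ∑ k ∈ Icc 1 (m + 1), w k * (r (k + 1) - r k) := by
    have e : ∑ k ∈ Icc 1 (m + 1), w k * (r (k + 1) - r k) =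
        ∑ k ∈ Icc 1 (m + 1), w k * r (k + 1) - ∑ k ∈ Icc 1 (m + 1), w k * r k := by
      rw [← Finset.sum_sub_distrib]
      apply Finset.sum_congr rfl
      intro k _
      ring
    rw [e, up_sum w r, hw0, Finset.mul_sum]
    have e2 : ∑ k ∈ Icc 1 (m + 1), 3 / A ^ 2 * r k ≤
        ∑ k ∈ Icc 1 (m + 1), w (k - 1) * r k - ∑ k ∈ Icc 1 (m + 1), w k * r k := by
      rw [← Finset.sum_sub_distrib]
      apply Finset.sum_le_sum
      intro k hk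
      have := mul_le_mul_of_nonneg_right (hw1 k hk) (hr0 k)
      linarith
    have h3 : 0 ≤ w (m + 1) * r (m + 1 + 1) :=
      mul_nonneg (hwr (m + 1) (Finset.mem_Icc.2 ⟨by omega, le_refl _⟩)).1 (hr0 _)
    linarith
  have hS : 1 / A * ∑ k ∈ Icc 1 (m + 1), s k - s 1 ≤
      ∑ k ∈ Icc 1 (m + 1), v k * (s (k + 1) - s k) := by
    have e : ∑ k ∈ Icc 1 (m + 1), v k * (s (k + 1) - s k) =
        ∑ k ∈ Icc 1 (m + 1), v k * s (k + 1) - ∑ k ∈ Icc 1 (m + 1), v k * s k := by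
      rw [← Finset.sum_sub_distrib]
      apply Finset.sum_congr rfl
      intro k _
      ring
    rw [e, up_sum v s, hv0, Finset.mul_sum]
    have e2 : ∑ k ∈ Icc 1 (m + 1), 1 / A * s k =
        ∑ k ∈ Icc 1 (m + 1), v (k - 1) * s k - ∑ k ∈ Icc 1 (m + 1), v k * s k := by
      rw [← Finset.sum_sub_distrib]
      apply Finset.sum_congr rfl
      intro k hk
      rw [← hv1 k (Finset.mem_Icc.1 hk).1]
      ring
    have h3 : 0 ≤ v (m + 1) * s (m + 1 + 1) :=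
      mul_nonneg (hvr (m + 1) (Finset.mem_Icc.2 ⟨by omega, le_refl _⟩)).1 (hs0 _)
    rw [e2]
    linarith
  -- the error sums
  have hdec : ∀ q : ℕ → ℝ, (∀ k, 0 ≤ q k) → ∑ k ∈ Icc 1 (m + 1), w (k + 1) * q k ≤
      ∑ k ∈ Icc 1 (m + 1), q k := by
    intro q hq
    apply Finset.sum_le_sum
    intro k hk
    have hk' := Finset.mem_Icc.1 hk
    have hwk : w (k + 1) ≤ 1 := by
      rcases Nat.lt_or_ge k (m + 1) with h1 | h1
      · exact (hwr (k + 1) (Finset.mem_Icc.2 ⟨by omega, by omega⟩)).2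
      · have : k + 1 = m + 2 := by omega
        rw [this, hwA]
        exact zero_le_one
    nlinarith [hq k]
  have hY := hdec y hy0
  have hB1 := hdec b hb0
  have hB2 := le_sum_of w b (m + 1) (fun k hk => (hwr k hk).2) hb0
  have hAs := le_sum_of w a (m + 1) (fun k hk => (hwr k hk).2) ha0
  have hCs := le_sum_of w c (m + 1) (fun k hk => (hwr k hk).2) hc0
  have hDs := le_sum_of w d (m + 1) (fun k hk => (hwr k hk).2) hd0
  have hEs := le_sum_of v e (m + 1) (fun k hk => (hvr k hk).2) he0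
  have hFs := le_sum_of v f (m + 1) (fun k hk => (hvr k hk).2) hf0
  have hCn : 0 ≤ ∑ k ∈ Icc 1 (m + 1), c k := Finset.sum_nonneg fun k _ => hc0 k
  have hEn : 0 ≤ ∑ k ∈ Icc 1 (m + 1), e k := Finset.sum_nonneg fun k _ => he0 k
  have hAn : 0 ≤ ∑ k ∈ Icc 1 (m + 1), a k := Finset.sum_nonneg fun k _ => ha0 k
  have hRn : 0 ≤ ∑ k ∈ Icc 1 (m + 1), r k := Finset.sum_nonneg fun k _ => hr0 k
  rw [Finset.sum_add_distrib, Finset.sum_add_distrib] at hace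
  -- lower bound for the first sum
  have hG1 : 2 * ∑ k ∈ Icc 1 (m + 1), w k * (p (k + 1) + (if 2 ≤ k then p (k - 1) else 0) - 2 * p k) +
      2 * ∑ k ∈ Icc 1 (m + 1), w k * (r (k + 1) - r k) -
      2 * ∑ k ∈ Icc 1 (m + 1), w (k + 1) * y k - 2 * ∑ k ∈ Icc 1 (m + 1), w (k + 1) * b k -
      2 * ∑ k ∈ Icc 1 (m + 1), w k * a k - 2 * ∑ k ∈ Icc 1 (m + 1), w k * b k -
      ∑ k ∈ Icc 1 (m + 1), w k * c k - ∑ k ∈ Icc 1 (m + 1), w k * d k ≤
      ∑ k ∈ Icc 1 (m + 1), w k * (2 * gp k + gr k) := by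
    rw [← hdown y, ← hdown b]
    simp only [Finset.mul_sum]
    rw [← Finset.sum_add_distrib, ← Finset.sum_sub_distrib, ← Finset.sum_sub_distrib,
      ← Finset.sum_sub_distrib, ← Finset.sum_sub_distrib, ← Finset.sum_sub_distrib,
      ← Finset.sum_sub_distrib]
    apply Finset.sum_le_sum
    intro k hk
    have hk1 := (Finset.mem_Icc.1 hk).1
    have h1 := hgp k hk1
    have h2 := hgr k hk1
    have hwk := (hwr k hk).1
    have key : 2 * (p (k + 1) + (if 2 ≤ k then p (k - 1) else 0) - 2 * p k) +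
        2 * (r (k + 1) - r k) - 2 * (if 2 ≤ k then y (k - 1) else 0) -
        2 * (if 2 ≤ k then b (k - 1) else 0) - 2 * a k - 2 * b k - c k - d k ≤
        2 * gp k + gr k := by
      split_ifs at h1 h2 ⊢ <;> linarith
    have := mul_le_mul_of_nonneg_left key hwk
    linarith
  have hG2 : ∑ k ∈ Icc 1 (m + 1), v k * (s (k + 1) - s k) - ∑ k ∈ Icc 1 (m + 1), v k * e k -
      ∑ k ∈ Icc 1 (m + 1), v k * f k ≤ ∑ k ∈ Icc 1 (m + 1), v k * gs k := by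
    rw [← Finset.sum_sub_distrib, ← Finset.sum_sub_distrib]
    apply Finset.sum_le_sum
    intro k hk
    have hk1 := (Finset.mem_Icc.1 hk).1
    have h1 := mul_le_mul_of_nonneg_left (hgs k hk1) (hvr k hk).1
    linarith
  have hI : 2 * gm - ∑ k ∈ Icc 1 (m + 1), w k * (2 * gp k + gr k) ≤
      - (4 / A ^ 2) * ∑ k ∈ Icc 1 (m + 1), p k - (4 / A ^ 2) * ∑ k ∈ Icc 1 (m + 1), r k := by
    have hp1 := hp0 1
    have hr1 := hr0 1
    have hpos : 0 ≤ 2 / A ^ 2 * ∑ k ∈ Icc 1 (m + 1), r k := by positivity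
    have e1 : (4 / A ^ 2) * ∑ k ∈ Icc 1 (m + 1), p k = 2 * (2 / A ^ 2 * ∑ k ∈ Icc 1 (m + 1), p k) := by
      ring
    have e2 : 2 * (3 / A ^ 2 * ∑ k ∈ Icc 1 (m + 1), r k) =
        (4 / A ^ 2) * ∑ k ∈ Icc 1 (m + 1), r k + 2 / A ^ 2 * ∑ k ∈ Icc 1 (m + 1), r k := by
      ring
    rw [hgm, neg_mul (4 / A ^ 2), e1]
    linarith
  have hII : gw - ∑ k ∈ Icc 1 (m + 1), v k * gs k ≤ - (1 / A) * ∑ k ∈ Icc 1 (m + 1), s k := by
    have hp1 := hp0 1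
    have hr1 := hr0 1
    have hs1 := hs0 1
    rw [hgw, neg_mul (1 / A)]
    linarith
  have hI' := mul_le_mul_of_nonneg_left hI (by positivity : 0 ≤ A ^ 2 / 4)
  have hII' := mul_le_mul_of_nonneg_left hII hApos.le
  have e1 : A ^ 2 / 4 * (- (4 / A ^ 2) * ∑ k ∈ Icc 1 (m + 1), p k -
      (4 / A ^ 2) * ∑ k ∈ Icc 1 (m + 1), r k) =
      - ∑ k ∈ Icc 1 (m + 1), p k - ∑ k ∈ Icc 1 (m + 1), r k := by
    field_simp
  have e2 : A * (- (1 / A) * ∑ k ∈ Icc 1 (m + 1), s k) = - ∑ k ∈ Icc 1 (m + 1), s k := by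
    field_simp
  rw [e1] at hI'
  rw [e2] at hII'
  rw [Finset.sum_add_distrib, Finset.sum_add_distrib]
  linarith

end CPS92
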