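import Pool.Agent.LibCPS92.PE
import Pool.Agent.LibCPS92.PG
import Pool.Agent.LibCPS92.PH

/-! The functional for the density of the moving walls. -/

namespace CPS92

open CPS84 Finset
open scoped Classical

variable {E : ((ℤ → ZMod 4) → ℝ) → ℝ}

noncomputable def PhiM (A : ℕ) (η : ℤ → ZMod 4) : ℝ :=
  (A : ℝ) ^ 2 / 4 * (2 * ind (EMv η) -
      ∑ k ∈ Icc 1 (A - 1), (1 - (k : ℝ) / A) ^ 2 * (2 * ind (RR k η) + ind (RL k η))) +
    A * (ind (EW η) - ∑ k ∈ Icc 1 (A - 1), (1 - (k : ℝ) / A) * ind (RS k η))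

private theorem PI_comb_dep (A : ℕ) {Λ : Finset ℤ} (M W : (ℤ → ZMod 4) → ℝ)
    (R L S : ℕ → (ℤ → ZMod 4) → ℝ) (hM : Dep M Λ) (hW : Dep W Λ)
    (hR : ∀ k ∈ Icc 1 (A - 1), Dep (R k) Λ) (hL : ∀ k ∈ Icc 1 (A - 1), Dep (L k) Λ)
    (hS : ∀ k ∈ Icc 1 (A - 1), Dep (S k) Λ) :
    Dep (fun η => (A : ℝ) ^ 2 / 4 * (2 * M η -
      ∑ k ∈ Icc 1 (A - 1), (1 - (k : ℝ) / A) ^ 2 * (2 * R k η + L k η)) +
    A * (W η - ∑ k ∈ Icc 1 (A - 1), (1 - (k : ℝ) / A) * S k η)) Λ := by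
  have h1 : ∀ k ∈ Icc 1 (A - 1),
      Dep (fun η => (1 - (k : ℝ) / A) ^ 2 * (2 * R k η + L k η)) Λ := fun k hk =>
    (((hR k hk).const_mul 2).add (hL k hk)).const_mul _
  have h2 : ∀ k ∈ Icc 1 (A - 1), Dep (fun η => (1 - (k : ℝ) / A) * S k η) Λ := fun k hk =>
    (hS k hk).const_mul _
  exact (((hM.const_mul 2).sub (Dep.sum _ _ h1)).const_mul _).add
    ((hW.sub (Dep.sum _ _ h2)).const_mul _)

private theorem PI_comb (hE : Exp E) (A : ℕ) {Λ : Finset ℤ} (M W : (ℤ → ZMod 4) → ℝ)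
    (R L S : ℕ → (ℤ → ZMod 4) → ℝ) (hM : Dep M Λ) (hW : Dep W Λ)
    (hR : ∀ k ∈ Icc 1 (A - 1), Dep (R k) Λ) (hL : ∀ k ∈ Icc 1 (A - 1), Dep (L k) Λ)
    (hS : ∀ k ∈ Icc 1 (A - 1), Dep (S k) Λ) :
    E (fun η => (A : ℝ) ^ 2 / 4 * (2 * M η -
      ∑ k ∈ Icc 1 (A - 1), (1 - (k : ℝ) / A) ^ 2 * (2 * R k η + L k η)) +
    A * (W η - ∑ k ∈ Icc 1 (A - 1), (1 - (k : ℝ) / A) * S k η)) =
    (A : ℝ) ^ 2 / 4 * (2 * E M -
      ∑ k ∈ Icc 1 (A - 1), (1 - (k : ℝ) / A) ^ 2 * (2 * E (R k) + E (L k))) +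
    A * (E W - ∑ k ∈ Icc 1 (A - 1), (1 - (k : ℝ) / A) * E (S k)) := by
  have h1 : ∀ k ∈ Icc 1 (A - 1),
      Dep (fun η => (1 - (k : ℝ) / A) ^ 2 * (2 * R k η + L k η)) Λ := fun k hk =>
    (((hR k hk).const_mul 2).add (hL k hk)).const_mul _
  have h2 : ∀ k ∈ Icc 1 (A - 1), Dep (fun η => (1 - (k : ℝ) / A) * S k η) Λ := fun k hk =>
    (hS k hk).const_mul _
  have e1 := hE.sum (Icc 1 (A - 1)) (fun k η => (1 - (k : ℝ) / A) ^ 2 * (2 * R k η + L k η)) h1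
  have e2 := hE.sum (Icc 1 (A - 1)) (fun k η => (1 - (k : ℝ) / A) * S k η) h2
  have d1 := Dep.sum _ _ h1
  have d2 := Dep.sum _ _ h2
  have d3 := (hM.const_mul 2).sub d1
  have d4 := hW.sub d2
  rw [hE.add _ _ _ (d3.const_mul _) (d4.const_mul _), hE.smul _ _ _ d3, hE.smul _ _ _ d4,
    hE.sub (hM.const_mul 2) d1, hE.sub hW d2, hE.smul _ _ _ hM, e1, e2]
  have e3 : ∀ k ∈ Icc 1 (A - 1), E (fun η => (1 - (k : ℝ) / A) ^ 2 * (2 * R k η + L k η)) =
      (1 - (k : ℝ) / A) ^ 2 * (2 * E (R k) + E (L k)) := by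
    intro k hk
    rw [hE.smul _ _ _ (((hR k hk).const_mul 2).add (hL k hk)),
      hE.add _ _ _ ((hR k hk).const_mul 2) (hL k hk), hE.smul _ _ _ (hR k hk)]
  have e4 : ∀ k ∈ Icc 1 (A - 1), E (fun η => (1 - (k : ℝ) / A) * S k η) =
      (1 - (k : ℝ) / A) * E (S k) := fun k hk => hE.smul _ _ _ (hS k hk)
  rw [sum_congr rfl e3, sum_congr rfl e4]

private theorem PI_icc {a b c d : ℤ} (h1 : c ≤ a) (h2 : b ≤ d) : Icc a b ⊆ Icc c d :=
  Finset.Icc_subset_Icc h1 h2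

private theorem PI_sub {A k : ℕ} (hk : k ∈ Icc 1 (A - 1)) :
    Icc (0 : ℤ) ((k : ℤ) + 1) ⊆ Icc 0 (A : ℤ) := by
  rw [mem_Icc] at hk
  exact PI_icc le_rfl (by omega)

private theorem PI_dM {A : ℕ} (hA : 2 ≤ A) :
    Dep (fun η : ℤ → ZMod 4 => ind (EMv η)) (Icc 0 (A : ℤ)) :=
  dep_EMv.mono (PI_icc le_rfl (by omega))

private theorem PI_dW {A : ℕ} (hA : 2 ≤ A) :
    Dep (fun η : ℤ → ZMod 4 => ind (EW η)) (Icc 0 (A : ℤ)) :=
  (dep_EW (κ := 4)).mono (PI_icc le_rfl (by omega))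

theorem dep_PhiM (A : ℕ) (hA : 2 ≤ A) : Dep (PhiM A) (Icc 0 (A : ℤ)) :=
  PI_comb_dep A (fun η => ind (EMv η)) (fun η => ind (EW η)) (fun k η => ind (RR k η))
    (fun k η => ind (RL k η)) (fun k η => ind (RS k η)) (PI_dM hA) (PI_dW hA)
    (fun k hk => (dep_RR k).mono (PI_sub hk)) (fun k hk => (dep_RL k).mono (PI_sub hk))
    (fun k hk => (dep_RS k).mono (PI_sub hk))

private theorem PI_E (hE : Inv E) (A : ℕ) (hA : 2 ≤ A) :
    E (PhiM A) = (A : ℝ) ^ 2 / 4 * (2 * E (fun η => ind (EMv η)) -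
      ∑ k ∈ Icc 1 (A - 1), (1 - (k : ℝ) / A) ^ 2 *
        (2 * E (fun η => ind (RR k η)) + E (fun η => ind (RL k η)))) +
    A * (E (fun η => ind (EW η)) -
      ∑ k ∈ Icc 1 (A - 1), (1 - (k : ℝ) / A) * E (fun η => ind (RS k η))) :=
  PI_comb hE.exp A (fun η => ind (EMv η)) (fun η => ind (EW η)) (fun k η => ind (RR k η))
    (fun k η => ind (RL k η)) (fun k η => ind (RS k η)) (PI_dM hA) (PI_dW hA)
    (fun k hk => (dep_RR k).mono (PI_sub hk)) (fun k hk => (dep_RL k).mono (PI_sub hk))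
    (fun k hk => (dep_RS k).mono (PI_sub hk))

private theorem PI_gen (A : ℕ) (K : Finset (ℤ × Bool)) (η : ℤ → ZMod 4) :
    gen (cyc 4) K (PhiM A) η = (A : ℝ) ^ 2 / 4 * (2 * gen (cyc 4) K (fun η => ind (EMv η)) η -
      ∑ k ∈ Icc 1 (A - 1), (1 - (k : ℝ) / A) ^ 2 *
        (2 * gen (cyc 4) K (fun η => ind (RR k η)) η + gen (cyc 4) K (fun η => ind (RL k η)) η)) +
    A * (gen (cyc 4) K (fun η => ind (EW η)) η -
      ∑ k ∈ Icc 1 (A - 1), (1 - (k : ℝ) / A) * gen (cyc 4) K (fun η => ind (RS k η)) η) := by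
  have h0 : PhiM A = fun η => (((A : ℝ) ^ 2 / 4 * 2) * ind (EMv η) + (-((A : ℝ) ^ 2 / 4)) *
      (∑ k ∈ Icc 1 (A - 1), (1 - (k : ℝ) / A) ^ 2 * (2 * ind (RR k η) + ind (RL k η)))) +
      ((A : ℝ) * ind (EW η) + (-(A : ℝ)) *
        (∑ k ∈ Icc 1 (A - 1), (1 - (k : ℝ) / A) * ind (RS k η))) := by
    funext η
    unfold PhiM
    ring
  rw [h0, gen_add, gen_add, gen_add, gen_const_mul, gen_const_mul, gen_const_mul, gen_const_mul,
    gen_sum, gen_sum]
  have e1 : ∀ k ∈ Icc 1 (A - 1), gen (cyc 4) K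
      (fun η => (1 - (k : ℝ) / A) ^ 2 * (2 * ind (RR k η) + ind (RL k η))) η =
      (1 - (k : ℝ) / A) ^ 2 *
        (2 * gen (cyc 4) K (fun η => ind (RR k η)) η + gen (cyc 4) K (fun η => ind (RL k η)) η) := by
    intro k _
    rw [gen_const_mul, gen_add, gen_const_mul]
  have e2 : ∀ k ∈ Icc 1 (A - 1), gen (cyc 4) K
      (fun η => (1 - (k : ℝ) / A) * ind (RS k η)) η =
      (1 - (k : ℝ) / A) * gen (cyc 4) K (fun η => ind (RS k η)) η := by
    intro k _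
    rw [gen_const_mul]
  rw [sum_congr rfl e1, sum_congr rfl e2]
  ring

private theorem PI_depEN (k m : ℕ) (hk : 1 ≤ k) (hm : k ≤ m) :
    Dep (fun η : ℤ → ZMod 4 => ind (EN k η)) (Icc 0 (m : ℤ)) :=
  (dep_EN (κ := 4) k hk).mono (PI_icc le_rfl (by exact_mod_cast hm))

private theorem PI_split (hE : Inv E) (k : ℕ) (hk : 1 ≤ k) :
    E (fun η => ind (EN k η)) = E (fun η => ind (EN (k + 1) η)) + (E (fun η => ind (RR k η)) +
      E (fun η => ind (RL k η)) + E (fun η => ind (RS k η))) := by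
  have dN : Dep (fun η : ℤ → ZMod 4 => ind (EN (k + 1) η)) (Icc 0 ((k : ℤ) + 1)) := by
    have := dep_EN (κ := 4) (k + 1) (by omega)
    push_cast at this
    exact this
  have h1 : (fun η : ℤ → ZMod 4 => ind (EN k η)) = fun η => ((ind (EN (k + 1) η) +
      ind (RR k η)) + ind (RL k η)) + ind (RS k η) := by
    funext η
    exact EN_split k hk η
  have d1 := dN.add (dep_RR k)
  have d2 := d1.add (dep_RL k)
  rw [h1, hE.exp.add _ _ _ d2 (dep_RS k), hE.exp.add _ _ _ d1 (dep_RL k),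
    hE.exp.add _ _ _ dN (dep_RR k)]
  ring

private theorem PI_tele (hE : Inv E) (n : ℕ) :
    ∑ k ∈ Icc 1 n, (E (fun η => ind (RR k η)) + E (fun η => ind (RL k η)) +
      E (fun η => ind (RS k η))) = E (fun η => ind (EN 1 η)) - E (fun η => ind (EN (n + 1) η)) := by
  induction n with
  | zero => simp
  | succ n ih =>
    rw [sum_Icc_succ_top (by omega), ih, PI_split hE (n + 1) (by omega)]
    ring

private theorem PI_N0 (hE : Inv E) (k : ℕ) (hk : 1 ≤ k) : 0 ≤ E (fun η => ind (EN k η)) :=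
  hE.exp.nonneg (dep_EN (κ := 4) k hk) (fun _ => ind_nonneg _)

private theorem PI_cast (k : ℕ) (hk : 2 ≤ k) (c : ZMod 4) (η : ℤ → ZMod 4) :
    (η ((k - 1 : ℕ) + 2) = η ((k - 1 : ℕ) + 1) + c) ↔ (η (k + 1) = η k + c) := by
  have hcast : (((k - 1 : ℕ) : ℕ) : ℤ) = (k : ℤ) - 1 := by
    rw [Nat.cast_sub (by omega)]
    norm_num
  rw [hcast, show (k : ℤ) - 1 + 2 = k + 1 by ring, show (k : ℤ) - 1 + 1 = k by ring]

private theorem PI_cast' (k : ℕ) (hk : 2 ≤ k) (c : ZMod 4) (η : ℤ → ZMod 4) :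
    (η ((k - 1 : ℕ) + 2) = η ((k - 1 : ℕ) + 1) - c) ↔ (η (k + 1) = η k - c) := by
  have hcast : (((k - 1 : ℕ) : ℕ) : ℤ) = (k : ℤ) - 1 := by
    rw [Nat.cast_sub (by omega)]
    norm_num
  rw [hcast, show (k : ℤ) - 1 + 2 = k + 1 by ring, show (k : ℤ) - 1 + 1 = k by ring]

private theorem PI_and_nonneg (hE : Inv E) (P Q : (ℤ → ZMod 4) → Prop) {Λ Λ' : Finset ℤ}
    (hP : Dep (fun η => ind (P η)) Λ) (hQ : Dep (fun η => ind (Q η)) Λ') :
    0 ≤ E (fun η => ind (P η ∧ Q η)) := by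
  have h1 : (fun η => ind (P η ∧ Q η)) = fun η => ind (P η) * ind (Q η) := by
    funext η
    unfold ind
    by_cases hp : P η
    · by_cases hq : Q η
      · rw [if_pos ⟨hp, hq⟩, if_pos hp, if_pos hq, mul_one]
      · rw [if_neg (fun h => hq h.2), if_neg hq, mul_zero]
    · rw [if_neg (fun h => hp h.1), if_neg hp, zero_mul]
  have h2 : Dep (fun η => ind (P η ∧ Q η)) (Λ ∪ Λ') := by
    rw [h1]
    exact (hP.mono subset_union_left).mul (hQ.mono subset_union_right)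
  exact hE.exp.nonneg h2 (fun _ => ind_nonneg _)

private theorem PI_pt (a b : ℤ) (c : ZMod 4) :
    Dep (fun η : ℤ → ZMod 4 => ind (η a = η b + c)) {a, b} :=
  dep_ind _ fun η ζ h => by rw [h a (by simp), h b (by simp)]

private theorem PI_pt' (a b : ℤ) (c : ZMod 4) :
    Dep (fun η : ℤ → ZMod 4 => ind (η a = η b - c)) {a, b} :=
  dep_ind _ fun η ζ h => by rw [h a (by simp), h b (by simp)]

/-- `alg92` with `p k = E (RR k)`, ..., `EN_split` (telescoping sum) and `CPS84.exp_EN_long` -/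
theorem exp_gen_PhiM (hE : Inv E) (A : ℕ) (hA : 2 ≤ A) :
    E (gen (cyc 4) (clk (Icc 0 (A : ℤ))) (PhiM A)) ≤
      -(E (fun η => ind (EN 1 η)) - 1 / (A : ℝ)) := by
  set K := clk (Icc (0 : ℤ) (A : ℤ)) with hK
  have hgen : gen (cyc 4) K (PhiM A) = fun η =>
      (A : ℝ) ^ 2 / 4 * (2 * gen (cyc 4) K (fun η => ind (EMv η)) η -
      ∑ k ∈ Icc 1 (A - 1), (1 - (k : ℝ) / A) ^ 2 *
        (2 * gen (cyc 4) K (fun η => ind (RR k η)) η + gen (cyc 4) K (fun η => ind (RL k η)) η)) +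
    A * (gen (cyc 4) K (fun η => ind (EW η)) η -
      ∑ k ∈ Icc 1 (A - 1), (1 - (k : ℝ) / A) * gen (cyc 4) K (fun η => ind (RS k η)) η) := by
    funext η
    exact PI_gen A K η
  have hEg := PI_comb hE.exp A (Λ := fat (Icc 0 (A : ℤ)))
    (fun η => gen (cyc 4) K (fun η => ind (EMv η)) η)
    (fun η => gen (cyc 4) K (fun η => ind (EW η)) η)
    (fun k η => gen (cyc 4) K (fun η => ind (RR k η)) η)
    (fun k η => gen (cyc 4) K (fun η => ind (RL k η)) η)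
    (fun k η => gen (cyc 4) K (fun η => ind (RS k η)) η) (dep_gen (PI_dM hA))
    (dep_gen (PI_dW hA)) (fun k hk => dep_gen ((dep_RR k).mono (PI_sub hk)))
    (fun k hk => dep_gen ((dep_RL k).mono (PI_sub hk)))
    (fun k hk => dep_gen ((dep_RS k).mono (PI_sub hk)))
  rw [hgen, hEg]
  have hMA : (fun η => gen (cyc 4) K (fun η => ind (EMv η)) η) =
      gen (cyc 4) (clk (Icc 0 1)) (fun η => ind (EMv η)) := by
    funext η
    exact gen_clk_of_subset dep_EMv (PI_icc le_rfl (by omega)) η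
  have hWA : (fun η => gen (cyc 4) K (fun η => ind (EW η)) η) =
      gen (cyc 4) (clk (Icc 0 1)) (fun η => ind (EW η)) := by
    funext η
    exact gen_clk_of_subset (dep_EW (κ := 4)) (PI_icc le_rfl (by omega)) η
  have hRA : ∀ k ∈ Icc 1 (A - 1), (fun η => gen (cyc 4) K (fun η => ind (RR k η)) η) =
      gen (cyc 4) (clk (Icc 0 ((k : ℤ) + 1))) (fun η => ind (RR k η)) := by
    intro k hk
    funext η
    exact gen_clk_of_subset (dep_RR k) (PI_sub hk) η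
  have hLA : ∀ k ∈ Icc 1 (A - 1), (fun η => gen (cyc 4) K (fun η => ind (RL k η)) η) =
      gen (cyc 4) (clk (Icc 0 ((k : ℤ) + 1))) (fun η => ind (RL k η)) := by
    intro k hk
    funext η
    exact gen_clk_of_subset (dep_RL k) (PI_sub hk) η
  have hSA : ∀ k ∈ Icc 1 (A - 1), (fun η => gen (cyc 4) K (fun η => ind (RS k η)) η) =
      gen (cyc 4) (clk (Icc 0 ((k : ℤ) + 1))) (fun η => ind (RS k η)) := by
    intro k hk
    funext η
    exact gen_clk_of_subset (dep_RS k) (PI_sub hk) η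
  rw [hMA, hWA]
  have hs1 : ∑ k ∈ Icc 1 (A - 1), (1 - (k : ℝ) / A) ^ 2 *
      (2 * E (fun η => gen (cyc 4) K (fun η => ind (RR k η)) η) +
        E (fun η => gen (cyc 4) K (fun η => ind (RL k η)) η)) =
      ∑ k ∈ Icc 1 (A - 1), (1 - (k : ℝ) / A) ^ 2 *
      (2 * E (gen (cyc 4) (clk (Icc 0 ((k : ℤ) + 1))) (fun η => ind (RR k η))) +
        E (gen (cyc 4) (clk (Icc 0 ((k : ℤ) + 1))) (fun η => ind (RL k η)))) := by
    refine sum_congr rfl fun k hk => ?_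
    rw [hRA k hk, hLA k hk]
  have hs2 : ∑ k ∈ Icc 1 (A - 1), (1 - (k : ℝ) / A) *
      E (fun η => gen (cyc 4) K (fun η => ind (RS k η)) η) =
      ∑ k ∈ Icc 1 (A - 1), (1 - (k : ℝ) / A) *
      E (gen (cyc 4) (clk (Icc 0 ((k : ℤ) + 1))) (fun η => ind (RS k η))) := by
    refine sum_congr rfl fun k hk => ?_
    rw [hSA k hk]
  rw [hs1, hs2]
  have hmain := alg92 A hA (fun k => E (fun η => ind (RR k η))) (fun k => E (fun η => ind (RL k η)))
    (fun k => E (fun η => ind (RS k η)))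
    (fun k => E (fun η => ind (RR k η ∧ η (-1) = η 0 + 1)))
    (fun k => E (fun η => ind (RR k η ∧ η (k + 2) = η (k + 1) + 1)))
    (fun k => E (fun η => ind (RL k η ∧ η (-1) = η 0 + 1)))
    (fun k => E (fun η => ind (RL k η ∧ η (k + 2) = η (k + 1) + 1)))
    (fun k => E (fun η => ind (RS k η ∧ η (-1) = η 0 + 1)))
    (fun k => E (fun η => ind (RS k η ∧ η (k + 2) = η (k + 1) + 1)))
    (fun k => E (fun η => ind (RR k η ∧ η (k + 2) = η (k + 1) + 2)))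
    (fun k => E (fun η => ind (RR k η ∧ η (k + 2) = η (k + 1) - 1)))
    (fun k => E (gen (cyc 4) (clk (Icc 0 ((k : ℤ) + 1))) (fun η => ind (RR k η))))
    (fun k => E (gen (cyc 4) (clk (Icc 0 ((k : ℤ) + 1))) (fun η => ind (RL k η))))
    (fun k => E (gen (cyc 4) (clk (Icc 0 ((k : ℤ) + 1))) (fun η => ind (RS k η))))
    (E (gen (cyc 4) (clk (Icc 0 1)) (fun η => ind (EMv η))))
    (E (gen (cyc 4) (clk (Icc 0 1)) (fun η => ind (EW η))))
    (fun k => hE.exp.nonneg (dep_RR k) (fun _ => ind_nonneg _))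
    (fun k => hE.exp.nonneg (dep_RL k) (fun _ => ind_nonneg _))
    (fun k => hE.exp.nonneg (dep_RS k) (fun _ => ind_nonneg _))
    (fun k => PI_and_nonneg hE _ _ (dep_RR k) (PI_pt _ _ _))
    (fun k => PI_and_nonneg hE _ _ (dep_RR k) (PI_pt _ _ _))
    (fun k => PI_and_nonneg hE _ _ (dep_RL k) (PI_pt _ _ _))
    (fun k => PI_and_nonneg hE _ _ (dep_RL k) (PI_pt _ _ _))
    (fun k => PI_and_nonneg hE _ _ (dep_RS k) (PI_pt _ _ _))
    (fun k => PI_and_nonneg hE _ _ (dep_RS k) (PI_pt _ _ _))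
    (fun k => PI_and_nonneg hE _ _ (dep_RR k) (PI_pt _ _ _))
    (fun k => PI_and_nonneg hE _ _ (dep_RR k) (PI_pt' _ _ _))
    (sum_ace hE (A - 1)) (sum_y hE (A - 1)) (sum_b hE (A - 1)) (sum_d hE (A - 1))
    (sum_f hE (A - 1))
    (fun k hk => by
      have h := exp_gen_RR hE k hk
      by_cases h2 : 2 ≤ k
      · rw [if_pos h2] at h
        rw [if_pos h2]
        have e1 : (fun η : ℤ → ZMod 4 => ind (RR (k - 1) η ∧
            η ((k - 1 : ℕ) + 2) = η ((k - 1 : ℕ) + 1) - 1)) =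
            fun η => ind (RR (k - 1) η ∧ η (k + 1) = η k - 1) := by
          funext η
          rw [propext (PI_cast' k h2 1 η)]
        have e2 : (fun η : ℤ → ZMod 4 => ind (RR (k - 1) η ∧
            η ((k - 1 : ℕ) + 2) = η ((k - 1 : ℕ) + 1) + 1)) =
            fun η => ind (RR (k - 1) η ∧ η (k + 1) = η k + 1) := by
          funext η
          rw [propext (PI_cast k h2 1 η)]
        have e3 : (fun η : ℤ → ZMod 4 => ind (RR (k - 1) η ∧
            η ((k - 1 : ℕ) + 2) = η ((k - 1 : ℕ) + 1) + 2)) =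
            fun η => ind (RR (k - 1) η ∧ η (k + 1) = η k + 2) := by
          funext η
          rw [propext (PI_cast k h2 2 η)]
        rw [e1, e2, e3]
        exact h
      · rw [if_neg h2] at h
        rw [if_neg h2]
        exact h)
    (fun k hk => by
      have h := exp_gen_RL hE k hk
      by_cases h2 : 2 ≤ k
      · rw [if_pos h2] at h
        rw [if_pos h2]
        have e3 : (fun η : ℤ → ZMod 4 => ind (RR (k - 1) η ∧
            η ((k - 1 : ℕ) + 2) = η ((k - 1 : ℕ) + 1) + 2)) =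
            fun η => ind (RR (k - 1) η ∧ η (k + 1) = η k + 2) := by
          funext η
          rw [propext (PI_cast k h2 2 η)]
        rw [e3]
        exact h
      · rw [if_neg h2] at h
        rw [if_neg h2]
        exact h)
    (fun k hk => exp_gen_RS hE k hk) (exp_gen_EMv hE) (exp_gen_EW4 hE)
  refine hmain.trans ?_
  rw [PI_tele hE (A - 1)]
  have hlong := exp_EN_long (κ := 4) (by norm_num) hE (A - 1)
  have hA1 : A - 1 + 1 = A := by omega
  have hA2 : ((A - 1 : ℕ) : ℝ) + 1 = A := by exact_mod_cast hA1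
  rw [hA1] at hlong ⊢
  rw [hA2] at hlong
  have hA0 : (0 : ℝ) < A := by
    have : 0 < A := by omega
    exact_mod_cast this
  have h5 : E (fun η => ind (EN A η)) ≤ 1 / (A : ℝ) := by
    rw [le_div_iff₀ hA0]
    linarith
  linarith

private theorem PI_v (A : ℕ) (hA : 2 ≤ A) (k : ℕ) (hk : k ∈ Icc 1 (A - 1)) :
    0 ≤ 1 - (k : ℝ) / A ∧ 1 - (k : ℝ) / A ≤ 1 := by
  rw [mem_Icc] at hk
  have hA0 : (0 : ℝ) < A := by
    have : 0 < A := by omega
    exact_mod_cast this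
  have h1 : (k : ℝ) ≤ A := by
    have : k ≤ A := by omega
    exact_mod_cast this
  have h2 : (k : ℝ) / A ≤ 1 := by rw [div_le_one hA0]; exact h1
  have h3 : 0 ≤ (k : ℝ) / A := by positivity
  constructor <;> linarith

private theorem PI_le_W (hE : Inv E) : E (fun η => ind (EN 1 η)) ≤ E (fun η => ind (EW η)) := by
  refine hE.exp.mono _ _ (Icc 0 1) (PI_depEN 1 1 le_rfl le_rfl) dep_EW fun η => ?_
  refine ind_mono fun h => ?_
  intro h'
  have h1 := h.1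
  rw [h'] at h1
  exact one_ne_zero_zmod (κ := 4) (by norm_num) (left_eq_add.1 h1)

/-- `E EMv = 2 E (EN 1)`, `∑ k, (RR k + RL k + RS k) ≤ EN 1` pointwise -/
theorem PhiM_nonneg (hE : Inv E) (A : ℕ) (hA : 2 ≤ A) : 0 ≤ E (PhiM A) := by
  rw [PI_E hE A hA]
  have hM : E (fun η => ind (EMv η)) = 2 * E (fun η => ind (EN 1 η)) :=
    mov_eq (by norm_num) hE
  have ht := PI_tele hE (A - 1)
  have hNA := PI_N0 hE (A - 1 + 1) (by omega)
  have hN1 := PI_N0 hE 1 le_rfl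
  have hp : ∀ k, 0 ≤ E (fun η => ind (RR k η)) := fun k =>
    hE.exp.nonneg (dep_RR k) (fun _ => ind_nonneg _)
  have hr : ∀ k, 0 ≤ E (fun η => ind (RL k η)) := fun k =>
    hE.exp.nonneg (dep_RL k) (fun _ => ind_nonneg _)
  have hs : ∀ k, 0 ≤ E (fun η => ind (RS k η)) := fun k =>
    hE.exp.nonneg (dep_RS k) (fun _ => ind_nonneg _)
  have h1 : ∑ k ∈ Icc 1 (A - 1), (1 - (k : ℝ) / A) ^ 2 *
        (2 * E (fun η => ind (RR k η)) + E (fun η => ind (RL k η))) ≤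
      2 * ∑ k ∈ Icc 1 (A - 1), (E (fun η => ind (RR k η)) + E (fun η => ind (RL k η)) +
      E (fun η => ind (RS k η))) := by
    rw [mul_sum]
    refine sum_le_sum fun k hk => ?_
    obtain ⟨v0, v1⟩ := PI_v A hA k hk
    have hw : (1 - (k : ℝ) / A) ^ 2 ≤ 1 := by nlinarith
    have h2 : (1 - (k : ℝ) / A) ^ 2 * (2 * E (fun η => ind (RR k η)) + E (fun η => ind (RL k η)))
        ≤ 1 * (2 * E (fun η => ind (RR k η)) + E (fun η => ind (RL k η))) :=
      mul_le_mul_of_nonneg_right hw (by have := hp k; have := hr k; linarith)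
    have := hr k
    have := hs k
    linarith
  have h2 : ∑ k ∈ Icc 1 (A - 1), (1 - (k : ℝ) / A) * E (fun η => ind (RS k η)) ≤
      ∑ k ∈ Icc 1 (A - 1), (E (fun η => ind (RR k η)) + E (fun η => ind (RL k η)) +
      E (fun η => ind (RS k η))) := by
    refine sum_le_sum fun k hk => ?_
    obtain ⟨v0, v1⟩ := PI_v A hA k hk
    have h2 : (1 - (k : ℝ) / A) * E (fun η => ind (RS k η)) ≤ 1 * E (fun η => ind (RS k η)) :=
      mul_le_mul_of_nonneg_right v1 (hs k)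
    have := hr k
    have := hp k
    linarith
  rw [ht] at h1 h2
  have hW := PI_le_W hE
  have h3 : 0 ≤ 2 * E (fun η => ind (EMv η)) - ∑ k ∈ Icc 1 (A - 1), (1 - (k : ℝ) / A) ^ 2 *
        (2 * E (fun η => ind (RR k η)) + E (fun η => ind (RL k η))) := by
    rw [hM]
    linarith
  have h4 : 0 ≤ E (fun η => ind (EW η)) -
      ∑ k ∈ Icc 1 (A - 1), (1 - (k : ℝ) / A) * E (fun η => ind (RS k η)) := by
    linarith
  positivity

theorem PhiM_le (hE : Inv E) (A : ℕ) (hA : 2 ≤ A) :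
    E (PhiM A) ≤ (A : ℝ) ^ 2 * E (fun η => ind (EN 1 η)) + A := by
  rw [PI_E hE A hA]
  have hM : E (fun η => ind (EMv η)) = 2 * E (fun η => ind (EN 1 η)) :=
    mov_eq (by norm_num) hE
  have hp : ∀ k, 0 ≤ E (fun η => ind (RR k η)) := fun k =>
    hE.exp.nonneg (dep_RR k) (fun _ => ind_nonneg _)
  have hr : ∀ k, 0 ≤ E (fun η => ind (RL k η)) := fun k =>
    hE.exp.nonneg (dep_RL k) (fun _ => ind_nonneg _)
  have hs : ∀ k, 0 ≤ E (fun η => ind (RS k η)) := fun k =>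
    hE.exp.nonneg (dep_RS k) (fun _ => ind_nonneg _)
  have h1 : 0 ≤ ∑ k ∈ Icc 1 (A - 1), (1 - (k : ℝ) / A) ^ 2 *
        (2 * E (fun η => ind (RR k η)) + E (fun η => ind (RL k η))) := by
    refine sum_nonneg fun k hk => ?_
    have := hp k
    have := hr k
    positivity
  have h2 : 0 ≤ ∑ k ∈ Icc 1 (A - 1), (1 - (k : ℝ) / A) * E (fun η => ind (RS k η)) := by
    refine sum_nonneg fun k hk => ?_
    exact mul_nonneg (PI_v A hA k hk).1 (hs k)
  have hW : E (fun η => ind (EW η)) ≤ 1 := by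
    have h1 := hE.exp.mono (fun η => ind (EW η)) (fun _ => 1) _
      (dep_EW (κ := 4)) (dep_const 1 _) (fun η => ind_le_one _)
    rw [hE.exp.one] at h1
    exact h1
  have hA0 : (0 : ℝ) ≤ A := Nat.cast_nonneg A
  have hA2 : (0 : ℝ) ≤ (A : ℝ) ^ 2 / 4 := by positivity
  have h3 := mul_nonneg hA2 h1
  have h4 := mul_nonneg hA0 h2
  have h5 := mul_le_mul_of_nonneg_left hW hA0
  rw [hM]
  nlinarith

theorem EN1_le_half (hE : Inv E) : E (fun η => ind (EN 1 η)) ≤ 1 / 2 := by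
  have hM : E (fun η => ind (EMv η)) = 2 * E (fun η => ind (EN 1 η)) :=
    mov_eq (by norm_num) hE
  have h1 := hE.exp.mono (fun η => ind (EMv η)) (fun _ => 1) _
    dep_EMv (dep_const 1 _) (fun η => ind_le_one _)
  rw [hE.exp.one] at h1
  linarith

end CPS92
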