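import Pool.Agent.LibCPS84.TA1
import Pool.Agent.LibCPS84.TB1
import Pool.Agent.LibCPS92.PI

/-! # The quenched bound for the number of moving walls on the cycle: definitions -/

namespace CPS92

open CPS84 Finset
open scoped Classical

variable {n : ℕ} [NeZero n]

/-- the number of moving walls on the cycle -/
noncomputable def tM (ξ : ZMod n → ZMod 4) : ℝ := ∑ z, ((mb (ξ z) (ξ (z + 1)) : ℤ) : ℝ)

/-- average of a function of colourings of `ℤ` over the translates and reflections of a periodic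
colouring -/
noncomputable def tE (ξ : ZMod n → ZMod 4) (f : (ℤ → ZMod 4) → ℝ) : ℝ :=
  (∑ x : ZMod n, (f (fun i : ℤ => ξ (x + (i : ZMod n))) +
    f (fun i : ℤ => ξ (x - (i : ZMod n))))) / (2 * n)

private theorem QA_shift (ξ : ZMod n → ZMod 4) (f : (ℤ → ZMod 4) → ℝ) (r p : ℤ)
    (hr : r = 1 ∨ r = -1) : tE ξ (fun η => f (sym id r p η)) = tE ξ f := by
  unfold tE
  congr 1
  rw [sum_add_distrib, sum_add_distrib]
  rcases hr with rfl | rfl
  · congr 1
    · rw [← Equiv.sum_comp (Equiv.addRight (p : ZMod n))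
        (fun x : ZMod n => f (fun i : ℤ => ξ (x + (i : ZMod n))))]
      refine sum_congr rfl (fun x _ => congrArg f (funext fun i => ?_))
      simp only [sym, id, Equiv.coe_addRight]
      congr 1
      push_cast
      ring
    · rw [← Equiv.sum_comp (Equiv.subRight (p : ZMod n))
        (fun x : ZMod n => f (fun i : ℤ => ξ (x - (i : ZMod n))))]
      refine sum_congr rfl (fun x _ => congrArg f (funext fun i => ?_))
      simp only [sym, id, Equiv.subRight_apply]
      congr 1
      push_cast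
      ring
  · rw [add_comm (∑ x : ZMod n, f (fun i : ℤ => ξ (x + (i : ZMod n))))]
    congr 1
    · rw [← Equiv.sum_comp (Equiv.addRight (p : ZMod n))
        (fun x : ZMod n => f (fun i : ℤ => ξ (x - (i : ZMod n))))]
      refine sum_congr rfl (fun x _ => congrArg f (funext fun i => ?_))
      simp only [sym, id, Equiv.coe_addRight]
      congr 1
      push_cast
      ring
    · rw [← Equiv.sum_comp (Equiv.subRight (p : ZMod n))
        (fun x : ZMod n => f (fun i : ℤ => ξ (x + (i : ZMod n))))]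
      refine sum_congr rfl (fun x _ => congrArg f (funext fun i => ?_))
      simp only [sym, id, Equiv.subRight_apply]
      congr 1
      push_cast
      ring

/-- `Exp`: finite averages.  `inv`: reindex the sum over `x` (`x ↦ x + p`, resp. `x ↦ x - p`; for
`r = -1` the two parts are exchanged) -/
theorem tE_inv (ξ : ZMod n → ZMod 4) : Inv (tE ξ) := by
  have hn : (0 : ℝ) < n := by exact_mod_cast Nat.pos_of_ne_zero (NeZero.ne n)
  refine ⟨⟨?_, ?_, ?_, ?_⟩, ?_⟩
  · intro f g Λ _ _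
    unfold tE
    rw [← add_div, ← sum_add_distrib]
    congr 1
    exact sum_congr rfl (fun x _ => by ring)
  · intro a f Λ _
    unfold tE
    rw [← mul_div_assoc, mul_sum]
    congr 1
    exact sum_congr rfl (fun x _ => by ring)
  · intro f g Λ _ _ h
    unfold tE
    apply div_le_div_of_nonneg_right _ (by positivity)
    exact sum_le_sum (fun x _ => add_le_add (h _) (h _))
  · unfold tE
    rw [sum_const, card_univ, ZMod.card, nsmul_eq_mul]
    field_simp
    norm_num
  · intro r p hr f Λ _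
    exact QA_shift ξ f r p hr

private theorem QA_EN1 (η : ℤ → ZMod 4) : EN 1 η ↔ η 0 = η 1 + 1 := by
  unfold EN
  constructor
  · exact fun h => h.1
  · intro h
    refine ⟨h, fun i h1 h2 => ?_⟩
    have : i = 1 := by
      push_cast at h2
      omega
    rw [this]

private theorem QA_mb (a b : ZMod 4) : ind (a = b + 1) + ind (b = a + 1) = ((mb a b : ℤ) : ℝ) := by
  have h : ¬ (a = b + 1 ∧ b = a + 1) := by
    revert a b
    decide
  unfold ind mb
  by_cases h1 : a = b + 1
  · have h2 : ¬ b = a + 1 := fun h2 => h ⟨h1, h2⟩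
    rw [if_pos h1, if_neg h2, if_pos (Or.inl h1)]
    norm_num
  · by_cases h2 : b = a + 1
    · rw [if_neg h1, if_pos h2, if_pos (Or.inr h2)]
      norm_num
    · rw [if_neg h1, if_neg h2, if_neg (by tauto)]
      norm_num

/-- `EN 1 η ↔ η 0 = η 1 + 1`; `x + 0, x + 1` gives the walls moving to the right, `x - 0, x - 1`
those moving to the left -/
theorem tE_EN1 (ξ : ZMod n → ZMod 4) :
    tE ξ (fun η => ind (EN 1 η)) = tM ξ / (2 * n) := by
  unfold tE tM
  congr 1
  rw [sum_add_distrib]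
  have h1 : ∑ x : ZMod n, ind (EN 1 (fun i : ℤ => ξ (x + (i : ZMod n)))) =
      ∑ x : ZMod n, ind (ξ x = ξ (x + 1) + 1) := by
    refine sum_congr rfl (fun x _ => ?_)
    rw [propext (QA_EN1 _)]
    simp
  have h2 : ∑ x : ZMod n, ind (EN 1 (fun i : ℤ => ξ (x - (i : ZMod n)))) =
      ∑ x : ZMod n, ind (ξ (x + 1) = ξ x + 1) := by
    rw [← Equiv.sum_comp (Equiv.addRight (1 : ZMod n))
      (fun x : ZMod n => ind (EN 1 (fun i : ℤ => ξ (x - (i : ZMod n)))))]
    refine sum_congr rfl (fun x _ => ?_)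
    rw [propext (QA_EN1 _)]
    simp
  rw [h1, h2, ← sum_add_distrib]
  exact sum_congr rfl (fun x _ => QA_mb _ _)

/-- the ring of a clock of the cycle, seen from a window `p` -/
private theorem QA_b_window (ξ : ZMod n → ZMod 4) {f : (ℤ → ZMod 4) → ℝ} {a b : ℤ}
    (hf : Dep f (Icc a b)) (p : ℤ → ZMod n) (σ : Bool → Bool) (hσ : Function.Injective σ)
    (hσ2 : Function.Surjective σ)
    (hp : ∀ i ∈ Icc a b, ∀ j ∈ Icc a b, p i = p j → i = j)
    (hnb : ∀ (i : ℤ) (d : Bool), tnb (p i, σ d) = p (nb (i, d))) :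
    ∑ c : ZMod n × Bool, (f (fun i => tact (fun _ => cyc 4) c ξ (p i)) - f (fun i => ξ (p i))) =
      gen (cyc 4) (clk (Icc a b)) f (fun i => ξ (p i)) := by
  unfold gen
  symm
  refine Finset.sum_of_injOn (fun c : ℤ × Bool => (p c.1, σ c.2)) ?_ ?_ ?_ ?_
  · rintro ⟨i, d⟩ hi ⟨j, e⟩ hj h
    have hi' : i ∈ Icc a b := (mem_product.mp (mem_coe.mp hi)).1
    have hj' : j ∈ Icc a b := (mem_product.mp (mem_coe.mp hj)).1
    have h1 : p i = p j := (Prod.mk.inj h).1
    have h2 : σ d = σ e := (Prod.mk.inj h).2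
    rw [hp i hi' j hj' h1, hσ h2]
  · intro c _
    exact mem_coe.mpr (mem_univ _)
  · rintro ⟨y, d⟩ _ hy
    rw [sub_eq_zero]
    refine hf _ _ fun i hi => ?_
    unfold tact
    refine Function.update_of_ne ?_ _ _
    intro h
    apply hy
    obtain ⟨e, he⟩ := hσ2 d
    refine ⟨(i, e), mem_coe.mpr (mem_product.mpr ⟨hi, mem_univ _⟩), ?_⟩
    exact Prod.ext h he
  · rintro ⟨i, d⟩ hi
    have hi' : i ∈ Icc a b := (mem_product.mp hi).1
    congr 1
    refine hf _ _ fun j hj => ?_
    unfold act tact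
    by_cases hij : j = i
    · subst hij
      rw [Function.update_self, Function.update_self]
      show cyc 4 (ξ (p (nb (j, d)))) (ξ (p j)) = cyc 4 (ξ (tnb (p j, σ d))) (ξ (p j))
      rw [hnb]
    · rw [Function.update_of_ne hij, Function.update_of_ne]
      intro h
      exact hij (hp j hj i hi' h)

omit [NeZero n] in
private theorem QA_b_inj {a b : ℤ} (hab : b - a + 1 ≤ n) (i : ℤ) (hi : i ∈ Icc a b) (j : ℤ)
    (hj : j ∈ Icc a b) (h : (i : ZMod n) = (j : ZMod n)) : i = j := by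
  rw [mem_Icc] at hi hj
  rw [ZMod.intCast_eq_intCast_iff] at h
  have hd : (n : ℤ) ∣ j - i := h.dvd
  by_contra hne
  have h1 : 0 < |j - i| := abs_pos.mpr (sub_ne_zero.mpr (fun e => hne e.symm))
  have h2 : (n : ℤ) ≤ |j - i| := Int.le_of_dvd h1 ((dvd_abs _ _).mpr hd)
  have h3 : |j - i| ≤ b - a := abs_le.mpr ⟨by omega, by omega⟩
  omega

/-- Let `η i = ξ (x + i)`.  A ring of `(y, d)` on the cycle changes on `Icc a b` at most the site
`i` with `x + i = y` (`b - a < n`), as the clock `(i, d)` does (`act`); the reflected part: as the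
clock `(i, !d)`.  `Finset.sum` over `(y, d)`: the pairs without `i ∈ Icc a b` contribute `0`. -/
theorem tgen_tE (ξ : ZMod n → ZMod 4) {f : (ℤ → ZMod 4) → ℝ} {a b : ℤ} (hf : Dep f (Icc a b))
    (hab : b - a + 1 ≤ n) :
    tgen (fun _ => cyc 4) (fun ζ => tE ζ f) ξ = tE ξ (gen (cyc 4) (clk (Icc a b)) f) := by
  have hA : ∀ x : ZMod n, ∑ c : ZMod n × Bool,
      (f (fun i : ℤ => tact (fun _ => cyc 4) c ξ (x + (i : ZMod n))) -
        f (fun i : ℤ => ξ (x + (i : ZMod n)))) =
      gen (cyc 4) (clk (Icc a b)) f (fun i : ℤ => ξ (x + (i : ZMod n))) := by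
    intro x
    refine QA_b_window ξ hf (fun i : ℤ => x + (i : ZMod n)) id Function.injective_id
      Function.surjective_id ?_ ?_
    · intro i hi j hj h
      exact QA_b_inj hab i hi j hj (add_left_cancel h)
    · intro i d
      cases d
      · simp only [tnb, nb, id]
        push_cast
        ring
      · simp only [tnb, nb, id]
        push_cast
        ring
  have hB : ∀ x : ZMod n, ∑ c : ZMod n × Bool,
      (f (fun i : ℤ => tact (fun _ => cyc 4) c ξ (x - (i : ZMod n))) -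
        f (fun i : ℤ => ξ (x - (i : ZMod n)))) =
      gen (cyc 4) (clk (Icc a b)) f (fun i : ℤ => ξ (x - (i : ZMod n))) := by
    intro x
    refine QA_b_window ξ hf (fun i : ℤ => x - (i : ZMod n)) not ?_ ?_ ?_ ?_
    · intro d e h
      cases d <;> cases e <;> simp_all
    · intro d
      exact ⟨!d, by cases d <;> rfl⟩
    · intro i hi j hj h
      exact QA_b_inj hab i hi j hj (sub_right_injective h)
    · intro i d
      cases d
      · simp only [tnb, nb, Bool.not_false, if_true, Bool.false_eq_true, if_false]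
        push_cast
        ring
      · simp only [tnb, nb, Bool.not_true, if_true, Bool.false_eq_true, if_false]
        push_cast
        ring
  unfold tgen tE
  simp only [← sub_div]
  rw [← sum_div]
  congr 1
  rw [sum_congr rfl (fun c _ => (sum_sub_distrib _ _).symm), sum_comm]
  refine sum_congr rfl fun x _ => ?_
  rw [← hA x, ← hB x, ← sum_add_distrib]
  refine sum_congr rfl fun c _ => ?_
  ring

private theorem QAc_mb : ∀ l x r a : ZMod 4, (a = r ∨ a = l) → x = a - 1 →
    mb a r + mb l a ≤ mb x r + mb l x := by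
  decide

private theorem QAc_mb_le : ∀ a b : ZMod 4, 0 ≤ mb a b ∧ mb a b ≤ 1 := by
  decide

/-- `sum_pair_update`; locally: `mb a c + mb a a ≤ mb a b + mb b c` if `b = a - 1` -/
theorem tM_act (hn : 2 ≤ n) (c : ZMod n × Bool) (ξ : ZMod n → ZMod 4) :
    tM (tact (fun _ => cyc 4) c ξ) ≤ tM ξ := by
  have h1 := sum_pair_update hn (fun a b : ZMod 4 => ((mb a b : ℤ) : ℝ)) ξ c.1
    (cyc 4 (ξ (tnb c)) (ξ c.1))
  have h2 : tact (fun _ => cyc 4) c ξ = Function.update ξ c.1 (cyc 4 (ξ (tnb c)) (ξ c.1)) := rfl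
  unfold tM
  rw [h2]
  have h3 : ξ (tnb c) = ξ (c.1 + 1) ∨ ξ (tnb c) = ξ (c.1 - 1) := by
    unfold tnb
    split_ifs
    · exact Or.inl rfl
    · exact Or.inr rfl
  have h4 : (((mb (cyc 4 (ξ (tnb c)) (ξ c.1)) (ξ (c.1 + 1)) : ℤ) : ℝ) -
      ((mb (ξ c.1) (ξ (c.1 + 1)) : ℤ) : ℝ)) +
      (((mb (ξ (c.1 - 1)) (cyc 4 (ξ (tnb c)) (ξ c.1)) : ℤ) : ℝ) -
        ((mb (ξ (c.1 - 1)) (ξ c.1) : ℤ) : ℝ)) ≤ 0 := by
    unfold cyc
    by_cases h5 : ξ c.1 = ξ (tnb c) - 1
    · rw [if_pos h5]
      have h6 := QAc_mb (ξ (c.1 - 1)) (ξ c.1) (ξ (c.1 + 1)) (ξ (tnb c)) h3 h5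
      have h7 : ((mb (ξ (tnb c)) (ξ (c.1 + 1)) + mb (ξ (c.1 - 1)) (ξ (tnb c)) : ℤ) : ℝ) ≤
          ((mb (ξ c.1) (ξ (c.1 + 1)) + mb (ξ (c.1 - 1)) (ξ c.1) : ℤ) : ℝ) := by
        exact_mod_cast h6
      push_cast at h7
      linarith
    · rw [if_neg h5]
      linarith
  linarith

theorem tM_nonneg (ξ : ZMod n → ZMod 4) : 0 ≤ tM ξ :=
  sum_nonneg fun z _ => by exact_mod_cast (QAc_mb_le (ξ z) (ξ (z + 1))).1

theorem tM_le (ξ : ZMod n → ZMod 4) : tM ξ ≤ n := by
  have h : tM ξ ≤ ∑ _z : ZMod n, (1 : ℝ) :=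
    sum_le_sum fun z _ => by exact_mod_cast (QAc_mb_le (ξ z) (ξ (z + 1))).2
  simpa using h

end CPS92
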