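import Pool.Agent.LibCPS92.QA

/-! The functional on the cycle. -/

namespace CPS92

open CPS84 Finset
open scoped Classical

variable {n : ℕ} [NeZero n]

noncomputable def tPhi (A : ℕ) (ξ : ZMod n → ZMod 4) : ℝ := n * tE ξ (PhiM A)

private theorem QB_npos : (0 : ℝ) < n := by
  have h : 0 < n := Nat.pos_of_ne_zero (NeZero.ne n)
  exact_mod_cast h

private theorem QB_half (x : ℝ) : (n : ℝ) * (x / (2 * n)) = x / 2 := by
  have h := QB_npos (n := n)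
  field_simp

/-- `tgen_tE` with `Icc 0 A`, `exp_gen_PhiM`, `tE_EN1` -/
theorem tgen_tPhi (A : ℕ) (hA : 2 ≤ A) (hAn : A + 1 ≤ n) (ξ : ZMod n → ZMod 4) :
    tgen (fun _ => cyc 4) (tPhi A) ξ ≤ -(tM ξ / 2 - n / (A : ℝ)) := by
  have h0 := QB_npos (n := n)
  have h1 : tgen (fun _ => cyc 4) (tPhi A) ξ =
      n * tgen (fun _ => cyc 4) (fun ζ => tE ζ (PhiM A)) ξ := by
    unfold tgen tPhi
    rw [mul_sum]
    refine sum_congr rfl (fun c _ => ?_)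
    ring
  have h2 : tgen (fun _ => cyc 4) (fun ζ : ZMod n → ZMod 4 => tE ζ (PhiM A)) ξ =
      tE ξ (gen (cyc 4) (clk (Icc 0 (A : ℤ))) (PhiM A)) := by
    refine tgen_tE ξ (dep_PhiM A hA) ?_
    have h3 : (A : ℤ) + 1 ≤ n := by exact_mod_cast hAn
    linarith
  have h3 := exp_gen_PhiM (tE_inv ξ) A hA
  rw [tE_EN1] at h3
  rw [h1, h2]
  have h4 := mul_le_mul_of_nonneg_left h3 h0.le
  have h5 : (n : ℝ) * -(tM ξ / (2 * n) - 1 / (A : ℝ)) = -(tM ξ / 2 - n / (A : ℝ)) := by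
    have h6 := QB_half (n := n) (tM ξ)
    calc (n : ℝ) * -(tM ξ / (2 * n) - 1 / (A : ℝ)) =
        -((n : ℝ) * (tM ξ / (2 * n)) - n / (A : ℝ)) := by ring
      _ = _ := by rw [h6]
  rw [h5] at h4
  exact h4

theorem tPhi_nonneg (A : ℕ) (hA : 2 ≤ A) (ξ : ZMod n → ZMod 4) : 0 ≤ tPhi A ξ :=
  mul_nonneg QB_npos.le (PhiM_nonneg (tE_inv ξ) A hA)

theorem tPhi_le (A : ℕ) (hA : 2 ≤ A) (ξ : ZMod n → ZMod 4) :
    tPhi A ξ ≤ (A : ℝ) ^ 2 * (tM ξ / 2) + n * A := by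
  have h0 := QB_npos (n := n)
  have h1 := mul_le_mul_of_nonneg_left (PhiM_le (tE_inv ξ) A hA) h0.le
  rw [tE_EN1] at h1
  have h2 : (n : ℝ) * ((A : ℝ) ^ 2 * (tM ξ / (2 * n)) + A) =
      (A : ℝ) ^ 2 * (tM ξ / 2) + n * A := by
    have h6 := QB_half (n := n) (tM ξ)
    calc (n : ℝ) * ((A : ℝ) ^ 2 * (tM ξ / (2 * n)) + A) =
        (A : ℝ) ^ 2 * ((n : ℝ) * (tM ξ / (2 * n))) + n * A := by ring
      _ = _ := by rw [h6]
  rw [h2] at h1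
  exact h1

end CPS92
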