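import Pool.Agent.LibCPS92.QB

/-! Iteration of the Euler chain. -/

namespace CPS92

open CPS84 Finset
open scoped Classical

variable {n : ℕ} [NeZero n] {h : ℝ}

/-- `tM_act`, `iter_mono` -/
theorem iter_tM_anti (hn : 2 ≤ n) (h0 : 0 ≤ h) (hh : h * (2 * n) ≤ 1) (ξ : ZMod n → ZMod 4) :
    Antitone (fun k : ℕ => ((tstp (fun _ => cyc 4) h)^[k] tM) ξ) := by
  refine antitone_nat_of_succ_le fun k => ?_
  show ((tstp (fun _ => cyc 4) h)^[k + 1] tM) ξ ≤ ((tstp (fun _ => cyc 4) h)^[k] tM) ξ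
  rw [Function.iterate_succ_apply]
  refine iter_mono h0 hh (fun ζ => ?_) k ξ
  unfold tstp tgen
  have h1 : ∑ c : ZMod n × Bool, (tM (tact (fun _ => cyc 4) c ζ) - tM ζ) ≤ 0 :=
    sum_nonpos fun c _ => sub_nonpos.2 (tM_act hn c ζ)
  have h2 := mul_nonpos_of_nonneg_of_nonpos h0 h1
  linarith

/-- Sum of `T^(j+1) Φ ≤ T^j Φ - h (T^j M / 2 - n / A)` over `k ≤ j < 2 k` (`tgen_tPhi`,
`iter_mono`, `iter_lin`, `iter_const`), `iter_tM_anti`, `tPhi_nonneg`, `tPhi_le` -/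
theorem iter_rec (hn : 2 ≤ n) (h0 : 0 ≤ h) (hh : h * (2 * n) ≤ 1) (ξ : ZMod n → ZMod 4)
    (A k : ℕ) (hA : 2 ≤ A) (hAn : A + 1 ≤ n) :
    k * h * (((tstp (fun _ => cyc 4) h)^[2 * k] tM) ξ / 2 - n / (A : ℝ)) ≤
      (A : ℝ) ^ 2 * (((tstp (fun _ => cyc 4) h)^[k] tM) ξ / 2) + n * A := by
  have hlin : ∀ (a b c : ℝ) (f g : (ZMod n → ZMod 4) → ℝ) (j : ℕ),
      ((tstp (fun _ => cyc 4) h)^[j] (fun ζ => a * f ζ + 1 * (b * g ζ + c * 1))) ξ =
        a * ((tstp (fun _ => cyc 4) h)^[j] f) ξ +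
          1 * (b * ((tstp (fun _ => cyc 4) h)^[j] g) ξ + c * 1) := by
    intro a b c f g j
    have e1 := iter_lin (u := fun _ => cyc 4) (h := h) a 1 f (fun ζ => b * g ζ + c * 1) j
    have e2 := iter_lin (u := fun _ => cyc 4) (h := h) b c g (fun _ => (1 : ℝ)) j
    have e3 := iter_const (n := n) (u := fun _ => cyc 4) (h := h) 1 j
    rw [e3] at e2
    rw [e1, e2]
  have hstep : ∀ j : ℕ, ((tstp (fun _ => cyc 4) h)^[j + 1] (tPhi A)) ξ ≤
      ((tstp (fun _ => cyc 4) h)^[j] (tPhi A)) ξ -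
        h * (((tstp (fun _ => cyc 4) h)^[j] tM) ξ / 2 - n / (A : ℝ)) := by
    intro j
    rw [Function.iterate_succ_apply]
    have h1 : ((tstp (fun _ => cyc 4) h)^[j] (tstp (fun _ => cyc 4) h (tPhi A))) ξ ≤
        ((tstp (fun _ => cyc 4) h)^[j] (fun ζ => 1 * tPhi A ζ +
          1 * (-(h / 2) * tM ζ + h * (n / (A : ℝ)) * 1))) ξ := by
      refine iter_mono h0 hh (fun ζ => ?_) j ξ
      have h2 := mul_le_mul_of_nonneg_left (tgen_tPhi A hA hAn ζ) h0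
      show tPhi A ζ + h * tgen (fun _ => cyc 4) (tPhi A) ζ ≤ _
      linarith
    rw [hlin] at h1
    linarith
  have hsum : ∀ i : ℕ, i ≤ k → ((tstp (fun _ => cyc 4) h)^[k + i] (tPhi A)) ξ ≤
      ((tstp (fun _ => cyc 4) h)^[k] (tPhi A)) ξ -
        i * h * (((tstp (fun _ => cyc 4) h)^[2 * k] tM) ξ / 2 - n / (A : ℝ)) := by
    intro i
    induction i with
    | zero =>
      intro _
      simp
    | succ i ih =>
      intro hi
      have h1 := ih (by omega)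
      have h2 := hstep (k + i)
      have h3 : ((tstp (fun _ => cyc 4) h)^[2 * k] tM) ξ ≤
          ((tstp (fun _ => cyc 4) h)^[k + i] tM) ξ := iter_tM_anti hn h0 hh ξ (by omega)
      have h4 := mul_le_mul_of_nonneg_left h3 h0
      rw [← add_assoc k i 1]
      push_cast
      linarith
  have h1 := hsum k le_rfl
  rw [← two_mul] at h1
  have h2 : 0 ≤ ((tstp (fun _ => cyc 4) h)^[2 * k] (tPhi A)) ξ := by
    have e := iter_mono (u := fun _ => cyc 4) (f := fun _ : ZMod n → ZMod 4 => (0 : ℝ)) h0 hh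
      (fun ζ => tPhi_nonneg A hA ζ) (2 * k) ξ
    rwa [iter_const] at e
  have h3 : ((tstp (fun _ => cyc 4) h)^[k] (tPhi A)) ξ ≤
      0 * ((tstp (fun _ => cyc 4) h)^[k] tM) ξ +
        1 * ((A : ℝ) ^ 2 / 2 * ((tstp (fun _ => cyc 4) h)^[k] tM) ξ + n * A * 1) := by
    rw [← hlin]
    refine iter_mono h0 hh (fun ζ => ?_) k ξ
    have := tPhi_le A hA ζ
    linarith
  linarith

/-- `T (M g) ≤ M T g` for `g ≥ 0` (`tM_act`), hence `T^k (M M) ≤ M T^k M` -/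
theorem iter_tM_sq (hn : 2 ≤ n) (h0 : 0 ≤ h) (hh : h * (2 * n) ≤ 1) (k : ℕ)
    (ξ : ZMod n → ZMod 4) :
    ((tstp (fun _ => cyc 4) h)^[k] (fun ζ => tM ζ ^ 2)) ξ ≤
      tM ξ * ((tstp (fun _ => cyc 4) h)^[k] tM) ξ := by
  induction k generalizing ξ with
  | zero =>
    show tM ξ ^ 2 ≤ tM ξ * tM ξ
    rw [sq]
  | succ k ih =>
    rw [Function.iterate_succ_apply', Function.iterate_succ_apply']
    have hg : ∀ ζ : ZMod n → ZMod 4, 0 ≤ ((tstp (fun _ => cyc 4) h)^[k] tM) ζ := by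
      intro ζ
      have e := iter_mono (u := fun _ => cyc 4) (f := fun _ : ZMod n → ZMod 4 => (0 : ℝ)) h0 hh
        (fun ζ => tM_nonneg ζ) k ζ
      rwa [iter_const] at e
    refine (tstp_mono h0 hh ih ξ).trans ?_
    generalize (tstp (n := n) (fun _ => cyc 4) h)^[k] (tM (n := n)) = G at hg ⊢
    unfold tstp tgen
    have h1 : ∑ c : ZMod n × Bool, (tM (tact (fun _ => cyc 4) c ξ) *
        G (tact (fun _ => cyc 4) c ξ) - tM ξ * G ξ) ≤
        tM ξ * ∑ c : ZMod n × Bool, (G (tact (fun _ => cyc 4) c ξ) - G ξ) := by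
      rw [mul_sum]
      refine sum_le_sum fun c _ => ?_
      rw [mul_sub]
      have := mul_le_mul_of_nonneg_right (tM_act hn c ξ) (hg (tact (fun _ => cyc 4) c ξ))
      linarith
    have h2 := mul_le_mul_of_nonneg_left h1 h0
    rw [mul_add]
    linarith

end CPS92
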